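import Pool.Agent.H53.KH.Stm

set_option autoImplicit false

/-! # Project KH, stub AVG: the average over the choices -/

namespace Pool.Agent.H53.KH

open Set Metric MeasureTheory Filter Topology Pool.Agent.H53.KD
open scoped ENNReal

/-- the sum over all shifts -/
theorem avg_shift (q : ℕ) (v : ℤ → ℝ≥0∞) (hv : ∀ t, t < 0 ∨ (q:ℤ) ≤ t → v t = 0) (j : ℤ) :
    ∑ τ ∈ Finset.Ico (-(q:ℤ)) q, v (j + τ) ≤ ∑ t ∈ Finset.Ico 0 (q:ℤ), v t := by
  classical
  have h1 : ∑ τ ∈ Finset.Ico (-(q:ℤ)) q, v (j + τ) =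
      ∑ t ∈ (Finset.Ico (-(q:ℤ)) q).image (fun τ => j + τ), v t := by
    rw [Finset.sum_image]
    intro a _ b _ hab
    simpa using hab
  rw [h1]
  have h2 : ∑ t ∈ (Finset.Ico (-(q:ℤ)) q).image (fun τ => j + τ), v t =
      ∑ t ∈ ((Finset.Ico (-(q:ℤ)) q).image (fun τ => j + τ)).filter (fun t => t ∈ Finset.Ico 0 (q:ℤ)), v t := by
    rw [Finset.sum_filter]
    refine Finset.sum_congr rfl ?_
    intro t _
    split_ifs with h
    · rfl
    · apply hv
      rw [Finset.mem_Ico] at h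
      omega
  rw [h2]
  apply Finset.sum_le_sum_of_subset
  intro t ht
  exact (Finset.mem_filter.1 ht).2

theorem om1_card (l q : ℕ) :
    (Om1 l q).card = (Fintype.piFinset fun _ : Fin l => Finset.Icc (-(2 * q : ℤ)) (2 * q)).card * (2 * q) := by
  unfold Om1
  rw [Finset.card_product]
  congr 1
  rw [Int.card_Ico]
  omega

theorem avg_one (l q : ℕ) (β : ℝ) (v : ℤ → ℝ≥0∞) (hβ : 0 ≤ β) (hv : ∀ t, t < 0 ∨ (q:ℤ) ≤ t → v t = 0)
    (hs : ∑ t ∈ Finset.Ico 0 (q:ℤ), v t ≤ ENNReal.ofReal (q * β)) (j : ℤ) :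
    ∑ x ∈ Om1 l q, v (j + x.2) ≤ ((Om1 l q).card : ℝ≥0∞) * ENNReal.ofReal β := by
  have h1 : ∑ x ∈ Om1 l q, v (j + x.2) =
      ((Fintype.piFinset fun _ : Fin l => Finset.Icc (-(2 * q : ℤ)) (2 * q)).card : ℝ≥0∞) *
        ∑ τ ∈ Finset.Ico (-(q:ℤ)) q, v (j + τ) := by
    unfold Om1
    rw [Finset.sum_product]
    simp only [Finset.sum_const, nsmul_eq_mul]
  rw [h1, om1_card]
  push_cast
  rw [mul_assoc]
  refine mul_le_mul_right (le_trans (avg_shift q v hv j) (le_trans hs ?_)) _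
  rw [ENNReal.ofReal_mul (by positivity), ENNReal.ofReal_natCast]
  refine mul_le_mul_left ?_ _
  have : (q : ℝ≥0∞) ≤ 2 * q := by
    rw [two_mul]
    exact le_self_add
  exact this

theorem avg_S (l m q n : ℕ) (β : ℝ) (v : ℤ → ℝ≥0∞) (hβ : 0 ≤ β) (hv : ∀ t, t < 0 ∨ (q:ℤ) ≤ t → v t = 0)
    (hs : ∑ t ∈ Finset.Ico 0 (q:ℤ), v t ≤ ENNReal.ofReal (q * β)) (j : ℤ) (S : Finset (Fin m))
    (hS : S.card = n) :
    ∑ ω ∈ Om l m q, ∏ b ∈ S, v (j + (ω b).2) ≤ ((Om l m q).card : ℝ≥0∞) * ENNReal.ofReal β ^ n := by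
  classical
  have h1 : ∀ ω : Fin m → (Fin l → ℤ) × ℤ, ∏ b ∈ S, v (j + (ω b).2) =
      ∏ b : Fin m, (fun (b : Fin m) (x : (Fin l → ℤ) × ℤ) => if b ∈ S then v (j + x.2) else 1) b (ω b) := by
    intro ω
    simp only
    rw [Finset.prod_ite_mem, Finset.univ_inter]
  have h2 : ∑ ω ∈ Om l m q, ∏ b ∈ S, v (j + (ω b).2) =
      ∏ b : Fin m, ∑ x ∈ Om1 l q, (if b ∈ S then v (j + x.2) else 1) := by
    rw [Finset.prod_univ_sum]
    unfold Om
    exact Finset.sum_congr rfl fun ω _ => h1 ω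
  rw [h2]
  have h3 : ∀ b : Fin m, ∑ x ∈ Om1 l q, (if b ∈ S then v (j + x.2) else 1) ≤
      ((Om1 l q).card : ℝ≥0∞) * (if b ∈ S then ENNReal.ofReal β else 1) := by
    intro b
    by_cases hb : b ∈ S
    · simp only [hb, if_true]
      exact avg_one l q β v hβ hv hs j
    · simp only [hb, if_false]
      simp
  refine le_trans (Finset.prod_le_prod' fun b _ => h3 b) ?_
  rw [Finset.prod_mul_distrib, Finset.prod_const, Finset.prod_ite_mem, Finset.univ_inter, Finset.prod_const, hS,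
    Finset.card_univ, Fintype.card_fin]
  have h4 : (Om l m q).card = (Om1 l q).card ^ m := by
    unfold Om
    rw [Fintype.card_piFinset]
    simp
  rw [h4]
  push_cast
  exact le_rfl

theorem AVG_main : S_AVG := by
  intro l m q n β v hq hβ hv hs j hj0 hj1
  classical
  rw [Finset.sum_comm]
  have h1 : ∑ S ∈ Finset.powersetCard n (Finset.univ : Finset (Fin m)), ∑ ω ∈ Om l m q, ∏ b ∈ S, v (j + (ω b).2) ≤
      ∑ S ∈ Finset.powersetCard n (Finset.univ : Finset (Fin m)),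
        ((Om l m q).card : ℝ≥0∞) * ENNReal.ofReal β ^ n := by
    refine Finset.sum_le_sum ?_
    intro S hS
    exact avg_S l m q n β v hβ hv hs j S (Finset.mem_powersetCard.1 hS).2
  refine le_trans h1 ?_
  rw [Finset.sum_const, nsmul_eq_mul]
  have h2 : ((Finset.powersetCard n (Finset.univ : Finset (Fin m))).card : ℝ≥0∞) ≤ 2 ^ m := by
    rw [Finset.card_powersetCard, Finset.card_univ, Fintype.card_fin]
    have := Nat.choose_le_two_pow m n
    exact_mod_cast this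
  calc ((Finset.powersetCard n (Finset.univ : Finset (Fin m))).card : ℝ≥0∞) *
        (((Om l m q).card : ℝ≥0∞) * ENNReal.ofReal β ^ n)
      ≤ 2 ^ m * (((Om l m q).card : ℝ≥0∞) * ENNReal.ofReal β ^ n) := mul_le_mul_left h2 _
    _ = ((Om l m q).card : ℝ≥0∞) * 2 ^ m * ENNReal.ofReal β ^ n := by ring

end Pool.Agent.H53.KH
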