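import Pool.Agent.H53.KH.Stm

set_option autoImplicit false
set_option linter.unusedVariables false

/-! # Project KH: assembly -/

namespace Pool.Agent.H53.KH

open Set Metric MeasureTheory Filter Topology Pool.Agent.H53.KD
open scoped ENNReal

theorem data_of (hCOV : S_COV) (hA : S_CLSA) (hB : S_CLSB) (hV : S_CLSV) (hG : S_GRID) (hT : S_TIME) (hP : S_PTSV)
    (l : ℕ) (F : Set (ℝ × (Fin l → ℝ))) (hF : Prep (Fin l) F) (s R : ℝ) (hs : 0 < s) (hs' : s < l + 1)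
    (hdim : dimH F < ENNReal.ofReal s) (hR : ∀ p ∈ F, ‖p‖ ≤ R) (ρ : ℝ) (hρ : 0 < ρ) (hρ1 : ρ < 1) :
    ∃ i : ℕ, ∀ q : ℕ, 0 < q → 1 / ρ ^ (2 ^ (i + 1)) ≤ (q : ℝ) →
      ∃ G a T, Data l R q (1 / (((i : ℝ) + 1) * (i + 2)))
        (18 ^ (l + 1) * (ρ ^ (2 ^ (i + 1))) ^ (((l : ℝ) + 1 - s) / 2)) G a T := by
  obtain ⟨n, c, r, hr, hcov, hsum⟩ := hCOV l F s hF.1 hs hdim ρ hρ
  obtain ⟨D, hD⟩ : ∃ D : ℕ → Set (Fin l → ℝ), D = fun i : ℕ => {v | (∀ b, |v b| ≤ 1) ∧ ∃ a : Fin l → ℝ,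
      (∀ t ∈ Icc (0:ℝ) 1, (t, a + t • v) ∈ F) ∧ ENNReal.ofReal (1 / (((i : ℝ) + 1) * (i + 2))) ≤
      volume {t : ℝ | t ∈ Icc (0:ℝ) 1 ∧ (t, a + t • v) ∈ U c r ρ i}} := ⟨_, rfl⟩
  obtain ⟨i, hi⟩ := hB l D (fun v hv => by
    obtain ⟨a, ha⟩ := hF.2 v hv
    obtain ⟨i, hi⟩ := hA l n c r ρ hρ hρ1 hr a v (fun t ht => hcov (ha t ht))
    refine ⟨i, ?_⟩
    rw [hD]
    exact ⟨hv, a, ha, hi⟩)
  refine ⟨i, fun q hq hqρ => ?_⟩
  obtain ⟨w, hw⟩ : ∃ w : ℝ, w = 1 / (((i : ℝ) + 1) * (i + 2)) := ⟨_, rfl⟩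
  have hw0 : 0 ≤ w := by rw [hw]; positivity
  have hi' : ENNReal.ofReal (w * 2 ^ l) ≤ volume (D i) := by
    convert hi using 2
    rw [hw]; ring
  obtain ⟨G, hG1, hG2, hG3⟩ := hG l q w (D i) hq hw0 (fun v hv => by rw [hD] at hv; exact hv.1) hi'
  have key : ∀ g : Fin l → ℤ, ∃ (a : Fin l → ℝ) (T : Finset ℤ), g ∈ G →
      (∀ b, |a b| ≤ R) ∧ T ⊆ Finset.Ico 0 (q : ℤ) ∧ w * q ≤ (T.card : ℝ) ∧
      ∀ j ∈ T, (((j : ℝ) / q, fun b => a b + (j : ℝ) / q * ((g b : ℝ) / q)) : ℝ × (Fin l → ℝ)) ∈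
        thickening (3 / q : ℝ) (U c r ρ i) := by
    intro g
    by_cases hg : g ∈ G
    · obtain ⟨v, hv, hvg⟩ := hG3 g hg
      rw [hD] at hv
      obtain ⟨hv1, a, ha, hvol⟩ := hv
      rw [← hw] at hvol
      obtain ⟨T, hT1, hT2, hT3⟩ := hT l q w (U c r ρ i) a v g hq (hG1 g hg) hvg hvol
      refine ⟨a, T, fun _ => ⟨fun b => ?_, hT1, hT2, hT3⟩⟩
      have h0 := hR _ (ha 0 ⟨le_rfl, zero_le_one⟩)
      rw [zero_smul, add_zero, Prod.norm_def] at h0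
      exact (norm_le_pi_norm a b).trans ((le_max_right _ _).trans h0)
    · exact ⟨0, ∅, fun h => absurd h hg⟩
  choose a T haT using key
  rw [← hw]
  refine ⟨G, a, T, ⟨hG1, hG2, fun g hg => (haT g hg).1, fun g hg => (haT g hg).2.1,
    fun g hg => (haT g hg).2.2.1, ?_⟩⟩
  have h1 := hP l q (U c r ρ i) G a T hq (fun g hg => (haT g hg).2.2.2)
  have h2 := hV l n c r ρ s hρ hρ1 hr hs hs' hsum i q hq hqρ
  refine h1.trans ?_
  have h3 : (q : ℝ≥0∞) = ENNReal.ofReal (q : ℝ) := (ENNReal.ofReal_natCast q).symm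
  rw [ENNReal.ofReal_mul (Nat.cast_nonneg q), h3]
  gcongr

theorem ncard_filter {α : Type} (O : Finset α) (P : α → Prop) [DecidablePred P] :
    ({x | x ∈ O ∧ P x} : Set α).ncard = (O.filter P).card := by
  rw [← Set.ncard_coe_finset]
  congr 1
  ext x
  simp

theorem high (hONE : S_ONE) (hCHER : S_CHER) (hGRD : S_GRD) (hBLK : S_BLK) (hTHR : S_THR) (hAVG : S_AVG)
    (hGOOD : S_GOOD) (hVOL : S_VOL) (hLINE : S_LINE) (hSET : S_SET)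
    (l m q n M : ℕ) (R w β : ℝ) (G : Finset (Fin l → ℤ)) (a : (Fin l → ℤ) → (Fin l → ℝ))
    (T : (Fin l → ℤ) → Finset ℤ) (hq : 0 < q) (hR : 1 ≤ R) (hw : 0 ≤ w) (hw1 : w ≤ 1) (hβ : 0 ≤ β) (hn : n ≤ m)
    (hD : Data l R q w β G a T)
    (hcond : 4 * ((q : ℝ) + 1) * Real.exp (-(w ^ 2 / (2 * 3 ^ l) * m / 4)) ≤ 1)
    (hn2 : ∀ c : ℕ, w ^ 2 / (2 * 3 ^ l) * m / 4 ≤ (c : ℝ) → n ≤ c) (hM : (2 * q) ^ (l * m) < 2 ^ M) :
    ∃ K : Set (ℝ × (Fin m × Fin l → ℝ)), Prep (Fin m × Fin l) K ∧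
      volume (thickening (1 / q : ℝ) K) ≤
        (M : ℝ≥0∞) * ENNReal.ofReal (32 * 2 ^ m * (2 * R + 12) ^ (l * m) * β ^ n) := by
  classical
  obtain ⟨O, hO⟩ : ∃ O, O = (Om l m q).filter fun ω => ∑ j ∈ Finset.Icc 0 (q : ℤ),
        ENNReal.ofReal (4 / q) * volume (thickening (4 / q : ℝ) (Sl m q n R G a T ω j)) ≤
          ENNReal.ofReal (32 * 2 ^ m * (2 * R + 12) ^ (l * m) * β ^ n) := ⟨_, rfl⟩
  have hO1 := hVOL hBLK hTHR hAVG l m q n R w β G a T hq hR hβ hn hD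
  rw [ncard_filter, ← hO] at hO1
  have hOm1 : (Om1 l q).Nonempty := by
    refine ⟨(0, 0), ?_⟩
    unfold Om1
    simp only [Finset.mem_product, Fintype.mem_piFinset, Finset.mem_Icc, Finset.mem_Ico, Pi.zero_apply]
    refine ⟨fun _ => ?_, ?_⟩ <;> constructor <;> omega
  have hOm : (Om l m q).Nonempty := by
    unfold Om
    exact Fintype.piFinset_nonempty.2 fun _ => hOm1
  have hOmpos : (0:ℝ) < (Om l m q).card := by exact_mod_cast hOm.card_pos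
  have hOne : O.Nonempty := by
    rw [← Finset.card_pos]
    have : (0:ℝ) < O.card := by linarith
    exact_mod_cast this
  have hOsub : O ⊆ Om l m q := by rw [hO]; exact Finset.filter_subset _ _
  obtain ⟨V, hV⟩ : ∃ V : Finset (Fin m → Fin l → ℤ), V = Fintype.piFinset (fun _ : Fin m =>
      Fintype.piFinset fun _ : Fin l => Finset.Ico (-(q : ℤ)) q) := ⟨_, rfl⟩
  have hVmem : ∀ u : Fin m → Fin l → ℤ, u ∈ V ↔ ∀ b i, -(q : ℤ) ≤ u b i ∧ u b i < q := by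
    intro u
    rw [hV]
    simp only [Fintype.mem_piFinset, Finset.mem_Ico]
  have hVcard : V.card < 2 ^ M := by
    refine lt_of_eq_of_lt ?_ hM
    rw [hV]
    simp only [Fintype.card_piFinset, Int.card_Ico, Finset.prod_const, Finset.card_univ, Fintype.card_fin]
    have : ((q : ℤ) - -(q : ℤ)).toNat = 2 * q := by omega
    rw [this, ← pow_mul]
  obtain ⟨W, hW1, hW2, hW3⟩ := hGRD _ _ O V
    (fun ω u => ∀ j : ℤ, 0 ≤ j → j ≤ q → n ≤ ({b | Gd G T (u b) j (ω b)} : Set (Fin m)).ncard) (by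
      intro u hu
      rw [hVmem] at hu
      have h1 := hGOOD hONE hCHER l m q w G T hq hw hw1 hD.box hD.card hD.time hD.shade hcond u hu
      rw [ncard_filter] at h1 ⊢
      obtain ⟨B, hB⟩ : ∃ B, B = (Om l m q).filter fun ω => ∀ j : ℤ, 0 ≤ j → j ≤ q →
        w ^ 2 / (2 * 3 ^ l) * m / 4 ≤ (({b | Gd G T (u b) j (ω b)} : Set (Fin m)).ncard : ℝ) := ⟨_, rfl⟩
      rw [← hB] at h1
      have h2 : O ∩ B ⊆ O.filter fun ω => ∀ j : ℤ, 0 ≤ j → j ≤ q →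
          n ≤ ({b | Gd G T (u b) j (ω b)} : Set (Fin m)).ncard := by
        intro ω hω
        rw [Finset.mem_inter, hB, Finset.mem_filter] at hω
        exact Finset.mem_filter.2 ⟨hω.1, fun j hj1 hj2 => hn2 _ (hω.2.2 j hj1 hj2)⟩
      have h3 := Finset.card_le_card h2
      have h4 := Finset.card_union_add_card_inter O B
      have h5 : (O ∪ B).card ≤ (Om l m q).card := Finset.card_le_card
        (Finset.union_subset hOsub (by rw [hB]; exact Finset.filter_subset _ _))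
      have h6 : O.card ≤ (Om l m q).card := Finset.card_le_card hOsub
      have h3' : ((O ∩ B).card : ℝ) ≤ ((O.filter fun ω => ∀ j : ℤ, 0 ≤ j → j ≤ q →
          n ≤ ({b | Gd G T (u b) j (ω b)} : Set (Fin m)).ncard).card : ℝ) := by exact_mod_cast h3
      have h4' : ((O ∪ B).card : ℝ) + (O ∩ B).card = O.card + B.card := by exact_mod_cast h4
      have h5' : ((O ∪ B).card : ℝ) ≤ (Om l m q).card := by exact_mod_cast h5
      have h6' : (O.card : ℝ) ≤ (Om l m q).card := by exact_mod_cast h6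
      linarith) hOne M hVcard
  obtain ⟨K, hK1, hK2⟩ := hSET l m q n R G a T W hq hR (fun u hu => by
    obtain ⟨ω, hω, hωu⟩ := hW3 u ((hVmem u).2 hu)
    exact ⟨ω, hω, hLINE l m q n R G a T hq hR hD.bound ω u (hOsub (hW1 hω)) hu hωu⟩)
  refine ⟨K, hK1, hK2.trans ?_⟩
  calc ∑ ω ∈ W, ∑ j ∈ Finset.Icc 0 (q : ℤ),
        ENNReal.ofReal (4 / q) * volume (thickening (4 / q : ℝ) (Sl m q n R G a T ω j))
      ≤ ∑ ω ∈ W, ENNReal.ofReal (32 * 2 ^ m * (2 * R + 12) ^ (l * m) * β ^ n) := by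
        refine Finset.sum_le_sum fun ω hω => ?_
        have := hW1 hω
        rw [hO, Finset.mem_filter] at this
        exact this.2
    _ = (W.card : ℝ≥0∞) * ENNReal.ofReal (32 * 2 ^ m * (2 * R + 12) ^ (l * m) * β ^ n) := by
        rw [Finset.sum_const, nsmul_eq_mul]
    _ ≤ _ := by
        gcongr

theorem final (hPREP : S_PREP) (hCOV : S_COV) (hA : S_CLSA) (hB : S_CLSB) (hV : S_CLSV) (hG : S_GRID) (hT : S_TIME)
    (hP : S_PTSV) (hONE : S_ONE) (hCHER : S_CHER) (hGRD : S_GRD) (hBLK : S_BLK) (hTHR : S_THR) (hAVG : S_AVG)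
    (hGOOD : S_GOOD) (hVOL : S_VOL) (hLINE : S_LINE) (hSET : S_SET) (hNUMA : S_NUMA) (hNUM : S_NUM)
    (n : ℕ) (hn : 2 ≤ n) (K : Set (E n)) (hK : IsKakeya K) (hd : dimH K < n) (N₀ : ℕ) :
    ∃ N : ℕ, N₀ ≤ N ∧ ∃ K' : Set (E N), IsKakeya K' ∧
      volume (thickening (Real.exp (-(N : ℝ))) K') <
        ENNReal.ofReal (Real.exp (-((N : ℝ) ^ 2 / Real.log N ^ 9))) := by
  obtain ⟨l, rfl⟩ : ∃ l, n = l + 1 := ⟨n - 1, by omega⟩
  have hl : 1 ≤ l := by omega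
  obtain ⟨F, hF, hFd⟩ := hPREP l K hK
  -- the exponent
  obtain ⟨s, hs0, hs1, hs2⟩ : ∃ s : ℝ, 0 < s ∧ s < (l : ℝ) + 1 ∧ dimH F < ENNReal.ofReal s := by
    have h1 : dimH F < ENNReal.ofReal ((l : ℝ) + 1) := by
      refine hFd.trans_lt (hd.trans_eq ?_)
      rw [← ENNReal.ofReal_natCast]
      congr 1
      push_cast
      ring
    obtain ⟨x, hx1, hx2⟩ := exists_between h1
    have hxt : x ≠ ∞ := (hx2.trans_le le_top).ne
    refine ⟨max x.toReal (1/2), lt_of_lt_of_le (by norm_num) (le_max_right _ _), ?_, ?_⟩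
    · have h2 : x.toReal < (l : ℝ) + 1 := by
        rw [← ENNReal.toReal_ofReal (show (0:ℝ) ≤ (l : ℝ) + 1 by positivity)]
        exact (ENNReal.toReal_lt_toReal hxt ENNReal.ofReal_ne_top).2 hx2
      have h3 : (0:ℝ) ≤ l := Nat.cast_nonneg l
      exact max_lt h2 (by linarith)
    · refine hx1.trans_le ?_
      calc x = ENNReal.ofReal x.toReal := (ENNReal.ofReal_toReal hxt).symm
        _ ≤ _ := ENNReal.ofReal_le_ofReal (le_max_left _ _)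
  obtain ⟨R, hR1, hR⟩ : ∃ R : ℝ, 1 ≤ R ∧ ∀ p ∈ F, ‖p‖ ≤ R := by
    obtain ⟨R, hR⟩ := hF.1.isBounded.subset_closedBall 0
    refine ⟨max R 1, le_max_right _ _, fun x hx => ?_⟩
    have := hR hx
    rw [mem_closedBall, dist_zero_right] at this
    exact this.trans (le_max_left _ _)
  obtain ⟨ρ, hρ, hρ1, hnum⟩ := hNUM hNUMA l ((l : ℝ) + 1 - s) R hl (by linarith) hR1 N₀
  obtain ⟨i, hi⟩ := data_of hCOV hA hB hV hG hT hP l F hF s R hs0 hs1 hs2 hR ρ hρ hρ1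
  obtain ⟨q, m, n, M, hq, hq1, hN, hnm, hcond, hn2, hM, hexp, hfin⟩ := hnum i
  obtain ⟨G, a, T, hD⟩ := hi q hq hq1
  have hw0 : (0:ℝ) ≤ 1 / (((i : ℝ) + 1) * (i + 2)) := by positivity
  have hw1 : 1 / (((i : ℝ) + 1) * (i + 2)) ≤ (1:ℝ) := by
    rw [div_le_one (by positivity)]
    have : (0:ℝ) ≤ i := Nat.cast_nonneg i
    nlinarith
  have hβ : (0:ℝ) ≤ 18 ^ (l + 1) * (ρ ^ (2 ^ (i + 1))) ^ (((l : ℝ) + 1 - s) / 2) := by positivity
  obtain ⟨K₁, hK₁, hvol⟩ := high hONE hCHER hGRD hBLK hTHR hAVG hGOOD hVOL hLINE hSET l m q n M R _ _ G a T hq hR1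
    hw0 hw1 hβ hnm hD hcond hn2 hM
  have hcls : Cls (Fin m × Fin l) (fun _ => (1 / q : ℝ)) (fun _ => (M : ℝ≥0∞) * ENNReal.ofReal (32 * 2 ^ m *
      (2 * R + 12) ^ (l * m) * (18 ^ (l + 1) * (ρ ^ (2 ^ (i + 1))) ^ (((l : ℝ) + 1 - s) / 2)) ^ n)) :=
    ⟨K₁, hK₁, fun _ => hvol⟩
  obtain ⟨K', hK', hvol'⟩ := kakeya_of_cls (cls_congr finProdFinEquiv hcls)
  refine ⟨m * l + 1, hN, K', hK', ?_⟩
  have h1 := hvol' 0
  have h2 : thickening (Real.exp (-((m * l + 1 : ℕ) : ℝ))) K' ⊆ thickening (1 / q : ℝ) K' := thickening_mono hexp _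
  refine (measure_mono h2).trans_lt (h1.trans_lt ?_)
  have h3 : ((m * l + 1 : ℕ) : ℝ≥0∞) * ((M : ℝ≥0∞) * ENNReal.ofReal (32 * 2 ^ m *
      (2 * R + 12) ^ (l * m) * (18 ^ (l + 1) * (ρ ^ (2 ^ (i + 1))) ^ (((l : ℝ) + 1 - s) / 2)) ^ n)) =
      ENNReal.ofReal (((m * l + 1 : ℕ) : ℝ) * (M * (32 * 2 ^ m * (2 * R + 12) ^ (l * m) *
      (18 ^ (l + 1) * (ρ ^ (2 ^ (i + 1))) ^ (((l : ℝ) + 1 - s) / 2)) ^ n))) := by
    rw [ENNReal.ofReal_mul (Nat.cast_nonneg _), ENNReal.ofReal_mul (Nat.cast_nonneg _), ENNReal.ofReal_natCast,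
      ENNReal.ofReal_natCast]
  rw [h3]
  exact (ENNReal.ofReal_lt_ofReal_iff (Real.exp_pos _)).2 hfin

end Pool.Agent.H53.KH
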