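import Pool.Agent.H53.KH.Stm

set_option autoImplicit false

/-! # Project KH: numbers for an arbitrary sequence of scales `exp (-x N)` -/

namespace Pool.Agent.H53.KH

open Filter

/-- NUMG (130 lines, real analysis only, like `S_NUM`), uses NUMA.
Write `y = 2^(i+1) X`, `ρ = e^(-X)` (so `1/ρ^(2^(i+1)) = e^y`), `p = (1/((i+1)(i+2)))^2/(2·3^l)`. By NUMA (large
constant): `y`, `p y` and `p (log y)^5` are as large as we like, uniformly in `i` (`(p L^5)^2 = p^2 L^9 L`).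
`q = ⌈e^y⌉ ≤ e^(y+1)`. Let `N₁` be the least number with `x N₁ ≥ y + 1` (`N₁ ≥ N₀` and `N₁` is large if `X` is
large, as `x` is monotone), and `m` minimal with `N := m l + 1 ≥ N₁`, so `N₁ ≤ N ≤ N₁ + l` and
`y + 1 ≤ x N ≤ C^(l+1) (y + 1) ≤ 2 C^(l+1) y` (`x (N₁ - 1) < y + 1`). So `e^(-x N) ≤ 1/q`. Also
`N ≥ x N (log (x N))^5 ≥ y (log y)^5`, so `p m ≥ 16 (y + 2)` and `4 (q+1) e^(-pm/4) ≤ 1`. `n = ⌈p m/4⌉ ≤ m`,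
`M = 2 q l m + 1`. The logarithm of the left side of the last inequality is at most
`C₁ m + 3 y - (p m/4) (γ y/2 - (l+1) log 18) ≤ -(γ/32) p m y` (`C₁` depends on `l`, `R` only; `p y`, `p m` large). And
`N x(N)/(log x(N))^5 ≤ 2 l m · 2 C^(l+1) y/(log y)^5 < (γ/32) p m y` since `p (log y)^5 > 128 l C^(l+1)/γ`. -/
def S_NUMG : Prop := S_NUMA → ∀ (l : ℕ) (γ R C : ℝ) (x : ℕ → ℝ), 1 ≤ l → 0 < γ → 1 ≤ R → 1 ≤ C →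
  Monotone x → Tendsto x atTop atTop → (∀ N, x (N + 1) ≤ C * x N) →
  (∀ᶠ N : ℕ in atTop, x N * Real.log (x N) ^ 5 ≤ N) → ∀ N₀ : ℕ, ∃ ρ : ℝ, 0 < ρ ∧ ρ < 1 ∧
  ∀ i : ℕ, ∃ q m n M : ℕ, 0 < q ∧ 1 / ρ ^ (2 ^ (i + 1)) ≤ (q : ℝ) ∧ N₀ ≤ m * l + 1 ∧ n ≤ m ∧
    4 * ((q : ℝ) + 1) * Real.exp (-((1 / (((i : ℝ) + 1) * (i + 2))) ^ 2 / (2 * 3 ^ l) * m / 4)) ≤ 1 ∧
    (∀ c : ℕ, (1 / (((i : ℝ) + 1) * (i + 2))) ^ 2 / (2 * 3 ^ l) * m / 4 ≤ (c : ℝ) → n ≤ c) ∧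
    (2 * q) ^ (l * m) < 2 ^ M ∧
    Real.exp (-x (m * l + 1)) ≤ 1 / q ∧
    ((m * l + 1 : ℕ) : ℝ) * (M * (32 * 2 ^ m * (2 * R + 12) ^ (l * m) *
      (18 ^ (l + 1) * (ρ ^ (2 ^ (i + 1))) ^ (γ / 2)) ^ n)) <
      Real.exp (-(((m * l + 1 : ℕ) : ℝ) * x (m * l + 1) / Real.log (x (m * l + 1)) ^ 5))

end Pool.Agent.H53.KH
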