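import Pool.Agent.H53.KH.Asm
import Pool.Agent.H53.KH.Stm2

set_option autoImplicit false
set_option linter.unusedVariables false

/-! # Project KH: assembly for an arbitrary sequence of scales -/

namespace Pool.Agent.H53.KH

open Set Metric MeasureTheory Filter Topology Pool.Agent.H53.KD
open scoped ENNReal

theorem final2 (hPREP : S_PREP) (hCOV : S_COV) (hA : S_CLSA) (hB : S_CLSB) (hV : S_CLSV) (hG : S_GRID) (hT : S_TIME)
    (hP : S_PTSV) (hONE : S_ONE) (hCHER : S_CHER) (hGRD : S_GRD) (hBLK : S_BLK) (hTHR : S_THR) (hAVG : S_AVG)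
    (hGOOD : S_GOOD) (hVOL : S_VOL) (hLINE : S_LINE) (hSET : S_SET) (hNUMA : S_NUMA) (hNUM : S_NUMG)
    (x : ℕ → ℝ) (C : ℝ) (hC : 1 ≤ C) (hx1 : Monotone x) (hx2 : Tendsto x atTop atTop) (hx3 : ∀ N, x (N + 1) ≤ C * x N)
    (hx4 : ∀ᶠ N : ℕ in atTop, x N * Real.log (x N) ^ 5 ≤ N)
    (n : ℕ) (hn : 2 ≤ n) (K : Set (E n)) (hK : IsKakeya K) (hd : dimH K < n) (N₀ : ℕ) :
    ∃ N : ℕ, N₀ ≤ N ∧ ∃ K' : Set (E N), IsKakeya K' ∧
      volume (thickening (Real.exp (-x N)) K') <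
        ENNReal.ofReal (Real.exp (-((N : ℝ) * x N / Real.log (x N) ^ 5))) := by
  obtain ⟨l, rfl⟩ : ∃ l, n = l + 1 := ⟨n - 1, by omega⟩
  have hl : 1 ≤ l := by omega
  obtain ⟨F, hF, hFd⟩ := hPREP l K hK
  -- the exponent
  obtain ⟨s, hs0, hs1, hs2⟩ : ∃ s : ℝ, 0 < s ∧ s < (l : ℝ) + 1 ∧ dimH F < ENNReal.ofReal s := by
    have h1 : dimH F < ENNReal.ofReal ((l : ℝ) + 1) := by
      refine hFd.trans_lt (hd.trans_eq ?_)
      rw [← ENNReal.ofReal_natCast]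
      congr 1
      push_cast
      ring
    obtain ⟨z, hz1, hz2⟩ := exists_between h1
    have hzt : z ≠ ∞ := (hz2.trans_le le_top).ne
    refine ⟨max z.toReal (1/2), lt_of_lt_of_le (by norm_num) (le_max_right _ _), ?_, ?_⟩
    · have h2 : z.toReal < (l : ℝ) + 1 := by
        rw [← ENNReal.toReal_ofReal (show (0:ℝ) ≤ (l : ℝ) + 1 by positivity)]
        exact (ENNReal.toReal_lt_toReal hzt ENNReal.ofReal_ne_top).2 hz2
      have h3 : (0:ℝ) ≤ l := Nat.cast_nonneg l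
      exact max_lt h2 (by linarith)
    · refine hz1.trans_le ?_
      calc z = ENNReal.ofReal z.toReal := (ENNReal.ofReal_toReal hzt).symm
        _ ≤ _ := ENNReal.ofReal_le_ofReal (le_max_left _ _)
  obtain ⟨R, hR1, hR⟩ : ∃ R : ℝ, 1 ≤ R ∧ ∀ p ∈ F, ‖p‖ ≤ R := by
    obtain ⟨R, hR⟩ := hF.1.isBounded.subset_closedBall 0
    refine ⟨max R 1, le_max_right _ _, fun z hz => ?_⟩
    have := hR hz
    rw [mem_closedBall, dist_zero_right] at this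
    exact this.trans (le_max_left _ _)
  obtain ⟨ρ, hρ, hρ1, hnum⟩ := hNUM hNUMA l ((l : ℝ) + 1 - s) R C x hl (by linarith) hR1 hC hx1 hx2 hx3 hx4 N₀
  obtain ⟨i, hi⟩ := data_of hCOV hA hB hV hG hT hP l F hF s R hs0 hs1 hs2 hR ρ hρ hρ1
  obtain ⟨q, m, n, M, hq, hq1, hN, hnm, hcond, hn2, hM, hexp, hfin⟩ := hnum i
  obtain ⟨G, a, T, hD⟩ := hi q hq hq1
  have hw0 : (0:ℝ) ≤ 1 / (((i : ℝ) + 1) * (i + 2)) := by positivity
  have hw1 : 1 / (((i : ℝ) + 1) * (i + 2)) ≤ (1:ℝ) := by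
    rw [div_le_one (by positivity)]
    have : (0:ℝ) ≤ i := Nat.cast_nonneg i
    nlinarith
  have hβ : (0:ℝ) ≤ 18 ^ (l + 1) * (ρ ^ (2 ^ (i + 1))) ^ (((l : ℝ) + 1 - s) / 2) := by positivity
  obtain ⟨K₁, hK₁, hvol⟩ := high hONE hCHER hGRD hBLK hTHR hAVG hGOOD hVOL hLINE hSET l m q n M R _ _ G a T hq hR1
    hw0 hw1 hβ hnm hD hcond hn2 hM
  have hcls : Cls (Fin m × Fin l) (fun _ => (1 / q : ℝ)) (fun _ => (M : ℝ≥0∞) * ENNReal.ofReal (32 * 2 ^ m *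
      (2 * R + 12) ^ (l * m) * (18 ^ (l + 1) * (ρ ^ (2 ^ (i + 1))) ^ (((l : ℝ) + 1 - s) / 2)) ^ n)) :=
    ⟨K₁, hK₁, fun _ => hvol⟩
  obtain ⟨K', hK', hvol'⟩ := kakeya_of_cls (cls_congr finProdFinEquiv hcls)
  refine ⟨m * l + 1, hN, K', hK', ?_⟩
  have h1 := hvol' 0
  have h2 : thickening (Real.exp (-x (m * l + 1))) K' ⊆ thickening (1 / q : ℝ) K' := thickening_mono hexp _
  refine (measure_mono h2).trans_lt (h1.trans_lt ?_)
  have h3 : ((m * l + 1 : ℕ) : ℝ≥0∞) * ((M : ℝ≥0∞) * ENNReal.ofReal (32 * 2 ^ m *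
      (2 * R + 12) ^ (l * m) * (18 ^ (l + 1) * (ρ ^ (2 ^ (i + 1))) ^ (((l : ℝ) + 1 - s) / 2)) ^ n)) =
      ENNReal.ofReal (((m * l + 1 : ℕ) : ℝ) * (M * (32 * 2 ^ m * (2 * R + 12) ^ (l * m) *
      (18 ^ (l + 1) * (ρ ^ (2 ^ (i + 1))) ^ (((l : ℝ) + 1 - s) / 2)) ^ n))) := by
    rw [ENNReal.ofReal_mul (Nat.cast_nonneg _), ENNReal.ofReal_mul (Nat.cast_nonneg _), ENNReal.ofReal_natCast,
      ENNReal.ofReal_natCast]
  rw [h3]
  exact (ENNReal.ofReal_lt_ofReal_iff (Real.exp_pos _)).2 hfin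

end Pool.Agent.H53.KH
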