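import Pool.Agent.H53.KH.Stm

set_option autoImplicit false

/-! # Project KH: one dimension for each scale -/

namespace Pool.Agent.H53.KH

open Set Metric MeasureTheory Filter Topology Pool.Agent.H53.KD
open scoped ENNReal

/-- PADS (70 lines). `K' = {p | (p.1, block) ∈ K ∧ |p_i| ≤ 1 for the r new coordinates}` (index type
`(Fin m × Fin l) ⊕ Fin r ≃ Fin (m * l + r)`, see `cls_congr`, `volume_fib`, `isCompact_fib` in
`Pool/Agent/H53/KD/Fib.lean`; the lines have the position `0` in the new coordinates). The `1/q`-neighbourhood is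
contained in `{p | (p.1, block) ∈ thickening (1/q) K ∧ |p_i| < 2}`, of volume `4 ^ r * volume (thickening (1/q) K)`. -/
def S_PADS : Prop := ∀ (m l r q : ℕ) (K : Set (ℝ × (Fin m × Fin l → ℝ))), 0 < q → Prep (Fin m × Fin l) K →
  ∃ K' : Set (ℝ × (Fin (m * l + r) → ℝ)), Prep (Fin (m * l + r)) K' ∧
    volume (thickening (1 / q : ℝ) K') ≤ 4 ^ r * volume (thickening (1 / q : ℝ) K)

/-- NUMD (110 lines, real analysis only, like `S_NUM`, `S_NUMG`), uses NUMA.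
Write `y = 2^(i+1) X`, `ρ = e^(-X)` (so `1/ρ^(2^(i+1)) = e^y`), `p = (1/((i+1)(i+2)))^2/(2·3^l)`. By NUMA (large
constant): `y`, `p y` and `p (log y)^5` are as large as we like, uniformly in `i` (`(p L^5)^2 = p^2 L^9 L`).
`q = ⌈e^y⌉`, `y ≤ log q ≤ y + 1 ≤ 2 y`. For `N ≥ log q (log log q)^5 ≥ y (log y)^5` take `m = (N-1)/l`,
`r = (N-1) % l`, so `N ≤ 2 l m`, `p m ≥ 16 (y + 2)`, `4 (q+1) e^(-pm/4) ≤ 1`; `n = ⌈p m/4⌉ ≤ m`, `M = 2 q l m + 1`. The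
logarithm of the left side of the last inequality is at most
`C₁ m + 3 y - (p m/4) (γ y/2 - (l+1) log 18) ≤ -(γ/32) p m y` (`C₁` depends on `l`, `R` only; `p y`, `p m` large). And
`N log q/(log log q)^5 ≤ 2 l m · 2 y/(log y)^5 < (γ/32) p m y` since `p (log y)^5 > 128 l/γ`. -/
def S_NUMD : Prop := S_NUMA → ∀ (l : ℕ) (γ R η : ℝ), 1 ≤ l → 0 < γ → 1 ≤ R → 0 < η → ∃ ρ : ℝ, 0 < ρ ∧ ρ < 1 ∧
  ∀ i : ℕ, ∃ q : ℕ, 0 < q ∧ 1 / ρ ^ (2 ^ (i + 1)) ≤ (q : ℝ) ∧ (1 : ℝ) / q < η ∧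
    ∀ N : ℕ, Real.log q * Real.log (Real.log q) ^ 5 ≤ N → ∃ m r n M : ℕ, N = m * l + r + 1 ∧ n ≤ m ∧
    4 * ((q : ℝ) + 1) * Real.exp (-((1 / (((i : ℝ) + 1) * (i + 2))) ^ 2 / (2 * 3 ^ l) * m / 4)) ≤ 1 ∧
    (∀ c : ℕ, (1 / (((i : ℝ) + 1) * (i + 2))) ^ 2 / (2 * 3 ^ l) * m / 4 ≤ (c : ℝ) → n ≤ c) ∧
    (2 * q) ^ (l * m) < 2 ^ M ∧
    (N : ℝ) * (4 ^ r * (M * (32 * 2 ^ m * (2 * R + 12) ^ (l * m) *
      (18 ^ (l + 1) * (ρ ^ (2 ^ (i + 1))) ^ (γ / 2)) ^ n))) <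
      Real.exp (-((N : ℝ) * Real.log q / Real.log (Real.log q) ^ 5))

end Pool.Agent.H53.KH
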