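import Pool.Agent.H53.KH.Stm

set_option autoImplicit false

/-! # Stub KH-BLK (helper44): the volume on `Fin m × Fin l → ℝ` is the product over the blocks -/

namespace Pool.Agent.H53.KH

open Set Metric MeasureTheory Filter Topology Pool.Agent.H53.KD
open scoped ENNReal

theorem BLK_main : S_BLK := by
  intro m l B hB
  set e := MeasurableEquiv.curry (Fin m) (Fin l) ℝ with he
  have h1 : Measure.map e.symm (volume : Measure (Fin m → Fin l → ℝ)) =
      (volume : Measure (Fin m × Fin l → ℝ)) := by
    refine (Measure.pi_eq (μ := fun _ : Fin m × Fin l => (volume : Measure ℝ)) fun s hs => ?_).symm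
    rw [e.symm.map_apply]
    have h2 : e.symm ⁻¹' (univ.pi s) = univ.pi fun b => univ.pi fun i => s (b, i) := by
      ext f
      constructor
      · intro h b _ i _
        exact h (b, i) (mem_univ _)
      · intro h p _
        exact h p.1 (mem_univ _) p.2 (mem_univ _)
    rw [h2, volume_pi_pi]
    simp_rw [volume_pi_pi]
    rw [Fintype.prod_prod_type]
  rw [← h1, e.symm.map_apply]
  have h3 : e.symm ⁻¹' {x : Fin m × Fin l → ℝ | ∀ b, (fun i => x (b, i)) ∈ B b} = univ.pi B := by
    ext f
    constructor
    · intro h b _
      exact h b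
    · intro h b
      exact h b (mem_univ _)
  rw [h3, volume_pi_pi]

end Pool.Agent.H53.KH
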