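import Pool.Agent.H53.KH.Stm

set_option autoImplicit false

namespace Pool.Agent.H53.KH

open Finset

theorem CHER_main : S_CHER := by
  classical
  intro α A m e p hp0 hp1 hA
  -- the bad set as a finset
  have hset : ({ω | ω ∈ Fintype.piFinset (fun _ : Fin m => A) ∧
      (({b | e b (ω b)} : Set (Fin m)).ncard : ℝ) < p * m / 4} : Set (Fin m → α)) =
      (((Fintype.piFinset (fun _ : Fin m => A)).filter
        (fun ω => (({b | e b (ω b)} : Set (Fin m)).ncard : ℝ) < p * m / 4) : Finset (Fin m → α)) :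
        Set (Fin m → α)) := by
    ext ω; simp
  rw [hset, Set.ncard_coe_finset]
  set P : Finset (Fin m → α) := Fintype.piFinset (fun _ : Fin m => A) with hP
  set Bd : Finset (Fin m → α) :=
    P.filter (fun ω => (({b | e b (ω b)} : Set (Fin m)).ncard : ℝ) < p * m / 4) with hBd
  let f : Fin m → α → ℝ := fun b x => if e b x then 1 / 2 else 1
  have hf0 : ∀ b x, 0 ≤ f b x := by
    intro b x; simp only [f]; split_ifs <;> norm_num
  -- one factor
  have hone : ∀ b, ∑ x ∈ A, f b x ≤ (A.card : ℝ) * Real.exp (-(p / 2)) := by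
    intro b
    have h1 := hA b
    have h2 : ({x | x ∈ A ∧ e b x} : Set α) = ((A.filter (fun x => e b x) : Finset α) : Set α) := by
      ext x; simp
    rw [h2, Set.ncard_coe_finset] at h1
    have h3 : ∑ x ∈ A, f b x = (A.card : ℝ) - 1 / 2 * ((A.filter (fun x => e b x)).card : ℝ) := by
      have : ∀ x ∈ A, f b x = 1 - 1 / 2 * (if e b x then (1:ℝ) else 0) := by
        intro x _; simp only [f]; split_ifs <;> norm_num
      rw [Finset.sum_congr rfl this, Finset.sum_sub_distrib, ← Finset.mul_sum,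
        Finset.sum_boole]
      simp
    rw [h3]
    have h4 : 1 - p / 2 ≤ Real.exp (-(p / 2)) := by
      have := Real.add_one_le_exp (-(p / 2)); linarith
    have h5 : (0:ℝ) ≤ A.card := Nat.cast_nonneg _
    nlinarith [mul_le_mul_of_nonneg_left h4 h5]
  have hsum : ∑ ω ∈ P, ∏ b, f b (ω b) ≤ (A.card : ℝ) ^ m * Real.exp (-(p * m / 2)) := by
    have h1 : ∑ ω ∈ P, ∏ b, f b (ω b) = ∏ b, ∑ x ∈ A, f b x := by
      rw [hP, Finset.prod_univ_sum]
    rw [h1]
    calc ∏ b, ∑ x ∈ A, f b x ≤ ∏ _b : Fin m, ((A.card : ℝ) * Real.exp (-(p / 2))) :=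
          Finset.prod_le_prod (fun b _ => Finset.sum_nonneg (fun x _ => hf0 b x))
            (fun b _ => hone b)
      _ = (A.card : ℝ) ^ m * Real.exp (-(p * m / 2)) := by
          rw [Finset.prod_const, Finset.card_univ, Fintype.card_fin, mul_pow, ← Real.exp_nat_mul]
          congr 2; ring
  have hlow : ∀ ω ∈ Bd, Real.exp (-(p * m / 4)) ≤ ∏ b, f b (ω b) := by
    intro ω hω
    have h1 := (Finset.mem_filter.mp hω).2
    have h2 : ({b | e b (ω b)} : Set (Fin m)) =
        ((Finset.univ.filter (fun b => e b (ω b)) : Finset (Fin m)) : Set (Fin m)) := by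
      ext b; simp
    rw [h2, Set.ncard_coe_finset] at h1
    have h3 : ∏ b, f b (ω b) = (1 / 2 : ℝ) ^ (Finset.univ.filter (fun b => e b (ω b))).card := by
      simp only [f]
      rw [Finset.prod_ite]
      simp
    rw [h3]
    have h4 : Real.exp (-1) ≤ (1 / 2 : ℝ) := by
      rw [Real.exp_neg, one_div]
      apply inv_anti₀ (by norm_num)
      have := Real.add_one_le_exp (1:ℝ); linarith
    have h5 : Real.exp (-((Finset.univ.filter (fun b => e b (ω b))).card : ℝ)) ≤
        (1 / 2 : ℝ) ^ (Finset.univ.filter (fun b => e b (ω b))).card := by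
      have : Real.exp (-((Finset.univ.filter (fun b => e b (ω b))).card : ℝ)) =
          (Real.exp (-1)) ^ (Finset.univ.filter (fun b => e b (ω b))).card := by
        rw [← Real.exp_nat_mul]; congr 1; ring
      rw [this]
      exact pow_le_pow_left₀ (Real.exp_pos _).le h4 _
    refine le_trans (Real.exp_le_exp.mpr ?_) h5
    linarith
  have hcnt : (Bd.card : ℝ) * Real.exp (-(p * m / 4)) ≤ (A.card : ℝ) ^ m * Real.exp (-(p * m / 2)) := by
    refine le_trans ?_ hsum
    calc (Bd.card : ℝ) * Real.exp (-(p * m / 4)) = ∑ _ω ∈ Bd, Real.exp (-(p * m / 4)) := by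
          rw [Finset.sum_const, nsmul_eq_mul]
      _ ≤ ∑ ω ∈ Bd, ∏ b, f b (ω b) := Finset.sum_le_sum hlow
      _ ≤ ∑ ω ∈ P, ∏ b, f b (ω b) :=
          Finset.sum_le_sum_of_subset_of_nonneg (Finset.filter_subset _ _)
            (fun ω _ _ => Finset.prod_nonneg (fun b _ => hf0 b _))
  have h6 : Real.exp (-(p * m / 2)) = Real.exp (-(p * m / 4)) * Real.exp (-(p * m / 4)) := by
    rw [← Real.exp_add]; congr 1; ring
  rw [h6, ← mul_assoc] at hcnt
  have h7 := le_of_mul_le_mul_right hcnt (Real.exp_pos _)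
  linarith

end Pool.Agent.H53.KH
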