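import Pool.Agent.H53.KH.Stm

/-! KH-CLSA (helper5): class of scales on one line. -/

set_option autoImplicit false

namespace Pool.Agent.H53.KH

open Set Metric MeasureTheory Filter Topology
open scoped ENNReal

namespace CLSAx

lemma tele (n : ℕ) : ∑ i ∈ Finset.range n, (1 / (((i : ℝ) + 1) * (i + 2))) = 1 - 1 / ((n : ℝ) + 1) := by
  induction n with
  | zero => simp
  | succ n ih =>
    rw [Finset.sum_range_succ, ih]
    push_cast
    have h1 : (n : ℝ) + 1 ≠ 0 := by positivity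
    have h2 : (n : ℝ) + 2 ≠ 0 := by positivity
    have h3 : (n : ℝ) + 1 + 1 ≠ 0 := by positivity
    field_simp
    ring

lemma tsum_le : ∑' i : ℕ, ENNReal.ofReal (1 / (((i : ℝ) + 1) * (i + 2))) ≤ 1 := by
  refine ENNReal.tsum_le_of_sum_range_le fun n => ?_
  rw [← ENNReal.ofReal_sum_of_nonneg (fun i _ => by positivity), tele n, ← ENNReal.ofReal_one]
  apply ENNReal.ofReal_le_ofReal
  have : (0 : ℝ) ≤ 1 / ((n : ℝ) + 1) := by positivity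
  linarith

lemma scale {ρ x : ℝ} (h0 : 0 < ρ) (h1 : ρ < 1) (hx : 0 < x) (hx1 : x ≤ ρ) :
    ∃ i : ℕ, ρ ^ (2 ^ (i + 1)) < x ∧ x ≤ ρ ^ (2 ^ i) := by
  classical
  have hex : ∃ k : ℕ, ρ ^ (2 ^ k) < x := by
    obtain ⟨n, hn⟩ := exists_pow_lt_of_lt_one hx h1
    exact ⟨n, lt_of_le_of_lt (pow_le_pow_of_le_one h0.le h1.le Nat.lt_two_pow_self.le) hn⟩
  have hs := Nat.find_spec hex
  have hm := fun k (hk : k < Nat.find hex) => Nat.find_min hex hk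
  set k := Nat.find hex with hk
  rcases k with _ | i
  · simp only [pow_zero, pow_one] at hs
    exact absurd hs (not_lt.2 hx1)
  · exact ⟨i, hs, not_lt.1 (hm i (Nat.lt_succ_self i))⟩

end CLSAx

theorem CLSA_main : S_CLSA := by
  intro l n c r ρ h0 h1 hr a v hcov
  by_contra hcon
  push Not at hcon
  have hsub : Icc (0 : ℝ) 1 ⊆ ⋃ i : ℕ, {t : ℝ | t ∈ Icc (0:ℝ) 1 ∧ (t, a + t • v) ∈ U c r ρ i} := by
    intro t ht
    obtain ⟨j, hj⟩ := mem_iUnion.1 (hcov t ht)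
    obtain ⟨i, hi1, hi2⟩ := CLSAx.scale h0 h1 (hr j).1 (hr j).2
    exact mem_iUnion.2 ⟨i, ht, j, hi1, hi2, hj⟩
  have hvol : (1 : ℝ≥0∞) ≤
      ∑' i : ℕ, volume {t : ℝ | t ∈ Icc (0:ℝ) 1 ∧ (t, a + t • v) ∈ U c r ρ i} := by
    calc (1 : ℝ≥0∞) = volume (Icc (0 : ℝ) 1) := by rw [Real.volume_Icc]; simp
      _ ≤ _ := measure_mono hsub
      _ ≤ _ := measure_iUnion_le _
  have hle : ∑' i : ℕ, volume {t : ℝ | t ∈ Icc (0:ℝ) 1 ∧ (t, a + t • v) ∈ U c r ρ i} ≤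
      ∑' i : ℕ, ENNReal.ofReal (1 / (((i : ℝ) + 1) * (i + 2))) :=
    ENNReal.tsum_le_tsum fun i => (hcon i).le
  have hne : ∑' i : ℕ, volume {t : ℝ | t ∈ Icc (0:ℝ) 1 ∧ (t, a + t • v) ∈ U c r ρ i} ≠ ∞ :=
    ((hle.trans CLSAx.tsum_le).trans_lt ENNReal.one_lt_top).ne
  have hlt := ENNReal.tsum_lt_tsum hne (fun i => (hcon i).le) (hcon 0)
  exact absurd (hvol.trans_lt (hlt.trans_le CLSAx.tsum_le)) (lt_irrefl _)

end Pool.Agent.H53.KH
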