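import Pool.Agent.H53.KH.Stm

/-! # KH-CLSB (helper51): outer measure pigeonhole -/

set_option autoImplicit false

namespace Pool.Agent.H53.KH

open Set Metric MeasureTheory Filter Topology
open scoped ENNReal

namespace CLSBx

lemma tele (n : ℕ) : ∑ i ∈ Finset.range n, (1 / (((i : ℝ) + 1) * (i + 2))) = 1 - 1 / ((n : ℝ) + 1) := by
  induction n with
  | zero => simp
  | succ n ih =>
    rw [Finset.sum_range_succ, ih]
    push_cast
    have h1 : (n : ℝ) + 1 ≠ 0 := by positivity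
    have h2 : (n : ℝ) + 2 ≠ 0 := by positivity
    have h3 : (n : ℝ) + 1 + 1 ≠ 0 := by positivity
    field_simp
    ring

lemma tsum_le (l : ℕ) : ∑' i : ℕ, ENNReal.ofReal (2 ^ l / (((i : ℝ) + 1) * (i + 2))) ≤ ENNReal.ofReal (2 ^ l) := by
  refine ENNReal.tsum_le_of_sum_range_le fun n => ?_
  rw [← ENNReal.ofReal_sum_of_nonneg (fun i _ => by positivity)]
  apply ENNReal.ofReal_le_ofReal
  have h1 : ∑ i ∈ Finset.range n, ((2 : ℝ) ^ l / (((i : ℝ) + 1) * (i + 2))) =
      2 ^ l * ∑ i ∈ Finset.range n, (1 / (((i : ℝ) + 1) * (i + 2))) := by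
    rw [Finset.mul_sum]
    exact Finset.sum_congr rfl fun i _ => by ring
  rw [h1, tele]
  have h2 : (0 : ℝ) ≤ 1 / ((n : ℝ) + 1) := by positivity
  have h3 : (0 : ℝ) < 2 ^ l := by positivity
  nlinarith

end CLSBx

open CLSBx in
theorem CLSB_main : S_CLSB := by
  intro l D hD
  by_contra hcon
  push Not at hcon
  have h1 : ENNReal.ofReal (2 ^ l) ≤ ∑' i, volume (D i) := by
    have h2 : volume (Icc (fun _ : Fin l => (-1 : ℝ)) (fun _ => 1)) = ENNReal.ofReal (2 ^ l) := by
      rw [Real.volume_Icc_pi]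
      simp only [Finset.prod_const, Finset.card_univ, Fintype.card_fin]
      rw [← ENNReal.ofReal_pow (by norm_num)]
      norm_num
    rw [← h2]
    refine (measure_mono ?_).trans (measure_iUnion_le D)
    intro v hv
    rw [mem_iUnion]
    refine hD v fun i => ?_
    rw [abs_le]
    exact ⟨hv.1 i, hv.2 i⟩
  have h3 : ∑' i, volume (D i) < ∑' i : ℕ, ENNReal.ofReal (2 ^ l / (((i : ℝ) + 1) * (i + 2))) := by
    refine ENNReal.tsum_lt_tsum (i := 0) ?_ (fun i => (hcon i).le) (hcon 0)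
    refine ne_top_of_le_ne_top ENNReal.ofReal_ne_top ((ENNReal.tsum_le_tsum fun i => (hcon i).le).trans (tsum_le l))
  exact absurd (h1.trans_lt (h3.trans_le (tsum_le l))) (lt_irrefl _)

end Pool.Agent.H53.KH
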