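import Pool.Agent.H53.KH.Stm

set_option autoImplicit false

/-! KH-CLSV (helper10) -/

namespace Pool.Agent.H53.KH

open Set Metric MeasureTheory Filter Topology Pool.Agent.H53.KD
open scoped ENNReal

namespace CLSVaux

theorem vol_ball {l : ℕ} (c : ℝ × (Fin l → ℝ)) (r : ℝ) (hr : 0 < r) :
    volume (ball c r) = ENNReal.ofReal ((2 * r) ^ (l + 1)) := by
  obtain ⟨a, b⟩ := c
  rw [← ball_prod_same, Measure.volume_eq_prod, Measure.prod_prod, Real.volume_ball,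
    Real.volume_pi_ball b hr, ← ENNReal.ofReal_mul (by positivity), Fintype.card_fin, pow_succ,
    mul_comm]

end CLSVaux

open CLSVaux

theorem CLSV_main : S_CLSV := by
  classical
  intro l n c r ρ s hρ hρ1 hr hs hsl hsum i q hq hq'
  set δ : ℝ := ρ ^ (2 ^ (i + 1)) with hδ
  have hδ0 : 0 < δ := pow_pos hρ _
  have hq0 : (0 : ℝ) < q := by exact_mod_cast hq
  have h8 : (8 : ℝ) / q ≤ 8 * δ := by
    rw [div_le_iff₀ hq0]
    rw [div_le_iff₀ hδ0] at hq'
    nlinarith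
  set J : Finset (Fin n) := Finset.univ.filter (fun j => δ < r j ∧ r j ≤ ρ ^ (2 ^ i)) with hJ
  have hsub : thickening (8 / q : ℝ) (U c r ρ i) ⊆ ⋃ j ∈ J, ball (c j) (9 * r j) := by
    intro p hp
    rw [mem_thickening_iff] at hp
    obtain ⟨z, ⟨j, h1, h2, h3⟩, hpz⟩ := hp
    refine mem_iUnion₂.2 ⟨j, Finset.mem_filter.2 ⟨Finset.mem_univ j, h1, h2⟩, ?_⟩
    rw [mem_ball] at h3 ⊢
    have h4 := dist_triangle p z (c j)
    have h1' : δ < r j := h1
    linarith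
  have hpt : ∀ j ∈ J, (2 * (9 * r j)) ^ (l + 1) ≤ 18 ^ (l + 1) * δ ^ (((l : ℝ) + 1 - s) / 2) * (r j) ^ s := by
    intro j hj
    obtain ⟨-, h1, h2⟩ := Finset.mem_filter.1 hj
    have hr0 := (hr j).1
    have e1 : (r j) ^ (l + 1) = (r j) ^ s * (r j) ^ ((l : ℝ) + 1 - s) := by
      rw [← Real.rpow_add hr0, ← Real.rpow_natCast]
      congr 1
      push_cast
      ring
    have hP0 : (0 : ℝ) ≤ ρ ^ (2 ^ i) := by positivity
    have e2 : (ρ ^ (2 ^ i)) ^ ((l : ℝ) + 1 - s) = δ ^ (((l : ℝ) + 1 - s) / 2) := by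
      have e3 : δ = (ρ ^ (2 ^ i)) ^ (2 : ℝ) := by
        rw [hδ, Real.rpow_two, ← pow_mul, pow_succ]
      rw [e3, ← Real.rpow_mul hP0]
      congr 1
      ring
    have h3 : (r j) ^ ((l : ℝ) + 1 - s) ≤ δ ^ (((l : ℝ) + 1 - s) / 2) := by
      rw [← e2]
      exact Real.rpow_le_rpow hr0.le h2 (by linarith)
    calc (2 * (9 * r j)) ^ (l + 1) = 18 ^ (l + 1) * (r j) ^ (l + 1) := by rw [← mul_pow]; ring
      _ = 18 ^ (l + 1) * ((r j) ^ s * (r j) ^ ((l : ℝ) + 1 - s)) := by rw [e1]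
      _ ≤ 18 ^ (l + 1) * ((r j) ^ s * δ ^ (((l : ℝ) + 1 - s) / 2)) := by
          have : 0 ≤ (r j) ^ s := Real.rpow_nonneg hr0.le _
          gcongr
      _ = 18 ^ (l + 1) * δ ^ (((l : ℝ) + 1 - s) / 2) * (r j) ^ s := by ring
  calc volume (thickening (8 / q : ℝ) (U c r ρ i)) ≤ volume (⋃ j ∈ J, ball (c j) (9 * r j)) :=
        measure_mono hsub
    _ ≤ ∑ j ∈ J, volume (ball (c j) (9 * r j)) := measure_biUnion_finset_le _ _
    _ = ∑ j ∈ J, ENNReal.ofReal ((2 * (9 * r j)) ^ (l + 1)) :=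
        Finset.sum_congr rfl fun j _ => vol_ball _ _ (by have := (hr j).1; positivity)
    _ = ENNReal.ofReal (∑ j ∈ J, (2 * (9 * r j)) ^ (l + 1)) :=
        (ENNReal.ofReal_sum_of_nonneg fun j _ => by have := (hr j).1; positivity).symm
    _ ≤ ENNReal.ofReal (18 ^ (l + 1) * δ ^ (((l : ℝ) + 1 - s) / 2)) := by
        refine ENNReal.ofReal_le_ofReal ?_
        calc ∑ j ∈ J, (2 * (9 * r j)) ^ (l + 1)
            ≤ ∑ j ∈ J, 18 ^ (l + 1) * δ ^ (((l : ℝ) + 1 - s) / 2) * (r j) ^ s :=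
              Finset.sum_le_sum hpt
          _ = 18 ^ (l + 1) * δ ^ (((l : ℝ) + 1 - s) / 2) * ∑ j ∈ J, (r j) ^ s := by
              rw [Finset.mul_sum]
          _ ≤ 18 ^ (l + 1) * δ ^ (((l : ℝ) + 1 - s) / 2) * 1 := by
              refine mul_le_mul_of_nonneg_left ?_ (by positivity)
              refine le_trans ?_ hsum
              exact Finset.sum_le_sum_of_subset_of_nonneg (Finset.subset_univ _)
                fun j _ _ => Real.rpow_nonneg (hr j).1.le _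
          _ = _ := mul_one _

end Pool.Agent.H53.KH
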