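import Pool.Agent.H53.KH.Stm

/-!
# KH-COV (helper25): finite ball covers from the Hausdorff dimension
-/

set_option autoImplicit false

namespace Pool.Agent.H53.KH

open Set Metric MeasureTheory Filter Topology
open scoped ENNReal NNReal

/-- a finite cover by balls from `dimH F < s` -/
theorem cov_gen {X : Type} [MetricSpace X] [Nonempty X] [MeasurableSpace X] [BorelSpace X]
    (F : Set X) (s : ℝ) (hF : IsCompact F) (hs : 0 < s)
    (hd : dimH F < ENNReal.ofReal s) (ρ : ℝ) (hρ : 0 < ρ) :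
    ∃ (n : ℕ) (c : Fin n → X) (r : Fin n → ℝ),
      (∀ j, 0 < r j ∧ r j ≤ ρ) ∧ F ⊆ ⋃ j, ball (c j) (r j) ∧ ∑ j, (r j) ^ s ≤ 1 := by
  classical
  have h0 : Measure.hausdorffMeasure ((s.toNNReal : ℝ≥0) : ℝ) F = 0 := hausdorffMeasure_of_dimH_lt hd
  rw [Real.coe_toNNReal s hs.le, Measure.hausdorffMeasure_apply] at h0
  have hη : (0 : ℝ) < (4 : ℝ) ^ (-s) / 2 := by positivity
  have hr : (0 : ℝ≥0∞) < ENNReal.ofReal (ρ / 8) := ENNReal.ofReal_pos.2 (by positivity)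
  have h1 : (⨅ (t : ℕ → Set X) (_ : F ⊆ ⋃ n, t n) (_ : ∀ n, ediam (t n) ≤ ENNReal.ofReal (ρ / 8)),
      ∑' n, ⨆ _ : (t n).Nonempty, ediam (t n) ^ s) < ENNReal.ofReal ((4 : ℝ) ^ (-s) / 2) := by
    have h2 := ENNReal.iSup_eq_zero.1 h0 (ENNReal.ofReal (ρ / 8))
    have h3 := ENNReal.iSup_eq_zero.1 h2 hr
    rw [h3]
    exact ENNReal.ofReal_pos.2 hη
  obtain ⟨t, h2⟩ := iInf_lt_iff.1 h1
  obtain ⟨ht, h3⟩ := iInf_lt_iff.1 h2
  obtain ⟨htd, h4⟩ := iInf_lt_iff.1 h3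
  -- centres
  have hx : ∀ i : ℕ, ∃ x : X, (t i).Nonempty → x ∈ t i := by
    intro i
    by_cases h : (t i).Nonempty
    · exact ⟨h.some, fun _ => h.some_mem⟩
    · exact ⟨Classical.arbitrary X, fun h' => absurd h' h⟩
  choose x hx using hx
  obtain ⟨d, hdd⟩ : ∃ d : ℕ → ℝ, ∀ i, d i = if (t i).Nonempty then (ediam (t i)).toReal else 0 :=
    ⟨_, fun _ => rfl⟩
  have hdn : ∀ i, 0 ≤ d i := by
    intro i
    rw [hdd]
    split_ifs
    · exact ENNReal.toReal_nonneg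
    · exact le_rfl
  have hfin : ∀ i, ediam (t i) ≠ ⊤ := fun i => ne_top_of_le_ne_top ENNReal.ofReal_ne_top (htd i)
  have hdρ : ∀ i, d i ≤ ρ / 8 := by
    intro i
    rw [hdd]
    split_ifs
    · exact ENNReal.toReal_le_of_le_ofReal (by positivity) (htd i)
    · positivity
  obtain ⟨e, hee⟩ : ∃ e : ℕ → ℝ, ∀ i, e i = min (ρ / 4) (((1 / 2 : ℝ) ^ (i + 2)) ^ (1 / s) / 2) :=
    ⟨_, fun _ => rfl⟩
  have he0 : ∀ i, 0 < e i := by
    intro i
    rw [hee]
    exact lt_min (by positivity) (by positivity)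
  have heρ : ∀ i, e i ≤ ρ / 4 := by
    intro i
    rw [hee]
    exact min_le_left _ _
  have hes : ∀ i, (2 * e i) ^ s ≤ (1 / 2 : ℝ) ^ (i + 2) := by
    intro i
    have h5 : 2 * e i ≤ ((1 / 2 : ℝ) ^ (i + 2)) ^ (1 / s) := by
      have : e i ≤ ((1 / 2 : ℝ) ^ (i + 2)) ^ (1 / s) / 2 := by
        rw [hee]
        exact min_le_right _ _
      linarith
    have h6 := Real.rpow_le_rpow (by have := he0 i; positivity) h5 hs.le
    rw [← Real.rpow_mul (by positivity)] at h6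
    have h7 : 1 / s * s = 1 := by field_simp
    rwa [h7, Real.rpow_one] at h6
  obtain ⟨R, hRR⟩ : ∃ R : ℕ → ℝ, ∀ i, R i = 2 * d i + e i := ⟨_, fun _ => rfl⟩
  have hR0 : ∀ i, 0 < R i := fun i => by
    rw [hRR]
    have := hdn i
    have := he0 i
    linarith
  have hRρ : ∀ i, R i ≤ ρ := fun i => by
    rw [hRR]
    have := hdρ i
    have := heρ i
    linarith
  have hRs : ∀ i, (R i) ^ s ≤ (4 : ℝ) ^ s * d i ^ s + (1 / 2 : ℝ) ^ (i + 2) := by
    intro i
    have h5 : R i ≤ max (4 * d i) (2 * e i) := by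
      rw [hRR]
      rcases le_total (2 * d i) (e i) with h | h
      · exact le_max_of_le_right (by linarith)
      · exact le_max_of_le_left (by linarith)
    have h6 := Real.rpow_le_rpow (hR0 i).le h5 hs.le
    have h7 : (max (4 * d i) (2 * e i)) ^ s ≤ (4 * d i) ^ s + (2 * e i) ^ s := by
      have g1 : 0 ≤ (4 * d i) ^ s := Real.rpow_nonneg (by have := hdn i; positivity) s
      have g2 : 0 ≤ (2 * e i) ^ s := Real.rpow_nonneg (by have := he0 i; positivity) s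
      rcases le_total (4 * d i) (2 * e i) with h | h
      · rw [max_eq_right h]; linarith
      · rw [max_eq_left h]; linarith
    rw [Real.mul_rpow (by norm_num) (hdn i)] at h7
    have := hes i
    linarith
  have hcov : F ⊆ ⋃ i, ball (x i) (R i) := by
    intro y hy
    obtain ⟨i, hi⟩ := mem_iUnion.1 (ht hy)
    have hne : (t i).Nonempty := ⟨y, hi⟩
    refine mem_iUnion.2 ⟨i, ?_⟩
    rw [mem_ball]
    have h5 : edist y (x i) ≤ ediam (t i) := edist_le_ediam_of_mem hi (hx i hne)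
    have h6 : dist y (x i) ≤ d i := by
      rw [hdd, if_pos hne, dist_edist]
      exact ENNReal.toReal_mono (hfin i) h5
    have h7 := he0 i
    have h8 := hdn i
    rw [hRR]
    linarith
  obtain ⟨J, hJ⟩ := hF.elim_finite_subcover (fun i => ball (x i) (R i)) (fun _ => isOpen_ball) hcov
  -- the sum
  have hsum : ∑ i ∈ J, (R i) ^ s ≤ 1 := by
    have h5 : ∑ i ∈ J, (d i) ^ s ≤ (4 : ℝ) ^ (-s) / 2 := by
      have h6 : ENNReal.ofReal (∑ i ∈ J, (d i) ^ s) ≤ ENNReal.ofReal ((4 : ℝ) ^ (-s) / 2) := by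
        rw [ENNReal.ofReal_sum_of_nonneg fun i _ => Real.rpow_nonneg (hdn i) s]
        refine le_trans (Finset.sum_le_sum fun i _ => ?_) ((ENNReal.sum_le_tsum J).trans h4.le)
        by_cases hne : (t i).Nonempty
        · rw [iSup_pos hne, hdd, if_pos hne, ← ENNReal.ofReal_rpow_of_nonneg ENNReal.toReal_nonneg hs.le,
            ENNReal.ofReal_toReal (hfin i)]
        · rw [hdd, if_neg hne, Real.zero_rpow hs.ne', ENNReal.ofReal_zero]
          exact bot_le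
      exact (ENNReal.ofReal_le_ofReal_iff hη.le).1 h6
    have h6 : ∑ i ∈ J, (1 / 2 : ℝ) ^ (i + 2) ≤ 1 / 2 := by
      have h7 : HasSum (fun i : ℕ => (1 / 2 : ℝ) ^ (i + 2)) (1 / 2) := by
        have h8 := (hasSum_geometric_of_lt_one (r := (1 / 2 : ℝ)) (by norm_num) (by norm_num)).mul_left (1 / 4)
        have h9 : (fun i : ℕ => (1 / 2 : ℝ) ^ (i + 2)) = fun i : ℕ => 1 / 4 * (1 / 2 : ℝ) ^ i := by
          funext i
          rw [pow_add]
          ring
        rw [h9]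
        have e1 : (1 / 4 : ℝ) * (1 - 1 / 2)⁻¹ = 1 / 2 := by norm_num
        rw [e1] at h8
        exact h8
      exact sum_le_hasSum J (fun i _ => by positivity) h7
    have h7 : (4 : ℝ) ^ s * ((4 : ℝ) ^ (-s) / 2) = 1 / 2 := by
      rw [mul_div_assoc', ← Real.rpow_add (by norm_num)]
      norm_num
    calc ∑ i ∈ J, (R i) ^ s ≤ ∑ i ∈ J, ((4 : ℝ) ^ s * d i ^ s + (1 / 2 : ℝ) ^ (i + 2)) :=
          Finset.sum_le_sum fun i _ => hRs i
      _ = (4 : ℝ) ^ s * ∑ i ∈ J, d i ^ s + ∑ i ∈ J, (1 / 2 : ℝ) ^ (i + 2) := by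
          rw [Finset.sum_add_distrib, Finset.mul_sum]
      _ ≤ (4 : ℝ) ^ s * ((4 : ℝ) ^ (-s) / 2) + 1 / 2 := by
          have := mul_le_mul_of_nonneg_left h5 (by positivity : (0 : ℝ) ≤ (4 : ℝ) ^ s)
          linarith
      _ = 1 := by rw [h7]; norm_num
  refine ⟨J.card, fun j => x (J.equivFin.symm j), fun j => R (J.equivFin.symm j),
    fun j => ⟨hR0 _, hRρ _⟩, ?_, ?_⟩
  · intro y hy
    obtain ⟨i, hi⟩ := mem_iUnion.1 (hJ hy)
    obtain ⟨hiJ, hi2⟩ := mem_iUnion.1 hi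
    refine mem_iUnion.2 ⟨J.equivFin ⟨i, hiJ⟩, ?_⟩
    simpa using hi2
  · rw [Equiv.sum_comp J.equivFin.symm (fun i : J => (R i) ^ s), Finset.sum_coe_sort J (fun i => (R i) ^ s)]
    exact hsum

theorem COV_main : S_COV := by
  intro l F s hF hs hd ρ hρ
  exact cov_gen F s hF hs hd ρ hρ

end Pool.Agent.H53.KH
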