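import Mathlib

set_option autoImplicit false

/-! # Sequences of scales -/

namespace Pool.Agent.H53.KH

open Filter

/-- The scales `δ = exp (-x N)` in the dimensions `N` are admissible: `x` is nondecreasing, tends to infinity, grows
at most by a constant factor from `N` to `N + 1`, and `x N (log (x N))⁵ ≤ N` for all large `N`. -/
def Scales (x : ℕ → ℝ) : Prop :=
  Monotone x ∧ Tendsto x atTop atTop ∧ (∃ C : ℝ, 1 ≤ C ∧ ∀ N, x (N + 1) ≤ C * x N) ∧
    ∀ᶠ N : ℕ in atTop, x N * Real.log (x N) ^ 5 ≤ N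

/-- For example `x N = √N`. -/
theorem scales_sqrt : ∃ x : ℕ → ℝ, Scales x ∧ ∀ N : ℕ, 1 ≤ N → x N = √N := by
  refine ⟨fun N => √(max (N : ℝ) 1), ⟨?_, ?_, ⟨2, by norm_num, ?_⟩, ?_⟩, ?_⟩
  · intro a b hab
    refine Real.sqrt_le_sqrt (max_le_max ?_ le_rfl)
    exact_mod_cast hab
  · refine Tendsto.comp Real.tendsto_sqrt_atTop ?_
    exact tendsto_atTop_mono (fun N => le_max_left _ _) tendsto_natCast_atTop_atTop
  · intro N
    have h2 : (2:ℝ) = √4 := by
      rw [show (4:ℝ) = 2 ^ 2 by norm_num, Real.sqrt_sq (by norm_num)]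
    rw [h2, ← Real.sqrt_mul (by norm_num)]
    refine Real.sqrt_le_sqrt ?_
    have h3 : (0:ℝ) ≤ N := Nat.cast_nonneg N
    have h4 : (1:ℝ) ≤ max (N : ℝ) 1 := le_max_right _ _
    have h5 : (N : ℝ) ≤ max (N : ℝ) 1 := le_max_left _ _
    refine max_le ?_ ?_
    · push_cast; linarith
    · linarith
  · have h1 : ∀ᶠ y : ℝ in atTop, Real.log y ^ 5 ≤ y := by
      have h2 := (Real.isLittleO_pow_log_id_atTop (n := 5)).bound (show (0:ℝ) < 1 by norm_num)
      filter_upwards [h2, eventually_ge_atTop (1:ℝ)] with y hy hy1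
      have h3 : ‖id y‖ = y := by
        rw [id, Real.norm_of_nonneg (by linarith)]
      rw [h3, one_mul] at hy
      exact (le_abs_self _).trans hy
    have h2 : Tendsto (fun N : ℕ => √(max (N : ℝ) 1)) atTop atTop := by
      refine Tendsto.comp Real.tendsto_sqrt_atTop ?_
      exact tendsto_atTop_mono (fun N => le_max_left _ _) tendsto_natCast_atTop_atTop
    filter_upwards [h2.eventually h1, eventually_ge_atTop 1] with N hN hN1
    have h3 : max (N : ℝ) 1 = N := max_eq_left (by exact_mod_cast hN1)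
    rw [h3] at hN ⊢
    calc √(N : ℝ) * Real.log (√(N : ℝ)) ^ 5 ≤ √(N : ℝ) * √(N : ℝ) :=
          mul_le_mul_of_nonneg_left hN (Real.sqrt_nonneg _)
      _ = N := Real.mul_self_sqrt (Nat.cast_nonneg N)
  · intro N hN
    have h3 : max (N : ℝ) 1 = N := max_eq_left (by exact_mod_cast hN)
    change √(max (N : ℝ) 1) = √N
    rw [h3]

end Pool.Agent.H53.KH
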