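import Pool.Agent.H53.KH.Stm

set_option autoImplicit false

/-! # KH-GOOD (helper3) -/

namespace Pool.Agent.H53.KH

open Set Metric MeasureTheory Filter Topology Pool.Agent.H53.KD
open scoped ENNReal

theorem GOOD_main : S_GOOD := by
  classical
  intro hONE hCHER l m q w G T hq hw0 hw1 hbox hcard htime hshade hexp u hu
  obtain ⟨p, hp⟩ : ∃ p : ℝ, p = w ^ 2 / (2 * 3 ^ l) := ⟨_, rfl⟩
  rw [← hp] at hexp ⊢
  have h3 : (1 : ℝ) ≤ 3 ^ l := one_le_pow₀ (by norm_num)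
  have hp0 : 0 ≤ p := by rw [hp]; positivity
  have hp1 : p ≤ 1 := by
    rw [hp, div_le_one (by positivity)]
    nlinarith
  have hO : ((Om l m q).card : ℝ) = ((Om1 l q).card : ℝ) ^ m := by
    unfold Om
    rw [Fintype.card_piFinset]
    simp
  obtain ⟨Bad, hBad⟩ : ∃ Bad : ℤ → Finset (Fin m → (Fin l → ℤ) × ℤ), Bad = fun j =>
      (Om l m q).filter (fun ω =>
        (({b | Gd G T (u b) j (ω b)} : Set (Fin m)).ncard : ℝ) < p * m / 4) := ⟨_, rfl⟩
  obtain ⟨Good, hGood⟩ : ∃ Good : Finset (Fin m → (Fin l → ℤ) × ℤ), Good =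
      (Om l m q).filter (fun ω => ∀ j : ℤ, 0 ≤ j → j ≤ q →
        p * m / 4 ≤ (({b | Gd G T (u b) j (ω b)} : Set (Fin m)).ncard : ℝ)) := ⟨_, rfl⟩
  have hb : ∀ j : ℤ, 0 ≤ j → j ≤ q →
      ((Bad j).card : ℝ) ≤ Real.exp (-(p * m / 4)) * ((Om l m q).card : ℝ) := by
    intro j hj0 hjq
    have h := hCHER ((Fin l → ℤ) × ℤ) (Om1 l q) m (fun b x => Gd G T (u b) j x) p hp0 hp1
      (fun b => by
        have h1 := hONE l q w G T hq hw0 hbox hcard htime hshade (u b) (hu b) j hj0 hjq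
        rw [← hp] at h1
        exact h1)
    have e : ({ω | ω ∈ Fintype.piFinset (fun _ : Fin m => Om1 l q) ∧
        (({b | Gd G T (u b) j (ω b)} : Set (Fin m)).ncard : ℝ) < p * m / 4} :
        Set (Fin m → (Fin l → ℤ) × ℤ)) = ↑(Bad j) := by
      rw [hBad]
      ext ω
      simp only [Set.mem_setOf_eq, Finset.coe_filter]
      rfl
    rw [hO]
    have h2 : (({ω | ω ∈ Fintype.piFinset (fun _ : Fin m => Om1 l q) ∧
        (({b | Gd G T (u b) j (ω b)} : Set (Fin m)).ncard : ℝ) < p * m / 4} :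
        Set (Fin m → (Fin l → ℤ) × ℤ)).ncard : ℝ) ≤
        Real.exp (-(p * m / 4)) * ((Om1 l q).card : ℝ) ^ m := h
    rw [e, Set.ncard_coe_finset] at h2
    exact h2
  have hcov : Om l m q ⊆ Good ∪ (Finset.Icc (0 : ℤ) q).biUnion Bad := by
    intro ω hω
    rw [Finset.mem_union]
    by_cases h : ∀ j : ℤ, 0 ≤ j → j ≤ q →
        p * m / 4 ≤ (({b | Gd G T (u b) j (ω b)} : Set (Fin m)).ncard : ℝ)
    · left
      rw [hGood, Finset.mem_filter]
      exact ⟨hω, h⟩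
    · right
      push Not at h
      obtain ⟨j, hj0, hjq, hj⟩ := h
      rw [Finset.mem_biUnion]
      refine ⟨j, Finset.mem_Icc.2 ⟨hj0, hjq⟩, ?_⟩
      rw [hBad]
      exact Finset.mem_filter.2 ⟨hω, hj⟩
  have h1 : (Om l m q).card ≤ Good.card + ∑ j ∈ Finset.Icc (0 : ℤ) q, (Bad j).card :=
    (Finset.card_le_card hcov).trans ((Finset.card_union_le _ _).trans
      (Nat.add_le_add_left Finset.card_biUnion_le _))
  have h2 : ((Om l m q).card : ℝ) ≤ Good.card + ∑ j ∈ Finset.Icc (0 : ℤ) q, ((Bad j).card : ℝ) := by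
    exact_mod_cast h1
  have h4 : ∑ j ∈ Finset.Icc (0 : ℤ) q, ((Bad j).card : ℝ) ≤
      ((q : ℝ) + 1) * (Real.exp (-(p * m / 4)) * ((Om l m q).card : ℝ)) := by
    calc ∑ j ∈ Finset.Icc (0 : ℤ) q, ((Bad j).card : ℝ) ≤
          ∑ _j ∈ Finset.Icc (0 : ℤ) q, Real.exp (-(p * m / 4)) * ((Om l m q).card : ℝ) := by
          refine Finset.sum_le_sum fun j hj => ?_
          rw [Finset.mem_Icc] at hj
          exact hb j hj.1 hj.2
      _ = _ := by
          rw [Finset.sum_const, Int.card_Icc, nsmul_eq_mul]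
          congr 1
          have : ((q : ℤ) + 1 - 0).toNat = q + 1 := by omega
          rw [this]
          push_cast
          rfl
  have h5 : ((q : ℝ) + 1) * (Real.exp (-(p * m / 4)) * ((Om l m q).card : ℝ)) ≤
      1 / 4 * ((Om l m q).card : ℝ) := by
    have h6 : ((q : ℝ) + 1) * Real.exp (-(p * m / 4)) ≤ 1 / 4 := by linarith
    calc ((q : ℝ) + 1) * (Real.exp (-(p * m / 4)) * ((Om l m q).card : ℝ)) =
        (((q : ℝ) + 1) * Real.exp (-(p * m / 4))) * ((Om l m q).card : ℝ) := by ring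
      _ ≤ _ := mul_le_mul_of_nonneg_right h6 (Nat.cast_nonneg _)
  have e2 : ({ω | ω ∈ Om l m q ∧ ∀ j : ℤ, 0 ≤ j → j ≤ q →
        p * m / 4 ≤ (({b | Gd G T (u b) j (ω b)} : Set (Fin m)).ncard : ℝ)} :
        Set (Fin m → (Fin l → ℤ) × ℤ)) = ↑Good := by
    rw [hGood]
    ext ω
    simp only [Set.mem_setOf_eq, Finset.coe_filter]
  rw [e2, Set.ncard_coe_finset]
  linarith

end Pool.Agent.H53.KH
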