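import Pool.Agent.H53.KH.Stm

set_option autoImplicit false

/-! # KH-GRD: greedy covering (helper90) -/

namespace Pool.Agent.H53.KH

open Finset in
theorem GRD_aux {α β : Type} (O : Finset α) (R : α → β → Prop) (hO : O.Nonempty) (M : ℕ) :
    ∀ V : Finset β, (∀ u ∈ V, (O.card : ℝ) ≤ 2 * (({ω | ω ∈ O ∧ R ω u} : Set α).ncard : ℝ)) →
      V.card < 2 ^ M → ∃ W : Finset α, W ⊆ O ∧ W.card ≤ M ∧ ∀ u ∈ V, ∃ ω ∈ W, R ω u := by
  classical
  induction M with
  | zero =>
    intro V _ hV
    have h0 : V = ∅ := Finset.card_eq_zero.1 (by simpa using hV)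
    refine ⟨∅, Finset.empty_subset _, le_rfl, fun u hu => ?_⟩
    rw [h0] at hu
    exact absurd hu (Finset.notMem_empty u)
  | succ M ih =>
    intro V h hV
    by_cases hV0 : V = ∅
    · refine ⟨∅, Finset.empty_subset _, Nat.zero_le _, fun u hu => ?_⟩
      rw [hV0] at hu
      exact absurd hu (Finset.notMem_empty u)
    have hpos : 0 < V.card := Finset.card_pos.2 (Finset.nonempty_iff_ne_empty.2 hV0)
    have hN : ∀ u ∈ V, O.card ≤ 2 * (O.filter (fun ω => R ω u)).card := by
      intro u hu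
      have h1 := h u hu
      have h2 : ({ω | ω ∈ O ∧ R ω u} : Set α) = ((O.filter fun ω => R ω u : Finset α) : Set α) := by
        ext ω
        simp
      rw [h2, Set.ncard_coe_finset] at h1
      exact_mod_cast h1
    obtain ⟨ω, hω, hωV⟩ : ∃ ω ∈ O, V.card ≤ 2 * (V.filter (fun u => R ω u)).card := by
      by_contra hcon
      push Not at hcon
      have h1 : ∑ ω ∈ O, 2 * (V.filter (fun u => R ω u)).card < ∑ _ω ∈ O, V.card :=
        Finset.sum_lt_sum_of_nonempty hO fun ω hω => hcon ω hω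
      have h2 : ∑ ω ∈ O, (V.filter (fun u => R ω u)).card =
          ∑ u ∈ V, (O.filter (fun ω => R ω u)).card :=
        Finset.sum_card_bipartiteAbove_eq_sum_card_bipartiteBelow R
      have h3 : ∑ _u ∈ V, O.card ≤ ∑ u ∈ V, 2 * (O.filter (fun ω => R ω u)).card :=
        Finset.sum_le_sum hN
      rw [← Finset.mul_sum, h2] at h1
      rw [← Finset.mul_sum] at h3
      rw [Finset.sum_const, smul_eq_mul] at h1 h3
      rw [Nat.mul_comm V.card] at h3
      omega
    have hsplit := Finset.card_filter_add_card_filter_not (s := V) (fun u => R ω u)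
    have hlt : (V.filter (fun u => ¬ R ω u)).card < 2 ^ M := by
      rw [pow_succ] at hV
      omega
    obtain ⟨W, hWO, hWM, hW⟩ := ih (V.filter (fun u => ¬ R ω u))
      (fun u hu => h u (Finset.mem_filter.1 hu).1) hlt
    refine ⟨insert ω W, Finset.insert_subset hω hWO, (Finset.card_insert_le _ _).trans (by omega),
      fun u hu => ?_⟩
    by_cases hR : R ω u
    · exact ⟨ω, Finset.mem_insert_self _ _, hR⟩
    · obtain ⟨ω', h1, h2⟩ := hW u (Finset.mem_filter.2 ⟨hu, hR⟩)
      exact ⟨ω', Finset.mem_insert_of_mem h1, h2⟩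

theorem GRD_main : S_GRD := fun _ _ O V R h hO M hM => GRD_aux O R hO M V h hM

end Pool.Agent.H53.KH
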