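import Pool.Agent.H53.KH.Stm

set_option autoImplicit false
namespace Pool.Agent.H53.KH

open Set Metric MeasureTheory Filter Topology Pool.Agent.H53.KD
open scoped ENNReal

theorem GRID_main : S_GRID := by
  classical
  intro l q w D hq hw hD hvol
  have hq0 : (0 : ℝ) < q := by exact_mod_cast hq
  -- closed cells
  set cell : (Fin l → ℤ) → Set (Fin l → ℝ) := fun g => Icc (fun i => (g i : ℝ) / q) (fun i => ((g i : ℝ) + 1) / q) with hcell
  set B : Finset (Fin l → ℤ) := Fintype.piFinset fun _ => Finset.Ico (-(q : ℤ)) q with hB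
  set G : Finset (Fin l → ℤ) := B.filter fun g => (cell g ∩ D).Nonempty with hG
  have hcv : ∀ g, volume (cell g) = ENNReal.ofReal ((1 / q) ^ l) := by
    intro g
    simp only [hcell]
    rw [Real.volume_Icc_pi]
    have : ∀ i : Fin l, ENNReal.ofReal (((g i : ℝ) + 1) / q - (g i : ℝ) / q) = ENNReal.ofReal (1 / q) := by
      intro i; congr 1; field_simp; ring
    rw [Finset.prod_congr rfl (fun i _ => this i)]
    rw [Finset.prod_const, Finset.card_univ, Fintype.card_fin, ENNReal.ofReal_pow (by positivity)]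
  have hcov : D ⊆ ⋃ g ∈ G, cell g := by
    intro v hv
    have h1 := hD v hv
    set g : Fin l → ℤ := fun i => min ⌊v i * q⌋ (q - 1) with hg
    have hgi : ∀ i, (-(q : ℤ) ≤ g i ∧ g i < q) ∧ (g i : ℝ) ≤ v i * q ∧ v i * q ≤ (g i : ℝ) + 1 := by
      intro i
      obtain ⟨ha, hb⟩ := abs_le.1 (h1 i)
      have hf1 := Int.floor_le (v i * q)
      have hf2 := Int.lt_floor_add_one (v i * q)
      have hf3 : -(q : ℤ) ≤ ⌊v i * q⌋ := by
        rw [Int.le_floor]; push_cast; nlinarith
      have hq1 : (1 : ℤ) ≤ q := by exact_mod_cast hq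
      simp only [hg]
      rcases le_total ⌊v i * q⌋ ((q : ℤ) - 1) with h | h
      · rw [min_eq_left h]
        exact ⟨⟨hf3, by omega⟩, hf1, hf2.le⟩
      · rw [min_eq_right h]
        refine ⟨⟨by omega, by omega⟩, ?_, ?_⟩
        · have : (((q : ℤ) - 1 : ℤ) : ℝ) ≤ (⌊v i * q⌋ : ℝ) := by exact_mod_cast h
          linarith
        · push_cast; nlinarith
    have hvc : v ∈ cell g := by
      simp only [hcell, mem_Icc, Pi.le_def]
      refine ⟨fun i => ?_, fun i => ?_⟩
      · rw [div_le_iff₀ hq0]; exact (hgi i).2.1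
      · rw [le_div_iff₀ hq0]; exact (hgi i).2.2
    simp only [mem_iUnion]
    refine ⟨g, ?_, hvc⟩
    simp only [hG, hB, Finset.mem_filter, Fintype.mem_piFinset, Finset.mem_Ico]
    exact ⟨fun i => (hgi i).1, v, hvc, hv⟩
  refine ⟨G, ?_, ?_, ?_⟩
  · intro g hg i
    simp only [hG, hB, Finset.mem_filter, Fintype.mem_piFinset, Finset.mem_Ico] at hg
    exact hg.1 i
  · have h2 : volume D ≤ ENNReal.ofReal (G.card * (1 / q) ^ l) := by
      calc volume D ≤ volume (⋃ g ∈ G, cell g) := measure_mono hcov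
        _ ≤ ∑ g ∈ G, volume (cell g) := measure_biUnion_finset_le _ _
        _ = (G.card : ℝ≥0∞) * ENNReal.ofReal ((1 / q) ^ l) := by simp [hcv]
        _ = ENNReal.ofReal (G.card * (1 / q) ^ l) := by
          rw [ENNReal.ofReal_mul (by positivity), ENNReal.ofReal_natCast]
    have h3 := hvol.trans h2
    rw [ENNReal.ofReal_le_ofReal_iff (by positivity)] at h3
    have h4 : w * (2 * q) ^ l = w * 2 ^ l * (q : ℝ) ^ l := by rw [mul_pow]; ring
    rw [h4]
    calc w * 2 ^ l * (q : ℝ) ^ l ≤ (G.card * (1 / q) ^ l) * (q : ℝ) ^ l := by gcongr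
      _ = G.card := by
        rw [mul_assoc, ← mul_pow, one_div, inv_mul_cancel₀ hq0.ne', one_pow, mul_one]
  · intro g hg
    simp only [hG, Finset.mem_filter] at hg
    obtain ⟨-, v, hv, hvD⟩ := hg
    refine ⟨v, hvD, fun i => ?_⟩
    simp only [hcell, mem_Icc, Pi.le_def] at hv
    have h1 := hv.1 i
    have h2 := hv.2 i
    rw [abs_le]
    constructor
    · have : (0 : ℝ) ≤ 1 / q := by positivity
      linarith
    · have : ((g i : ℝ) + 1) / q = (g i : ℝ) / q + 1 / q := by ring
      linarith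

end Pool.Agent.H53.KH
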