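import Pool.Agent.H53.KH.Stm

set_option autoImplicit false

/-! # KH-LINE -/

namespace Pool.Agent.H53.KH

open Set Metric MeasureTheory Filter Topology Pool.Agent.H53.KD
open scoped ENNReal

theorem line_abs_div_le {q : ℕ} (hq : 0 < q) {z : ℤ} (h1 : -(q : ℤ) ≤ z) (h2 : z ≤ q) :
    |(z : ℝ) / q| ≤ 1 := by
  have hq' : (0 : ℝ) < q := by exact_mod_cast hq
  have h1' : -(q : ℝ) ≤ z := by exact_mod_cast h1
  have h2' : (z : ℝ) ≤ q := by exact_mod_cast h2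
  rw [abs_div, abs_of_pos hq', div_le_one hq', abs_le]
  exact ⟨h1', h2'⟩

theorem line_abs_mul_le {x y : ℝ} (hx : |x| ≤ 1) (hy : |y| ≤ 1) : |x * y| ≤ 1 := by
  rw [abs_mul]
  exact mul_le_one₀ hx (abs_nonneg _) hy

open Classical in
theorem LINE_main : S_LINE := by
  intro l m q n R G a T hq hR ha ω u hω hu hgood
  have hq' : (q : ℝ) ≠ 0 := by exact_mod_cast hq.ne'
  have hτ : ∀ b, -(q : ℤ) ≤ (ω b).2 ∧ (ω b).2 ≤ q := by
    intro b
    have h1 := Fintype.mem_piFinset.1 hω b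
    have h2 := (Finset.mem_product.1 h1).2
    rw [Finset.mem_Ico] at h2
    exact ⟨h2.1, h2.2.le⟩
  refine ⟨fun p => if u p.1 - (ω p.1).1 ∈ G then
    a (u p.1 - (ω p.1).1) p.2 + ((ω p.1).2 : ℝ) / q * ((u p.1 p.2 : ℝ) / q) else 0, ?_⟩
  intro j hj0 hjq
  refine ⟨?_, ?_⟩
  · rintro ⟨b, i⟩
    have h1 : |((ω b).2 : ℝ) / q * ((u b i : ℝ) / q)| ≤ 1 :=
      line_abs_mul_le (line_abs_div_le hq (hτ b).1 (hτ b).2)
        (line_abs_div_le hq (hu b i).1 (hu b i).2.le)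
    have h2 : |(j : ℝ) / q * ((u b i : ℝ) / q)| ≤ 1 :=
      line_abs_mul_le (line_abs_div_le hq (by omega) hjq)
        (line_abs_div_le hq (hu b i).1 (hu b i).2.le)
    show |(if u b - (ω b).1 ∈ G then a (u b - (ω b).1) i + ((ω b).2 : ℝ) / q * ((u b i : ℝ) / q)
      else 0) + (j : ℝ) / q * ((u b i : ℝ) / q)| ≤ R + 2
    split_ifs with hG
    · have h3 := ha _ hG i
      calc |a (u b - (ω b).1) i + ((ω b).2 : ℝ) / q * ((u b i : ℝ) / q) +
            (j : ℝ) / q * ((u b i : ℝ) / q)|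
          ≤ |a (u b - (ω b).1) i + ((ω b).2 : ℝ) / q * ((u b i : ℝ) / q)| +
            |(j : ℝ) / q * ((u b i : ℝ) / q)| := abs_add_le _ _
        _ ≤ |a (u b - (ω b).1) i| + |((ω b).2 : ℝ) / q * ((u b i : ℝ) / q)| +
            |(j : ℝ) / q * ((u b i : ℝ) / q)| := by gcongr; exact abs_add_le _ _
        _ ≤ R + 2 := by linarith
    · rw [zero_add]
      linarith
  · refine (hgood j hj0 hjq).trans (Set.ncard_le_ncard ?_ (Set.toFinite _))
    intro b hb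
    obtain ⟨hb1, hb2⟩ := hb
    refine ⟨u b - (ω b).1, hb1, hb2, ?_⟩
    funext i
    show (if u b - (ω b).1 ∈ G then a (u b - (ω b).1) i + ((ω b).2 : ℝ) / q * ((u b i : ℝ) / q)
      else 0) + (j : ℝ) / q * ((u b i : ℝ) / q) -
      ((j + (ω b).2 : ℤ) : ℝ) / q * (((ω b).1 i : ℝ) / q) = _
    rw [if_pos hb1]
    have e : ((u b - (ω b).1) i : ℤ) = u b i - (ω b).1 i := rfl
    rw [e]
    push_cast
    ring

end Pool.Agent.H53.KH
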