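import Pool.Agent.H53.KH.Stm

set_option autoImplicit false

namespace Pool.Agent.H53.KH

namespace NUMA

theorem four (i : ℕ) : (i + 2) ^ 4 ≤ 41 * 2 ^ (i + 1) := by
  induction i with
  | zero => norm_num
  | succ i ih =>
    by_cases hi : i < 4
    · interval_cases i <;> norm_num
    · obtain ⟨j, rfl⟩ := Nat.exists_eq_add_of_le (show 4 ≤ i by omega)
      have h1 : (4 + j + 1 + 2) ^ 4 ≤ 2 * (4 + j + 2) ^ 4 := by
        ring_nf
        nlinarith [Nat.zero_le j, Nat.zero_le (j ^ 2), Nat.zero_le (j ^ 3), Nat.zero_le (j ^ 4)]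
      calc (4 + j + 1 + 2) ^ 4 ≤ 2 * (4 + j + 2) ^ 4 := h1
        _ ≤ 2 * (41 * 2 ^ (4 + j + 1)) := Nat.mul_le_mul_left 2 ih
        _ = 41 * 2 ^ (4 + j + 1 + 1) := by ring

end NUMA

theorem NUMA_main : S_NUMA := by
  intro l C hC
  have h9 : (1 : ℝ) ≤ 9 ^ l := one_le_pow₀ (by norm_num)
  have h3 : (1 : ℝ) ≤ 3 ^ l := one_le_pow₀ (by norm_num)
  have h39 : (3 : ℝ) ^ l ≤ 9 ^ l := pow_le_pow_left₀ (by norm_num) (by norm_num) l
  refine ⟨Real.exp (1024 * 9 ^ l * C), Real.one_le_exp (by positivity), fun X hX i => ?_⟩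
  have hX1 : 1024 * 9 ^ l * C ≤ X := by
    have := Real.add_one_le_exp (1024 * 9 ^ l * C)
    linarith
  have hXC : 1024 * C ≤ X := by nlinarith
  have hX2 : 2 ≤ X := by linarith
  have hX0 : 0 < X := by linarith
  have h2i : (1 : ℝ) ≤ 2 ^ (i + 1) := one_le_pow₀ (by norm_num)
  have hx : X ≤ 2 ^ (i + 1) * X := by nlinarith
  have hi0 : (0 : ℝ) ≤ i := Nat.cast_nonneg i
  have hA : (0 : ℝ) < ((i : ℝ) + 1) * (i + 2) := by positivity
  have hA2 : ((i : ℝ) + 1) * (i + 2) ≤ (i + 2) ^ 2 := by nlinarith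
  have hw : (1 / ((i : ℝ) + 2) ^ 4) / (2 * 3 ^ l) ≤
      (1 / (((i : ℝ) + 1) * (i + 2))) ^ 2 / (2 * 3 ^ l) := by
    refine div_le_div_of_nonneg_right ?_ (by positivity)
    rw [div_pow, one_pow]
    refine one_div_le_one_div_of_le (by positivity) ?_
    calc (((i : ℝ) + 1) * (i + 2)) ^ 2 ≤ ((i + 2) ^ 2) ^ 2 := pow_le_pow_left₀ hA.le hA2 2
      _ = _ := by ring
  have hw0 : 0 < (1 / ((i : ℝ) + 2) ^ 4) / (2 * 3 ^ l) := by positivity
  refine ⟨by linarith, Real.log_nonneg (by linarith), ?_, ?_⟩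
  · have h4 : ((i : ℝ) + 2) ^ 4 ≤ 41 * 2 ^ (i + 1) := by exact_mod_cast NUMA.four i
    have h5 : (0 : ℝ) < ((i : ℝ) + 2) ^ 4 := by positivity
    have h6 : 1 / 41 ≤ 2 ^ (i + 1) / ((i : ℝ) + 2) ^ 4 := by
      rw [div_le_div_iff₀ (by norm_num) h5]; linarith
    have h7 : C ≤ X / (82 * 3 ^ l) := by
      rw [le_div_iff₀ (by positivity)]
      have : C * (82 * 3 ^ l) ≤ 1024 * 9 ^ l * C := by nlinarith
      linarith
    calc C ≤ X / (82 * 3 ^ l) := h7
      _ = (1 / 41) * (X / (2 * 3 ^ l)) := by field_simp; norm_num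
      _ ≤ (2 ^ (i + 1) / ((i : ℝ) + 2) ^ 4) * (X / (2 * 3 ^ l)) :=
          mul_le_mul_of_nonneg_right h6 (by positivity)
      _ = (1 / ((i : ℝ) + 2) ^ 4) / (2 * 3 ^ l) * (2 ^ (i + 1) * X) := by ring
      _ ≤ _ := mul_le_mul_of_nonneg_right hw (by positivity)
  · have hlogX : 1024 * 9 ^ l * C ≤ Real.log X := by
      rw [Real.le_log_iff_exp_le hX0]; exact hX
    have hl2 : (1 : ℝ) / 2 ≤ Real.log 2 := by
      have := Real.log_two_gt_d9; linarith
    have hlogXpos : Real.log 2 ≤ Real.log X := Real.log_le_log (by norm_num) hX2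
    have hlog : Real.log (2 ^ (i + 1) * X) = ((i : ℝ) + 1) * Real.log 2 + Real.log X := by
      rw [Real.log_mul (by positivity) hX0.ne', Real.log_pow]; push_cast; ring
    have hb1 : ((i : ℝ) + 2) / 2 ≤ Real.log (2 ^ (i + 1) * X) := by
      rw [hlog]; nlinarith
    have hb2 : Real.log X ≤ Real.log (2 ^ (i + 1) * X) := by
      rw [hlog]
      have : 0 ≤ ((i : ℝ) + 1) * Real.log 2 := by positivity
      linarith
    have h8 : (((i : ℝ) + 2) / 2) ^ 8 * Real.log X ≤ Real.log (2 ^ (i + 1) * X) ^ 9 := by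
      rw [pow_succ (Real.log (2 ^ (i + 1) * X)) 8]
      exact mul_le_mul (pow_le_pow_left₀ (by positivity) hb1 8) hb2 (by linarith) (by positivity)
    have hsq := pow_le_pow_left₀ hw0.le hw 2
    have e9 : ((3 : ℝ) ^ l) ^ 2 = 9 ^ l := by rw [← pow_mul, mul_comm, pow_mul]; norm_num
    calc C ≤ Real.log X / (1024 * 9 ^ l) := by
          rw [le_div_iff₀ (by positivity)]; linarith
      _ = ((1 / ((i : ℝ) + 2) ^ 4) / (2 * 3 ^ l)) ^ 2 *
          ((((i : ℝ) + 2) / 2) ^ 8 * Real.log X) := by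
          rw [← e9]; field_simp; norm_num
      _ ≤ ((1 / (((i : ℝ) + 1) * (i + 2))) ^ 2 / (2 * 3 ^ l)) ^ 2 *
          Real.log (2 ^ (i + 1) * X) ^ 9 := by
          refine mul_le_mul hsq h8 ?_ (by positivity)
          have : 0 ≤ Real.log X := by linarith
          positivity

end Pool.Agent.H53.KH
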