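import Pool.Agent.H53.KH.Stm3

set_option autoImplicit false

/-! # KH-NUMD: the numbers, one dimension for each scale -/

namespace Pool.Agent.H53.KH

open Set Metric MeasureTheory Filter Topology Pool.Agent.H53.KD
open scoped ENNReal

namespace NUMDx

theorem core (l : ℕ) (γ R y p : ℝ) (hl : 1 ≤ l) (hγ : 0 < γ) (hR : 1 ≤ R) (hp0 : 0 < p) (hp1 : p ≤ 1)
    (q : ℕ) (hq1 : Real.exp y ≤ q) (hq2 : (q:ℝ) ≤ Real.exp y + 1)
    (hy10 : 10 ≤ y) (hyb : 72 * ((l:ℝ) + 1) ≤ γ * y) (hpy : 32 * (58 + 2 * R) * l ≤ γ * (p * y))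
    (hL1 : 1 ≤ Real.log y)
    (hpL1 : 64 * (l:ℝ) ≤ p * Real.log y ^ 5) (hpL2 : 128 * (l:ℝ) < γ * (p * Real.log y ^ 5))
    (N : ℕ) (hN : Real.log q * Real.log (Real.log q) ^ 5 ≤ N) :
    ∃ m r n M : ℕ, N = m * l + r + 1 ∧ n ≤ m ∧
    4 * ((q : ℝ) + 1) * Real.exp (-(p * m / 4)) ≤ 1 ∧
    (∀ c : ℕ, p * m / 4 ≤ (c : ℝ) → n ≤ c) ∧
    (2 * q) ^ (l * m) < 2 ^ M ∧
    (N : ℝ) * (4 ^ r * (M * (32 * 2 ^ m * (2 * R + 12) ^ (l * m) *
      (18 ^ (l + 1) * Real.exp (-(γ / 2 * y))) ^ n))) <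
      Real.exp (-((N : ℝ) * Real.log q / Real.log (Real.log q) ^ 5)) := by
  have hl' : (1:ℝ) ≤ l := by exact_mod_cast hl
  have hy0 : 0 < y := by linarith
  have hey : 11 ≤ Real.exp y := by linarith [Real.add_one_le_exp y]
  have hqpos : (0:ℝ) < q := (Real.exp_pos y).trans_le hq1
  have hLq1 : y ≤ Real.log q := (Real.le_log_iff_exp_le hqpos).mpr hq1
  have hLq2 : Real.log q ≤ 2 * y := by
    rw [Real.log_le_iff_le_exp hqpos]
    have : Real.exp (2 * y) = Real.exp y * Real.exp y := by rw [← Real.exp_add]; congr 1; ring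
    rw [this]
    nlinarith
  set L := Real.log y with hL
  have hLL : L ≤ Real.log (Real.log q) := Real.log_le_log hy0 hLq1
  have hL0 : 0 ≤ L := by linarith
  have hLL5 : L ^ 5 ≤ Real.log (Real.log q) ^ 5 := pow_le_pow_left₀ hL0 hLL 5
  have hL5 : 1 ≤ L ^ 5 := one_le_pow₀ hL1
  have hL50 : 0 < L ^ 5 := by linarith
  have hNy : y * L ^ 5 ≤ N :=
    le_trans (mul_le_mul hLq1 hLL5 hL50.le (by linarith)) hN
  have hpL3 : p * L ^ 5 ≤ L ^ 5 := by nlinarith
  have hL64 : 64 * (l:ℝ) ≤ L ^ 5 := hpL1.trans hpL3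
  have hNl : 640 * (l:ℝ) ≤ N := by
    have : 10 * (64 * (l:ℝ)) ≤ y * L ^ 5 := mul_le_mul hy10 hL64 (by positivity) hy0.le
    linarith
  have hN1 : 1 ≤ N := by
    have : (1:ℝ) ≤ N := by linarith
    exact_mod_cast this
  set m := (N - 1) / l with hm
  set r := (N - 1) % l with hr
  have hmr : m * l + r = N - 1 := Nat.div_add_mod' (N - 1) l
  have hrl : r < l := Nat.mod_lt _ (by omega)
  have hNe : N = m * l + r + 1 := by omega
  have hNe' : (N:ℝ) = m * l + r + 1 := by exact_mod_cast hNe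
  have hrl' : (r:ℝ) + 1 ≤ l := by exact_mod_cast hrl
  have hr0 : (0:ℝ) ≤ r := Nat.cast_nonneg r
  have hNm : (N:ℝ) ≤ 2 * (l * m) := by nlinarith
  have hm0 : (0:ℝ) ≤ m := Nat.cast_nonneg m
  have hpm : 32 * y ≤ p * m := by
    have h1 : y * (64 * (l:ℝ)) ≤ y * (p * L ^ 5) := mul_le_mul_of_nonneg_left hpL1 hy0.le
    have h2 : p * (y * L ^ 5) ≤ p * N := mul_le_mul_of_nonneg_left hNy hp0.le
    have h3 : p * (N:ℝ) ≤ p * (2 * (l * m)) := mul_le_mul_of_nonneg_left hNm hp0.le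
    have h4 : (2 * (l:ℝ)) * (32 * y) ≤ (2 * (l:ℝ)) * (p * m) := by linarith
    exact le_of_mul_le_mul_left h4 (by positivity)
  have hpm1 : p * m ≤ m := by nlinarith
  have hym : y ≤ m := by linarith
  have hm1 : (1:ℝ) ≤ m := by linarith
  set k : ℝ := (l:ℝ) * m with hk
  have hmk : (m:ℝ) ≤ k := by rw [hk]; nlinarith
  have hlk : (l:ℝ) ≤ k := by rw [hk]; nlinarith
  have hk1 : 1 ≤ k := by linarith
  refine ⟨m, r, ⌈p * m / 4⌉₊, 2 * q * (l * m) + 1, hNe, ?_, ?_, ?_, ?_, ?_⟩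
  · apply Nat.ceil_le.mpr
    linarith
  · rw [Real.exp_neg, ← div_eq_mul_inv, div_le_one (Real.exp_pos _)]
    have h3 : Real.exp (3 * y) ≤ Real.exp (p * m / 4) := Real.exp_le_exp.mpr (by linarith)
    have h4 : Real.exp (3 * y) = Real.exp y * Real.exp y * Real.exp y := by
      rw [← Real.exp_add, ← Real.exp_add]; congr 1; ring
    have h5 : 12 * Real.exp y ≤ Real.exp y * Real.exp y * Real.exp y := by nlinarith
    linarith
  · intro c hc
    exact Nat.ceil_le.mpr hc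
  · have h : 2 * q ≤ 2 ^ (2 * q) := (Nat.lt_two_pow_self).le
    calc (2 * q) ^ (l * m) ≤ (2 ^ (2 * q)) ^ (l * m) := Nat.pow_le_pow_left h _
      _ = 2 ^ (2 * q * (l * m)) := (pow_mul _ _ _).symm
      _ < 2 ^ (2 * q * (l * m) + 1) := Nat.pow_lt_pow_right (by norm_num) (Nat.lt_succ_self _)
  · have xe : ∀ x : ℝ, x ≤ Real.exp x := fun x => by linarith [Real.add_one_le_exp x]
    have a1 : (N:ℝ) ≤ Real.exp (2 * k) := hNm.trans (xe _)
    have a2 : (4:ℝ) ^ r ≤ Real.exp (4 * k) := by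
      calc (4:ℝ) ^ r ≤ Real.exp 4 ^ r := pow_le_pow_left₀ (by norm_num) (xe 4) r
        _ = Real.exp (r * 4) := by rw [← Real.exp_nat_mul]
        _ ≤ Real.exp (4 * k) := Real.exp_le_exp.mpr (by linarith)
    have a3 : ((2 * q * (l * m) + 1 : ℕ) : ℝ) ≤ Real.exp (y + 5 * k) := by
      have e1 : ((2 * q * (l * m) + 1 : ℕ) : ℝ) = 2 * q * k + 1 := by push_cast; rw [hk]
      rw [e1, Real.exp_add]
      have e2 : 2 * (q:ℝ) * k + 1 ≤ Real.exp y * (5 * k) := by nlinarith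
      exact e2.trans (mul_le_mul_of_nonneg_left (xe _) (Real.exp_pos _).le)
    have a4 : (32:ℝ) ≤ Real.exp (32 * k) := by
      refine le_trans ?_ (xe _)
      linarith
    have a5 : (2:ℝ) ^ m ≤ Real.exp (2 * k) := by
      calc (2:ℝ) ^ m ≤ Real.exp 2 ^ m := pow_le_pow_left₀ (by norm_num) (xe 2) m
        _ = Real.exp (m * 2) := by rw [← Real.exp_nat_mul]
        _ ≤ Real.exp (2 * k) := Real.exp_le_exp.mpr (by linarith)
    have a6 : (2 * R + 12) ^ (l * m) ≤ Real.exp ((2 * R + 12) * k) := by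
      calc (2 * R + 12) ^ (l * m) ≤ Real.exp (2 * R + 12) ^ (l * m) :=
            pow_le_pow_left₀ (by linarith) (xe _) _
        _ = Real.exp ((l * m : ℕ) * (2 * R + 12)) := by rw [← Real.exp_nat_mul]
        _ = Real.exp ((2 * R + 12) * k) := by
            congr 1
            push_cast
            rw [hk]
            ring
    have a7 : (18:ℝ) ^ (l + 1) * Real.exp (-(γ / 2 * y)) ≤ Real.exp (-(γ / 4 * y)) := by
      calc (18:ℝ) ^ (l + 1) * Real.exp (-(γ / 2 * y))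
          ≤ Real.exp 18 ^ (l + 1) * Real.exp (-(γ / 2 * y)) := by
            gcongr
            exact xe 18
        _ = Real.exp ((l + 1 : ℕ) * 18 + -(γ / 2 * y)) := by
            rw [← Real.exp_nat_mul, ← Real.exp_add]
        _ ≤ Real.exp (-(γ / 4 * y)) := by
            apply Real.exp_le_exp.mpr
            push_cast
            linarith
    have a8 : ((18:ℝ) ^ (l + 1) * Real.exp (-(γ / 2 * y))) ^ ⌈p * m / 4⌉₊ ≤
        Real.exp (-(γ / 16 * (p * y * m))) := by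
      have hn : p * m / 4 ≤ (⌈p * m / 4⌉₊ : ℝ) := Nat.le_ceil _
      calc ((18:ℝ) ^ (l + 1) * Real.exp (-(γ / 2 * y))) ^ ⌈p * m / 4⌉₊
          ≤ Real.exp (-(γ / 4 * y)) ^ ⌈p * m / 4⌉₊ := pow_le_pow_left₀ (by positivity) a7 _
        _ = Real.exp ((⌈p * m / 4⌉₊ : ℝ) * (-(γ / 4 * y))) := by rw [← Real.exp_nat_mul]
        _ ≤ Real.exp (-(γ / 16 * (p * y * m))) := by
            apply Real.exp_le_exp.mpr
            have h1 : (γ / 4 * y) * (p * m / 4) ≤ (γ / 4 * y) * (⌈p * m / 4⌉₊ : ℝ) :=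
              mul_le_mul_of_nonneg_left hn (by positivity)
            have h2 : (γ / 4 * y) * (p * m / 4) = γ / 16 * (p * y * m) := by ring
            linarith
    calc (N : ℝ) * (4 ^ r * (((2 * q * (l * m) + 1 : ℕ) : ℝ) * (32 * 2 ^ m * (2 * R + 12) ^ (l * m) *
      (18 ^ (l + 1) * Real.exp (-(γ / 2 * y))) ^ ⌈p * m / 4⌉₊)))
        ≤ Real.exp (2 * k) * (Real.exp (4 * k) * (Real.exp (y + 5 * k) * (Real.exp (32 * k) *
            Real.exp (2 * k) * Real.exp ((2 * R + 12) * k) * Real.exp (-(γ / 16 * (p * y * m)))))) := by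
          gcongr
      _ = Real.exp (y + (57 + 2 * R) * k - γ / 16 * (p * y * m)) := by
          simp only [← Real.exp_add]
          congr 1
          ring
      _ < Real.exp (-((N : ℝ) * Real.log q / Real.log (Real.log q) ^ 5)) := by
          apply Real.exp_lt_exp.mpr
          have b1 : (58 + 2 * R) * k ≤ γ / 32 * (p * y * m) := by
            have := mul_le_mul_of_nonneg_right hpy hm0
            have e1 : 32 * (58 + 2 * R) * (l:ℝ) * m = 32 * ((58 + 2 * R) * k) := by rw [hk]; ring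
            have e2 : γ * (p * y) * m = 32 * (γ / 32 * (p * y * m)) := by ring
            rw [e1, e2] at this
            linarith
          have b2 : (N : ℝ) * Real.log q / Real.log (Real.log q) ^ 5 < γ / 32 * (p * y * m) := by
            rw [div_lt_iff₀ (by linarith)]
            have c1 : (N:ℝ) * Real.log q ≤ (2 * k) * (2 * y) :=
              mul_le_mul hNm hLq2 (by linarith) (by linarith)
            have hmy : 0 < (m:ℝ) * y := by positivity
            have c2 : (m * y) * (128 * (l:ℝ)) < (m * y) * (γ * (p * L ^ 5)) :=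
              mul_lt_mul_of_pos_left hpL2 hmy
            have c3 : γ / 32 * (p * y * m) * L ^ 5 ≤ γ / 32 * (p * y * m) * Real.log (Real.log q) ^ 5 :=
              mul_le_mul_of_nonneg_left hLL5 (by positivity)
            have e1 : (2 * k) * (2 * y) = (m * y) * (128 * (l:ℝ)) / 32 := by rw [hk]; ring
            have e2 : γ / 32 * (p * y * m) * L ^ 5 = (m * y) * (γ * (p * L ^ 5)) / 32 := by ring
            rw [e1] at c1
            rw [e2] at c3
            linarith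
          have b3 : y ≤ k := hym.trans hmk
          linarith

end NUMDx

theorem NUMD_main : S_NUMD := by
  intro hA l γ R η hl hγ hR hη
  have hl' : (1:ℝ) ≤ l := by exact_mod_cast hl
  set D : ℝ := 64 * l + 72 * ((l:ℝ) + 1) / γ + 32 * (58 + 2 * R) * l / γ + 128 * l / γ + 1 / η + 10 with hD
  have t1 : 0 ≤ 64 * (l:ℝ) := by positivity
  have t2 : 0 ≤ 72 * ((l:ℝ) + 1) / γ := by positivity
  have t3 : 0 ≤ 32 * (58 + 2 * R) * l / γ := by positivity
  have t4 : 0 ≤ 128 * (l:ℝ) / γ := by positivity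
  have t5 : 0 ≤ 1 / η := by positivity
  have hD10 : 10 ≤ D := by linarith
  have hDD : D ≤ D ^ 2 := by nlinarith
  have hD1 : 1 < D ^ 2 := by nlinarith
  obtain ⟨X₀, hX1, hX⟩ := hA l (D ^ 2) hD1.le
  refine ⟨Real.exp (-X₀), Real.exp_pos _, ?_, fun i => ?_⟩
  · rw [← Real.exp_zero]
    exact Real.exp_lt_exp.mpr (by linarith)
  obtain ⟨h1, h2, h3, h4⟩ := hX X₀ le_rfl i
  set y : ℝ := 2 ^ (i + 1) * X₀ with hy
  set p : ℝ := (1 / (((i : ℝ) + 1) * (i + 2))) ^ 2 / (2 * 3 ^ l) with hp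
  have hi : (0:ℝ) ≤ i := Nat.cast_nonneg i
  have hp0 : 0 < p := by rw [hp]; positivity
  have hp1 : p ≤ 1 := by
    rw [hp]
    have a1 : (1:ℝ) ≤ ((i : ℝ) + 1) * (i + 2) := by nlinarith
    have a2 : 1 / (((i : ℝ) + 1) * (i + 2)) ≤ 1 := by
      rw [div_le_one (by positivity)]; exact a1
    have a3 : (1 / (((i : ℝ) + 1) * (i + 2))) ^ 2 ≤ 1 := pow_le_one₀ (by positivity) a2
    have a4 : (1:ℝ) ≤ 3 ^ l := one_le_pow₀ (by norm_num)
    rw [div_le_one (by positivity)]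
    linarith
  have hyD : D ≤ y := hDD.trans h1
  have hpyD : D ≤ p * y := hDD.trans h3
  have hp2 : p ^ 2 ≤ 1 := pow_le_one₀ hp0.le hp1
  have hL1 : 1 ≤ Real.log y := by
    by_contra hlt
    have b1 : Real.log y ^ 9 ≤ 1 := pow_le_one₀ h2 (not_le.mp hlt).le
    have b2 : p ^ 2 * Real.log y ^ 9 ≤ 1 * 1 := mul_le_mul hp2 b1 (by positivity) (by norm_num)
    linarith
  have hpL : D ≤ p * Real.log y ^ 5 := by
    have b1 : D ^ 2 ≤ (p * Real.log y ^ 5) ^ 2 := by
      have e : (p * Real.log y ^ 5) ^ 2 = (p ^ 2 * Real.log y ^ 9) * Real.log y := by ring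
      rw [e]
      have : D ^ 2 * 1 ≤ (p ^ 2 * Real.log y ^ 9) * Real.log y :=
        mul_le_mul h4 hL1 (by norm_num) (by positivity)
      linarith
    exact (pow_le_pow_iff_left₀ (by linarith) (by positivity) two_ne_zero).mp b1
  have hy0 : 0 < y := by linarith
  have eρ : Real.exp (-X₀) ^ (2 ^ (i + 1)) = Real.exp (-y) := by
    rw [← Real.exp_nat_mul]
    congr 1
    push_cast
    rw [hy]
    ring
  have e1 : 1 / Real.exp (-X₀) ^ (2 ^ (i + 1)) = Real.exp y := by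
    rw [eρ, Real.exp_neg, one_div, inv_inv]
  have e2 : (Real.exp (-X₀) ^ (2 ^ (i + 1))) ^ (γ / 2) = Real.exp (-(γ / 2 * y)) := by
    rw [eρ, ← Real.exp_mul]
    congr 1
    ring
  have hq1 : Real.exp y ≤ (⌈Real.exp y⌉₊ : ℝ) := Nat.le_ceil _
  have hq2 : (⌈Real.exp y⌉₊ : ℝ) ≤ Real.exp y + 1 := (Nat.ceil_lt_add_one (Real.exp_pos _).le).le
  have hqpos : (0:ℝ) < (⌈Real.exp y⌉₊ : ℝ) := (Real.exp_pos y).trans_le hq1
  refine ⟨⌈Real.exp y⌉₊, by exact_mod_cast hqpos, by rw [e1]; exact hq1, ?_, ?_⟩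
  · have h5 : 1 / η < (⌈Real.exp y⌉₊ : ℝ) := by
      have := Real.add_one_le_exp y
      linarith
    rw [div_lt_iff₀ hqpos]
    rw [div_lt_iff₀ hη] at h5
    linarith
  · intro N hN
    rw [e2]
    refine NUMDx.core l γ R y p hl hγ hR hp0 hp1 _ hq1 hq2 (by linarith) ?_ ?_ hL1 (by linarith) ?_ N hN
    · have : 72 * ((l:ℝ) + 1) / γ ≤ y := by linarith
      rw [div_le_iff₀ hγ] at this
      linarith
    · have : 32 * (58 + 2 * R) * l / γ ≤ p * y := by linarith
      rw [div_le_iff₀ hγ] at this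
      linarith
    · have : 128 * (l:ℝ) / γ < p * Real.log y ^ 5 := by linarith
      rw [div_lt_iff₀ hγ] at this
      linarith

end Pool.Agent.H53.KH
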