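import Pool.Agent.H53.KH.Stm2

set_option autoImplicit false

/-! # Project KH, stub NUMG: numbers for an arbitrary sequence of scales -/

namespace Pool.Agent.H53.KH

open Filter

theorem numg_iter {C : ℝ} {x : ℕ → ℝ} (hC : 1 ≤ C) (hxC : ∀ N, x (N + 1) ≤ C * x N) (N k : ℕ) :
    x (N + k) ≤ C ^ k * x N := by
  induction k with
  | zero => simp
  | succ k ih =>
    calc x (N + (k + 1)) = x (N + k + 1) := by rw [add_assoc]
      _ ≤ C * x (N + k) := hxC _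
      _ ≤ C * (C ^ k * x N) := mul_le_mul_of_nonneg_left ih (by linarith)
      _ = C ^ (k + 1) * x N := by ring

theorem numg_two_le : (2 : ℝ) ≤ Real.exp 1 := by
  have := Real.exp_one_gt_d9
  linarith

/-- the last inequality -/
theorem numg_last (l m n M q : ℕ) (γ R C y p L c₂ A xN lg : ℝ) (hl : (1 : ℝ) ≤ l) (hm : (1 : ℝ) ≤ m) (hγ : 0 < γ)
    (hR : 1 ≤ R) (hC : 1 ≤ C) (hy : 3 ≤ y) (hp0 : 0 < p) (hp1 : p ≤ 1) (hc₂ : c₂ = Real.log (2 * R + 12))
    (hc0 : 0 ≤ c₂) (hA3 : 3 ≤ A)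
    (a3 : 256 * l * C ^ l ≤ A * γ) (a4 : 32 * (2 * l + 10 + l * c₂) ≤ A * γ)
    (a5 : 4 * (l + 1) * Real.log 18 ≤ A * γ) (hyA : A ≤ y) (hpy : A ≤ p * y)
    (hL1 : 1 ≤ L) (hpL : A ≤ p * L ^ 5) (hlg : L ≤ lg)
    (hx1 : 0 ≤ xN) (hx2 : xN ≤ C ^ l * (2 * y)) (hpm : 48 * y ≤ p * m)
    (hq : (q : ℝ) ≤ Real.exp (y + 1)) (hq1 : (1 : ℝ) ≤ q)
    (hM : M = 2 * q * (l * m) + 1) (hn : p * m / 4 ≤ n) :
    ((m * l + 1 : ℕ) : ℝ) * (M * (32 * 2 ^ m * (2 * R + 12) ^ (l * m) *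
      (18 ^ (l + 1) * (Real.exp (-y)) ^ (γ / 2)) ^ n)) <
      Real.exp (-(((m * l + 1 : ℕ) : ℝ) * xN / lg ^ 5)) := by
  have hlm : (1 : ℝ) ≤ (l : ℝ) * m := by nlinarith
  have hNr : ((m * l + 1 : ℕ) : ℝ) = (l : ℝ) * m + 1 := by push_cast; ring
  have b1 : ((m * l + 1 : ℕ) : ℝ) ≤ Real.exp ((l : ℝ) * m) := by
    rw [hNr]
    exact Real.add_one_le_exp _
  have b2 : (M : ℝ) ≤ Real.exp (1 + (y + 1) + (l : ℝ) * m) := by
    have h1 : (M : ℝ) = 2 * q * ((l : ℝ) * m) + 1 := by rw [hM]; push_cast; ring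
    have h2 : (l : ℝ) * m + 1 ≤ Real.exp ((l : ℝ) * m) := Real.add_one_le_exp _
    calc (M : ℝ) = 2 * q * ((l : ℝ) * m) + 1 := h1
      _ ≤ 2 * q * ((l : ℝ) * m + 1) := by nlinarith
      _ ≤ Real.exp 1 * Real.exp (y + 1) * Real.exp ((l : ℝ) * m) := by
          have := numg_two_le
          gcongr
      _ = Real.exp (1 + (y + 1) + (l : ℝ) * m) := by
          rw [Real.exp_add (1 + (y + 1)) ((l : ℝ) * m), Real.exp_add 1 (y + 1)]
  have b3 : (32 : ℝ) ≤ Real.exp 5 := by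
    have h1 : (2 : ℝ) ^ 5 ≤ Real.exp 1 ^ 5 := pow_le_pow_left₀ (by norm_num) numg_two_le 5
    rw [← Real.exp_nat_mul] at h1
    norm_num at h1
    exact h1
  have b4 : (2 : ℝ) ^ m ≤ Real.exp m := by
    have h1 : (2 : ℝ) ^ m ≤ Real.exp 1 ^ m := pow_le_pow_left₀ (by norm_num) numg_two_le m
    rw [← Real.exp_nat_mul] at h1
    simpa using h1
  have b5 : (2 * R + 12) ^ (l * m) ≤ Real.exp ((l : ℝ) * m * c₂) := by
    have h1 : Real.exp c₂ = 2 * R + 12 := by rw [hc₂]; exact Real.exp_log (by linarith)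
    rw [← h1, ← Real.exp_nat_mul]
    push_cast
    exact le_rfl
  have b6 : (18 ^ (l + 1) * (Real.exp (-y)) ^ (γ / 2)) ^ n ≤ Real.exp (-(γ / 16 * (y * (p * m)))) := by
    have h1 : (18 : ℝ) ^ (l + 1) * (Real.exp (-y)) ^ (γ / 2) ≤ Real.exp (-(γ * y / 4)) := by
      have h2 : (18 : ℝ) ^ (l + 1) = Real.exp (((l : ℝ) + 1) * Real.log 18) := by
        have h3 : Real.exp (Real.log 18) = 18 := Real.exp_log (by norm_num)
        have h4 : ((l : ℝ) + 1) = ((l + 1 : ℕ) : ℝ) := by push_cast; ring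
        rw [h4, Real.exp_nat_mul, h3]
      rw [h2, ← Real.exp_mul, ← Real.exp_add]
      apply Real.exp_le_exp.2
      nlinarith
    calc (18 ^ (l + 1) * (Real.exp (-y)) ^ (γ / 2)) ^ n ≤ (Real.exp (-(γ * y / 4))) ^ n :=
          pow_le_pow_left₀ (by positivity) h1 n
      _ = Real.exp ((n : ℝ) * (-(γ * y / 4))) := by rw [Real.exp_nat_mul]
      _ ≤ Real.exp (-(γ / 16 * (y * (p * m)))) := by
          apply Real.exp_le_exp.2
          have h5 : 0 ≤ γ * y := by positivity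
          nlinarith
  have b7 : ((m * l + 1 : ℕ) : ℝ) * (M * (32 * 2 ^ m * (2 * R + 12) ^ (l * m) *
      (18 ^ (l + 1) * (Real.exp (-y)) ^ (γ / 2)) ^ n)) ≤
      Real.exp ((l : ℝ) * m) * (Real.exp (1 + (y + 1) + (l : ℝ) * m) * (Real.exp 5 * Real.exp m *
        Real.exp ((l : ℝ) * m * c₂) * Real.exp (-(γ / 16 * (y * (p * m)))))) := by
    have hR0 : (0 : ℝ) ≤ 2 * R + 12 := by linarith
    gcongr
  refine lt_of_le_of_lt b7 ?_
  rw [← Real.exp_add, ← Real.exp_add, ← Real.exp_add, ← Real.exp_add, ← Real.exp_add]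
  apply Real.exp_lt_exp.2
  have hS : 0 < y * (p * m) := by positivity
  -- the quotient
  have hlg1 : 0 < lg := by linarith
  have hL5 : L ^ 5 ≤ lg ^ 5 := pow_le_pow_left₀ (by linarith) hlg 5
  have c1 : ((m * l + 1 : ℕ) : ℝ) * xN / lg ^ 5 ≤ γ / 64 * (y * (p * m)) := by
    rw [div_le_iff₀ (by positivity), hNr]
    calc ((l : ℝ) * m + 1) * xN ≤ (2 * ((l : ℝ) * m)) * (C ^ l * (2 * y)) := by
          apply mul_le_mul _ hx2 hx1 (by positivity)
          linarith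
      _ = (256 * l * C ^ l) * (m * y / 64) := by ring
      _ ≤ (A * γ) * (m * y / 64) := mul_le_mul_of_nonneg_right a3 (by positivity)
      _ = A * (γ * (m * y / 64)) := by ring
      _ ≤ (p * L ^ 5) * (γ * (m * y / 64)) := mul_le_mul_of_nonneg_right hpL (by positivity)
      _ ≤ (p * lg ^ 5) * (γ * (m * y / 64)) := by gcongr
      _ = γ / 64 * (y * (p * m)) * lg ^ 5 := by ring
  have c2 : (l : ℝ) * m + (1 + (y + 1) + (l : ℝ) * m + (5 + m + (l : ℝ) * m * c₂)) ≤ γ / 32 * (y * (p * m)) := by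
    have d1 : y ≤ m := by nlinarith
    have d2 : (l : ℝ) * m + (1 + (y + 1) + (l : ℝ) * m + (5 + m + (l : ℝ) * m * c₂)) ≤
        m * (2 * l + 10 + l * c₂) := by nlinarith
    refine le_trans d2 ?_
    have d3 : m * (2 * l + 10 + l * c₂) ≤ (m : ℝ) * (A * γ / 32) := by
      apply mul_le_mul_of_nonneg_left _ (by linarith)
      linarith
    refine le_trans d3 ?_
    calc (m : ℝ) * (A * γ / 32) = A * (m * γ / 32) := by ring
      _ ≤ (p * y) * (m * γ / 32) := mul_le_mul_of_nonneg_right hpy (by positivity)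
      _ = γ / 32 * (y * (p * m)) := by ring
  have c3 : 0 < γ * (y * (p * m)) := by positivity
  linarith

theorem NUMG_main : S_NUMG := by
  classical
  intro hA l γ R C x hl hγ hR hC hx hxt hxC hxN N₀
  obtain ⟨N₂, hN₂⟩ := eventually_atTop.1 hxN
  obtain ⟨N₃, hN₃⟩ : ∃ N₃ : ℕ, N₃ = max N₀ (max N₂ 1) := ⟨_, rfl⟩
  obtain ⟨c₂, hc₂⟩ : ∃ c₂ : ℝ, c₂ = Real.log (2 * R + 12) := ⟨_, rfl⟩
  have hc₂0 : 0 ≤ c₂ := by rw [hc₂]; exact Real.log_nonneg (by linarith)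
  have hl' : (1 : ℝ) ≤ l := by exact_mod_cast hl
  have h18 : 0 ≤ Real.log 18 := Real.log_nonneg (by norm_num)
  obtain ⟨A, hA1⟩ : ∃ A : ℝ, A = 96 * l + 256 * l * C ^ l / γ + 32 * (2 * l + 10 + l * c₂) / γ +
    4 * (l + 1) * Real.log 18 / γ + |x N₃| + 3 := ⟨_, rfl⟩
  have t1 : 0 ≤ 96 * (l : ℝ) := by positivity
  have t2 : 0 ≤ 256 * l * C ^ l / γ := by positivity
  have t3 : 0 ≤ 32 * (2 * l + 10 + l * c₂) / γ := by positivity
  have t4 : 0 ≤ 4 * (l + 1) * Real.log 18 / γ := by positivity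
  have t5 : 0 ≤ |x N₃| := abs_nonneg _
  have a1 : 3 ≤ A := by linarith
  have a2 : 96 * (l : ℝ) ≤ A := by linarith
  have a3 : 256 * l * C ^ l ≤ A * γ := by
    have : 256 * l * C ^ l / γ ≤ A := by linarith
    rwa [div_le_iff₀ hγ] at this
  have a4 : 32 * (2 * l + 10 + l * c₂) ≤ A * γ := by
    have : 32 * (2 * l + 10 + l * c₂) / γ ≤ A := by linarith
    rwa [div_le_iff₀ hγ] at this
  have a5 : 4 * (l + 1) * Real.log 18 ≤ A * γ := by
    have : 4 * (l + 1) * Real.log 18 / γ ≤ A := by linarith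
    rwa [div_le_iff₀ hγ] at this
  have a6 : x N₃ ≤ A := by linarith [le_abs_self (x N₃)]
  have a7 : A ≤ A ^ 2 := by nlinarith
  obtain ⟨X₀, hX₀, hX⟩ := hA l (A ^ 2) (by nlinarith)
  refine ⟨Real.exp (-X₀), Real.exp_pos _, ?_, ?_⟩
  · rw [Real.exp_lt_one_iff]
    linarith
  intro i
  obtain ⟨h1, h2, h3, h4⟩ := hX X₀ le_rfl i
  have hρ : Real.exp (-X₀) ^ (2 ^ (i + 1)) = Real.exp (-(2 ^ (i + 1) * X₀)) := by
    rw [← Real.exp_nat_mul]
    push_cast
    ring_nf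
  rw [hρ]
  obtain ⟨y, hy⟩ : ∃ y : ℝ, y = 2 ^ (i + 1) * X₀ := ⟨_, rfl⟩
  obtain ⟨p, hp⟩ : ∃ p : ℝ, p = (1 / (((i : ℝ) + 1) * (i + 2))) ^ 2 / (2 * 3 ^ l) := ⟨_, rfl⟩
  rw [← hy] at h1 h2 h3 h4 ⊢
  rw [← hp] at h3 h4 ⊢
  have hp0 : 0 < p := by rw [hp]; positivity
  have hp1 : p ≤ 1 := by
    rw [hp, div_le_one (by positivity)]
    have e1 : 1 / (((i : ℝ) + 1) * (i + 2)) ≤ 1 := by
      rw [div_le_one (by positivity)]
      nlinarith [(Nat.cast_nonneg i : (0 : ℝ) ≤ i)]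
    have e0 : 0 ≤ 1 / (((i : ℝ) + 1) * (i + 2)) := by positivity
    have h3l : (1 : ℝ) ≤ 3 ^ l := one_le_pow₀ (by norm_num)
    nlinarith
  have hy3 : 3 ≤ y := by linarith
  obtain ⟨L, hL⟩ : ∃ L : ℝ, L = Real.log y := ⟨_, rfl⟩
  rw [← hL] at h2 h4
  have hL1 : 1 ≤ L := by
    rw [hL, Real.le_log_iff_exp_le (by linarith)]
    have := Real.exp_one_lt_d9
    linarith
  have hpL : A ≤ p * L ^ 5 := by
    have : A ^ 2 ≤ (p * L ^ 5) ^ 2 := by
      calc A ^ 2 ≤ p ^ 2 * L ^ 9 := h4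
        _ ≤ p ^ 2 * L ^ 10 := mul_le_mul_of_nonneg_left (pow_le_pow_right₀ hL1 (by norm_num)) (by positivity)
        _ = (p * L ^ 5) ^ 2 := by ring
    exact (pow_le_pow_iff_left₀ (by linarith) (by positivity) two_ne_zero).1 this
  have hex : ∃ m : ℕ, y + 1 ≤ x (m * l + 1) := by
    have h5 : Tendsto (fun m : ℕ => m * l + 1) atTop atTop :=
      tendsto_atTop_mono (fun m => by
        have := Nat.le_mul_of_pos_right m hl
        simp only [id]
        omega) tendsto_id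
    exact ((hxt.comp h5).eventually_ge_atTop (y + 1)).exists
  obtain ⟨m, hm, hmin⟩ : ∃ m : ℕ, y + 1 ≤ x (m * l + 1) ∧ ∀ m' < m, x (m' * l + 1) < y + 1 :=
    ⟨Nat.find hex, Nat.find_spec hex, fun m' hm' => not_le.1 (Nat.find_min hex hm')⟩
  have hbig : N₃ < m * l + 1 := by
    by_contra hcon
    have := hx (not_lt.1 hcon)
    linarith
  have hN0 : N₀ ≤ m * l + 1 := by
    have : N₀ ≤ N₃ := by rw [hN₃]; exact le_max_left _ _
    omega
  have hN2 : N₂ ≤ m * l + 1 := by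
    have : N₂ ≤ N₃ := by rw [hN₃]; exact le_trans (le_max_left _ _) (le_max_right _ _)
    omega
  have hN1 : 1 ≤ N₃ := by rw [hN₃]; exact le_trans (le_max_right _ _) (le_max_right _ _)
  have hm1 : 1 ≤ m := by
    rcases Nat.eq_zero_or_pos m with h | h
    · rw [h] at hbig
      omega
    · exact h
  have hm1' : (1 : ℝ) ≤ m := by exact_mod_cast hm1
  have hxu : x (m * l + 1) ≤ C ^ l * (2 * y) := by
    obtain ⟨m', rfl⟩ : ∃ m', m = m' + 1 := ⟨m - 1, by omega⟩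
    have h5 : (m' + 1) * l + 1 = m' * l + 1 + l := by ring
    rw [h5]
    refine le_trans (numg_iter hC hxC _ _) ?_
    have h6 := hmin m' (Nat.lt_succ_self m')
    have h7 : (0 : ℝ) < C ^ l := by positivity
    exact mul_le_mul_of_nonneg_left (by linarith) h7.le
  have hxl := hN₂ (m * l + 1) hN2
  have hlg : L ≤ Real.log (x (m * l + 1)) := by
    rw [hL]
    exact Real.log_le_log (by linarith) (by linarith)
  have hNl : y * L ^ 5 ≤ ((m * l + 1 : ℕ) : ℝ) := by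
    refine le_trans ?_ hxl
    apply mul_le_mul (by linarith) (pow_le_pow_left₀ (by linarith) hlg 5) (by positivity) (by linarith)
  have hNr : ((m * l + 1 : ℕ) : ℝ) = (l : ℝ) * m + 1 := by push_cast; ring
  have hlm : (1 : ℝ) ≤ (l : ℝ) * m := by nlinarith
  have hpm : 48 * y ≤ p * m := by
    have e1 : y * L ^ 5 ≤ 2 * (l * m) := by linarith
    have e2 : (p * L ^ 5) * y ≤ 2 * l * (p * m) := by nlinarith
    have e3 : A * y ≤ (p * L ^ 5) * y := mul_le_mul_of_nonneg_right hpL (by linarith)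
    have e4 : 96 * (l : ℝ) * y ≤ A * y := mul_le_mul_of_nonneg_right a2 (by linarith)
    have e5 : (2 * (l : ℝ)) * (48 * y) ≤ (2 * l) * (p * m) := by linarith
    exact le_of_mul_le_mul_left e5 (by linarith)
  obtain ⟨q, hq⟩ : ∃ q : ℕ, q = ⌈Real.exp y⌉₊ := ⟨_, rfl⟩
  have hey : 1 ≤ Real.exp y := Real.one_le_exp (by linarith)
  have hq1 : Real.exp y ≤ q := by rw [hq]; exact Nat.le_ceil _
  have hq2 : (q : ℝ) ≤ Real.exp y + 1 := by rw [hq]; exact (Nat.ceil_lt_add_one (by positivity)).le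
  have hq3 : (q : ℝ) ≤ Real.exp (y + 1) := by
    rw [Real.exp_add]
    have := numg_two_le
    nlinarith
  have hq4 : (1 : ℝ) ≤ q := by linarith
  have hq5 : 0 < q := by
    have : (0 : ℝ) < q := by linarith
    exact_mod_cast this
  refine ⟨q, m, ⌈p * m / 4⌉₊, 2 * q * (l * m) + 1, hq5, ?_, hN0, ?_, ?_, ?_, ?_, ?_, ?_⟩
  · rw [Real.exp_neg, one_div, inv_inv]
    exact hq1
  · apply Nat.ceil_le.2
    nlinarith
  · have e1 : 4 * ((q : ℝ) + 1) ≤ Real.exp (y + 4) := by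
      have e2 : 4 * ((q : ℝ) + 1) ≤ 12 * Real.exp y := by linarith
      have e3 : (16 : ℝ) ≤ Real.exp 4 := by
        have h5 : (2 : ℝ) ^ 4 ≤ Real.exp 1 ^ 4 := pow_le_pow_left₀ (by norm_num) numg_two_le 4
        rw [← Real.exp_nat_mul] at h5
        norm_num at h5
        exact h5
      rw [Real.exp_add]
      nlinarith
    calc 4 * ((q : ℝ) + 1) * Real.exp (-(p * m / 4)) ≤ Real.exp (y + 4) * Real.exp (-(p * m / 4)) :=
          mul_le_mul_of_nonneg_right e1 (Real.exp_pos _).le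
      _ = Real.exp (y + 4 - p * m / 4) := by rw [← Real.exp_add]; ring_nf
      _ ≤ 1 := by
          rw [Real.exp_le_one_iff]
          linarith
  · intro c hc
    exact Nat.ceil_le.2 hc
  · calc (2 * q) ^ (l * m) ≤ (2 ^ (2 * q)) ^ (l * m) := Nat.pow_le_pow_left Nat.lt_two_pow_self.le _
      _ = 2 ^ (2 * q * (l * m)) := by rw [← pow_mul]
      _ < 2 ^ (2 * q * (l * m) + 1) := Nat.pow_lt_pow_right (by norm_num) (Nat.lt_succ_self _)
  · calc Real.exp (-x (m * l + 1)) ≤ Real.exp (-(y + 1)) := Real.exp_le_exp.2 (by linarith)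
      _ = 1 / Real.exp (y + 1) := by rw [Real.exp_neg, one_div]
      _ ≤ 1 / q := one_div_le_one_div_of_le (by linarith) hq3
  · have hyA : A ≤ y := by linarith
    exact numg_last l m _ _ q γ R C y p L c₂ A (x (m * l + 1)) _ hl' hm1' hγ hR hC hy3 hp0 hp1 hc₂ hc₂0 a1
      a3 a4 a5 hyA (by linarith) hL1 hpL hlg (by linarith) hxu hpm hq3 hq4 rfl (Nat.le_ceil _)

end Pool.Agent.H53.KH
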