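import Pool.Agent.H53.KH.Stm

set_option autoImplicit false

/-! # KH-ONE: counting good shears and shifts -/

namespace Pool.Agent.H53.KH

open Set

theorem ONE_main : S_ONE := by
  intro l q w G T hq hw hG hGc hT hTc u hu j hj0 hjq
  classical
  obtain ⟨E, hE⟩ : ∃ E : Finset (Σ _ : (Fin l → ℤ), ℤ), E = G.sigma T := ⟨_, rfl⟩
  have hEc : w ^ 2 * (2 * q) ^ l * q ≤ (E.card : ℝ) := by
    rw [hE, Finset.card_sigma]
    push_cast
    have h1 : ∑ g ∈ G, w * (q : ℝ) ≤ ∑ g ∈ G, ((T g).card : ℝ) := Finset.sum_le_sum hTc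
    rw [Finset.sum_const, nsmul_eq_mul] at h1
    have h2 : w * (2 * q) ^ l * (w * q) ≤ (G.card : ℝ) * (w * q) :=
      mul_le_mul_of_nonneg_right hGc (by positivity)
    calc w ^ 2 * (2 * q) ^ l * q = w * (2 * q) ^ l * (w * q) := by ring
      _ ≤ _ := h2
      _ ≤ _ := h1
  have hinj : Function.Injective (fun x : (Σ _ : (Fin l → ℤ), ℤ) =>
      ((u - x.1, x.2 - j) : (Fin l → ℤ) × ℤ)) := by
    rintro ⟨g, t⟩ ⟨g', t'⟩ h
    simp only [Prod.mk.injEq] at h
    obtain ⟨h1, h2⟩ := h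
    have h3 : g = g' := sub_right_injective h1
    have h4 : t = t' := by omega
    subst h3
    subst h4
    rfl
  have hsub : ((E.image (fun x => ((u - x.1, x.2 - j) : (Fin l → ℤ) × ℤ)) :
      Finset ((Fin l → ℤ) × ℤ)) : Set ((Fin l → ℤ) × ℤ)) ⊆
      {ω | ω ∈ Om1 l q ∧ Gd G T u j ω} := by
    intro ω hω
    obtain ⟨⟨g, t⟩, hgt, rfl⟩ := Finset.mem_image.1 (Finset.mem_coe.1 hω)
    rw [hE, Finset.mem_sigma] at hgt
    obtain ⟨hg, ht⟩ := hgt
    simp only at hg ht
    have ht' := Finset.mem_Ico.1 (hT g hg ht)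
    refine ⟨?_, ?_⟩
    · unfold Om1
      rw [Finset.mem_product, Fintype.mem_piFinset, Finset.mem_Ico]
      refine ⟨fun i => ?_, ?_, ?_⟩
      · rw [Finset.mem_Icc]
        have h1 := hu i
        have h2 := hG g hg i
        simp only [Pi.sub_apply]
        constructor <;> omega
      · simp only
        omega
      · simp only
        omega
    · refine ⟨?_, ?_⟩
      · simp only [sub_sub_cancel]
        exact hg
      · have e : j + (t - j) = t := by ring
        simp only [sub_sub_cancel, e]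
        exact ht
  have hfin : ({ω | ω ∈ Om1 l q ∧ Gd G T u j ω} : Set ((Fin l → ℤ) × ℤ)).Finite :=
    (Om1 l q).finite_toSet.subset (fun ω h => h.1)
  have h1 := Set.ncard_le_ncard hsub hfin
  rw [Set.ncard_coe_finset, Finset.card_image_of_injective _ hinj] at h1
  have h2 : (E.card : ℝ) ≤ (({ω | ω ∈ Om1 l q ∧ Gd G T u j ω} : Set _).ncard : ℝ) := by
    exact_mod_cast h1
  refine le_trans ?_ (hEc.trans h2)
  have h3 : (Om1 l q).card = (4 * q + 1) ^ l * (2 * q) := by
    unfold Om1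
    rw [Finset.card_product, Fintype.card_piFinset, Finset.prod_const, Finset.card_univ,
      Fintype.card_fin, Int.card_Icc, Int.card_Ico]
    congr 1
    · congr 1
      omega
    · omega
  rw [h3]
  push_cast
  have h4 : ((4 * (q : ℝ) + 1) ^ l) ≤ (3 * (2 * q)) ^ l := by
    refine pow_le_pow_left₀ (by positivity) ?_ l
    have : (1 : ℝ) ≤ q := by exact_mod_cast hq
    linarith
  rw [mul_pow] at h4
  calc w ^ 2 / (2 * 3 ^ l) * ((4 * (q : ℝ) + 1) ^ l * (2 * q))
      ≤ w ^ 2 / (2 * 3 ^ l) * (3 ^ l * (2 * q) ^ l * (2 * q)) :=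
        mul_le_mul_of_nonneg_left (mul_le_mul_of_nonneg_right h4 (by positivity)) (by positivity)
    _ = w ^ 2 * (2 * q) ^ l * q := by
        field_simp

end Pool.Agent.H53.KH
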