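import Pool.Agent.H53.KH.Stm3

set_option autoImplicit false

/-! # KH-PADS: padding by `r` coordinates (helper67) -/

namespace Pool.Agent.H53.KH

open Set Metric MeasureTheory Filter Topology Pool.Agent.H53.KD
open scoped ENNReal

theorem PADS_main : S_PADS := by
  intro m l r q K hq hK
  have hqr : (0:ℝ) < q := by exact_mod_cast hq
  have hq1 : (1 : ℝ) / q ≤ 1 := by
    rw [div_le_one hqr]
    exact_mod_cast hq
  obtain ⟨B, hB⟩ : ∃ B : Set (ℝ × (Fin r → ℝ)), B = Icc (0:ℝ) 1 ×ˢ Icc (-1 : Fin r → ℝ) 1 := ⟨_, rfl⟩
  have hBc : IsCompact B := by rw [hB]; exact isCompact_Icc.prod isCompact_Icc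
  have hcls : Cls ((Fin m × Fin l) ⊕ Fin r) (fun _ => (1 : ℝ) / q)
      (fun _ => 4 ^ r * volume (thickening (1 / q : ℝ) K)) := by
    refine ⟨fib 0 K B, ⟨isCompact_fib 0 hK.1 hBc, ?_⟩, fun _ => ?_⟩
    · intro v hv
      obtain ⟨a, ha⟩ := hK.2 (fun i => v (Sum.inl i)) (fun i => hv _)
      refine ⟨Sum.elim a 0, fun t ht => ⟨?_, ?_⟩⟩
      · exact ha t ht
      · rw [hB]
        have h1 : ∀ i, |t * v (Sum.inr i)| ≤ 1 := fun i => by
          rw [abs_mul, abs_of_nonneg ht.1]
          exact mul_le_one₀ ht.2 (abs_nonneg _) (hv _)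
        refine ⟨?_, ?_, ?_⟩
        · simpa using ht
        · intro i
          have := (abs_le.1 (h1 i)).1
          simpa using this
        · intro i
          have := (abs_le.1 (h1 i)).2
          simpa using this
    · refine (measure_mono (thickening_fib 0 ((1 : ℝ) / q) K B)).trans ?_
      rw [volume_fib 0 isOpen_thickening isOpen_thickening,
        ← lintegral_section (A := thickening ((1 : ℝ) / q) K) isOpen_thickening,
        ← lintegral_const_mul _ (measurable_section isOpen_thickening)]
      refine lintegral_mono fun t => ?_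
      rw [mul_comm]
      refine mul_le_mul' ?_ le_rfl
      calc volume (Prod.mk (t + 0) ⁻¹' thickening ((1 : ℝ) / q) B)
          ≤ volume (Set.pi univ (fun _ : Fin r => Ioo (-2:ℝ) 2)) := by
            refine measure_mono ?_
            intro x hx
            rw [mem_preimage, mem_thickening_iff] at hx
            obtain ⟨p, hp, hd⟩ := hx
            rw [hB] at hp
            obtain ⟨_, hp1, hp2⟩ := hp
            intro i _
            have h1 := hp1 i
            have h2 := hp2 i
            simp only [Pi.neg_apply, Pi.one_apply] at h1 h2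
            have h3 : dist (x i) (p.2 i) < 1 := by
              refine lt_of_lt_of_le ?_ hq1
              refine lt_of_le_of_lt ?_ hd
              refine (dist_le_pi_dist x p.2 i).trans ?_
              rw [Prod.dist_eq]
              exact le_max_right _ _
            rw [Real.dist_eq, abs_lt] at h3
            constructor <;> linarith [h3.1, h3.2]
        _ = 4 ^ r := by
            rw [Real.volume_pi_Ioo]
            simp only [Finset.prod_const, Finset.card_univ, Fintype.card_fin]
            norm_num
  obtain ⟨K', h1, h2⟩ := cls_congr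
    ((Equiv.sumCongr finProdFinEquiv (Equiv.refl (Fin r))).trans finSumFinEquiv) hcls
  exact ⟨K', h1, h2 0⟩

end Pool.Agent.H53.KH
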