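import Pool.Agent.H53.KH.Stm

set_option autoImplicit false
set_option linter.unusedVariables false

/-! # KH-PREP: the product form of a Kakeya set, with the Hausdorff dimension -/

namespace Pool.Agent.H53.KH

open Set Metric MeasureTheory Filter Topology Pool.Agent.H53.KD
open scoped ENNReal Pointwise

theorem PREP_main : S_PREP := by
  intro l K hK
  obtain ⟨R, hR0, hR⟩ : ∃ R : ℝ, 0 ≤ R ∧ ∀ x ∈ K, ‖x‖ ≤ R := by
    obtain ⟨R, hR⟩ := hK.1.isBounded.subset_closedBall 0
    refine ⟨max R 0, le_max_right _ _, fun x hx => ?_⟩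
    have := hR hx
    rw [mem_closedBall, dist_zero_right] at this
    exact this.trans (le_max_left _ _)
  obtain ⟨s, hs⟩ : ∃ s : ℝ, s = √((l : ℝ) + 1) := ⟨_, rfl⟩
  have hs1 : 1 ≤ s := by
    rw [hs, Real.one_le_sqrt]
    have : (0:ℝ) ≤ l := Nat.cast_nonneg l
    linarith
  obtain ⟨h, hh⟩ : ∃ h : ℝ, h = 1 / (2 * s) := ⟨_, rfl⟩
  have hpos : 0 < h := by rw [hh]; positivity
  have hhs : h * s = 1 / 2 := by rw [hh]; field_simp
  obtain ⟨Q, hQ⟩ : ∃ Q : ℕ, R / h + 1 ≤ Q := exists_nat_ge _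
  obtain ⟨I, hI⟩ : ∃ I : Finset ℤ, I = Finset.Icc (-(Q : ℤ)) Q := ⟨_, rfl⟩
  have e1 : ∀ q : ℤ, Φ h q ⁻¹' K = (fun x : E (l + 1) => h⁻¹ • G 0 x - ((q : ℝ), (0 : Fin l → ℝ))) '' K := by
    intro q
    refine (congrFun (Set.image_eq_preimage_of_inverse
      (f := fun x : E (l + 1) => h⁻¹ • G 0 x - ((q : ℝ), (0 : Fin l → ℝ))) (g := Φ h q) ?_ ?_) K).symm
    · intro x
      simp only [Φ, sub_add_cancel]
      rw [smul_smul, mul_inv_cancel₀ hpos.ne', one_smul, g_G]
    · intro p
      simp only [Φ]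
      rw [G_g, smul_smul, inv_mul_cancel₀ hpos.ne', one_smul, add_sub_cancel_right]
  have hLip : ∀ q : ℤ, LipschitzWith h⁻¹.toNNReal
      (fun x : E (l + 1) => h⁻¹ • G 0 x - ((q : ℝ), (0 : Fin l → ℝ))) := by
    intro q
    refine LipschitzWith.of_dist_le_mul fun x y => ?_
    rw [dist_sub_right, dist_smul₀, Real.norm_of_nonneg (inv_nonneg.2 hpos.le),
      Real.coe_toNNReal _ (inv_nonneg.2 hpos.le)]
    exact mul_le_mul_of_nonneg_left (dist_G 0 x y) (inv_nonneg.2 hpos.le)
  refine ⟨⋃ q ∈ I, Φ h q ⁻¹' K, ⟨?_, ?_⟩, ?_⟩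
  · refine I.isCompact_biUnion fun q _ => ?_
    rw [e1]
    exact hK.1.image (hLip q).continuous
  · intro v hv
    obtain ⟨x, hx⟩ : ∃ x : E (l + 1), x = g 0 (1, v) := ⟨_, rfl⟩
    have hx0 : x 0 = 1 := by rw [hx]; simp [g]
    have hxs : ∀ i : Fin l, x i.succ = v i := by
      intro i
      rw [hx]; simp [g]
    have hL1 : 1 ≤ ‖x‖ := by
      have := PiLp.norm_apply_le x 0
      rw [hx0] at this
      simpa using this
    have hLs : ‖x‖ ≤ s := by
      have h1 := dist_g (1, v) (0 : ℝ × (Fin l → ℝ))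
      have h2 : g (0 : Fin (l + 1)) (0 : ℝ × (Fin l → ℝ)) = 0 := by
        ext i
        refine Fin.cases ?_ (fun j => ?_) i <;> simp [g]
      rw [h2, dist_zero_right, dist_zero_right, ← hx, ← hs] at h1
      refine h1.trans ?_
      have h3 : ‖((1:ℝ), v)‖ ≤ 1 := by
        rw [Prod.norm_def]
        refine max_le (by simp) ((pi_norm_le_iff_of_nonneg zero_le_one).2 fun i => hv i)
      nlinarith
    have hLpos : 0 < ‖x‖ := by linarith
    obtain ⟨a, ha⟩ := hK.2 (‖x‖⁻¹ • x) (by
      rw [norm_smul, norm_inv, norm_norm, inv_mul_cancel₀ hLpos.ne'])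
    have ha0 : |a 0| ≤ R := by
      have h1 := ha 0 ⟨le_rfl, zero_le_one⟩
      rw [zero_smul, add_zero] at h1
      exact (PiLp.norm_apply_le a 0).trans (hR a h1)
    obtain ⟨q, hq⟩ : ∃ q : ℤ, q = ⌈a 0 / h⌉ := ⟨_, rfl⟩
    have hq1 : a 0 ≤ h * q := by
      have := Int.le_ceil (a 0 / h)
      rw [← hq, div_le_iff₀ hpos] at this
      linarith
    have hq2 : h * q < a 0 + h := by
      have := Int.ceil_lt_add_one (a 0 / h)
      rw [← hq] at this
      have h1 : (q : ℝ) * h < (a 0 / h + 1) * h := mul_lt_mul_of_pos_right this hpos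
      have h2 : (a 0 / h + 1) * h = a 0 + h := by field_simp
      linarith
    have hqI : q ∈ I := by
      rw [hI, Finset.mem_Icc]
      have h0 : R / h * h = R := by field_simp
      have ha1 := abs_le.1 ha0
      have h3 : (R / h + 1) * h ≤ Q * h := mul_le_mul_of_nonneg_right hQ hpos.le
      have h4 : (q : ℝ) ≤ Q := by
        by_contra hcon
        push Not at hcon
        have : (Q : ℝ) * h < q * h := mul_lt_mul_of_pos_right hcon hpos
        nlinarith
      have h5 : -(Q : ℝ) ≤ q := by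
        by_contra hcon
        push Not at hcon
        have : (q : ℝ) * h < (-Q) * h := mul_lt_mul_of_pos_right hcon hpos
        nlinarith
      constructor
      · exact_mod_cast h5
      · exact_mod_cast h4
    refine ⟨fun i => (a i.succ + (h * q - a 0) * v i) / h, fun u hu => ?_⟩
    refine mem_iUnion₂.2 ⟨q, hqI, ?_⟩
    rw [mem_preimage]
    have ht := ha (‖x‖ * (h * (u + q) - a 0)) ⟨?_, ?_⟩
    · convert ht using 1
      ext i
      refine Fin.cases ?_ (fun j => ?_) i
      · simp [Φ, g, hx0]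
        field_simp
        ring
      · simp [Φ, g, hxs]
        field_simp
        ring
    · refine mul_nonneg hLpos.le ?_
      have : 0 ≤ h * u := mul_nonneg hpos.le hu.1
      nlinarith
    · have h1 : h * (u + q) - a 0 ≤ 2 * h := by
        have : h * u ≤ h * 1 := mul_le_mul_of_nonneg_left hu.2 hpos.le
        nlinarith
      have h2 : 0 ≤ h * (u + q) - a 0 := by
        have : 0 ≤ h * u := mul_nonneg hpos.le hu.1
        nlinarith
      calc ‖x‖ * (h * (u + q) - a 0) ≤ s * (2 * h) := mul_le_mul hLs h1 h2 (by linarith)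
        _ = 1 := by linarith
  · have hb : dimH (⋃ q ∈ (I : Set ℤ), Φ h q ⁻¹' K) ≤ dimH K := by
      rw [dimH_bUnion (I.countable_toSet)]
      refine iSup₂_le fun q _ => ?_
      rw [e1]
      exact (hLip q).dimH_image_le K
    simpa using hb

end Pool.Agent.H53.KH
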