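import Pool.Agent.H53.KH.Stm

set_option autoImplicit false

namespace Pool.Agent.H53.KH

open Set Metric MeasureTheory Filter Topology Pool.Agent.H53.KD
open scoped ENNReal

theorem PTSV_main : S_PTSV := by
  intro l q W G a T hq hW
  have hq' : (0:ℝ) < q := by exact_mod_cast hq
  obtain ⟨V, hV⟩ : ∃ V : ℤ → Set (Fin l → ℝ), V = fun j => thickening (4 / q : ℝ) (Pts q G a T j) := ⟨_, rfl⟩
  obtain ⟨S, hS⟩ : ∃ S : ℤ → Set (ℝ × (Fin l → ℝ)),
      S = fun (j : ℤ) => Ico ((j : ℝ) / q) (((j : ℝ) + 1) / q) ×ˢ V j := ⟨_, rfl⟩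
  have hSm : ∀ j, MeasurableSet (S j) := by
    intro j
    rw [hS, hV]
    exact measurableSet_Ico.prod isOpen_thickening.measurableSet
  have hvol : ∀ j, volume (S j) = ENNReal.ofReal (1 / q) * volume (V j) := by
    intro j
    rw [hS]
    show volume (Ico ((j : ℝ) / q) (((j : ℝ) + 1) / q) ×ˢ V j) = _
    rw [Measure.volume_eq_prod, Measure.prod_prod, Real.volume_Ico]
    congr 2
    ring
  have hsub : ∀ j, S j ⊆ thickening (8 / q : ℝ) W := by
    intro j p hp
    rw [hS, hV] at hp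
    obtain ⟨h1, h2⟩ := hp
    rw [mem_thickening_iff] at h2
    obtain ⟨y, hy, hxy⟩ := h2
    obtain ⟨g, hg, hj, rfl⟩ := hy
    have h3 := hW g hg j hj
    rw [mem_thickening_iff] at h3 ⊢
    obtain ⟨w, hw, h4⟩ := h3
    refine ⟨w, hw, ?_⟩
    have h5 : dist p (((j : ℝ) / q, fun i => a g i + (j : ℝ) / q * ((g i : ℝ) / q)) : ℝ × (Fin l → ℝ)) <
        4 / q := by
      rw [Prod.dist_eq]
      refine max_lt ?_ hxy
      rw [Real.dist_eq, abs_lt]
      obtain ⟨h6, h7⟩ := h1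
      rw [add_div] at h7
      have h8 : (1:ℝ) / q ≤ 4 / q := by gcongr; norm_num
      have h9 : (0:ℝ) < 4 / q := by positivity
      constructor
      · show _ < p.1 - (j : ℝ) / q
        linarith
      · show p.1 - (j : ℝ) / q < _
        linarith
    calc dist p w ≤ _ + _ := dist_triangle _ _ _
      _ < 4 / q + 3 / q := add_lt_add h5 h4
      _ = 7 / q := by ring
      _ ≤ 8 / q := by gcongr; norm_num
  have hdisj : (↑(Finset.Ico 0 (q : ℤ)) : Set ℤ).PairwiseDisjoint S := by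
    intro i _ j _ hij
    rw [Function.onFun, Set.disjoint_left]
    intro p h1 h2
    rw [hS] at h1 h2
    obtain ⟨⟨h3, h4⟩, -⟩ := h1
    obtain ⟨⟨h5, h6⟩, -⟩ := h2
    have e1 : (i : ℝ) < j + 1 := by
      have := lt_of_le_of_lt h3 h6
      rwa [div_lt_div_iff_of_pos_right hq'] at this
    have e2 : (j : ℝ) < i + 1 := by
      have := lt_of_le_of_lt h5 h4
      rwa [div_lt_div_iff_of_pos_right hq'] at this
    have e3 : i < j + 1 := by exact_mod_cast e1
    have e4 : j < i + 1 := by exact_mod_cast e2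
    exact hij (by omega)
  have hsum : ∑ j ∈ Finset.Ico 0 (q : ℤ), volume (S j) ≤ volume (thickening (8 / q : ℝ) W) := by
    rw [← measure_biUnion_finset hdisj (fun j _ => hSm j)]
    exact measure_mono (iUnion₂_subset fun j _ => hsub j)
  have e0 : (q : ℝ≥0∞) * ENNReal.ofReal (1 / q) = 1 := by
    rw [← ENNReal.ofReal_natCast, ← ENNReal.ofReal_mul hq'.le, mul_one_div_cancel hq'.ne', ENNReal.ofReal_one]
  calc ∑ j ∈ Finset.Ico 0 (q : ℤ), volume (thickening (4 / q : ℝ) (Pts q G a T j))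
      = ∑ j ∈ Finset.Ico 0 (q : ℤ), (q : ℝ≥0∞) * volume (S j) := by
        refine Finset.sum_congr rfl fun j _ => ?_
        rw [hvol, ← mul_assoc, e0, one_mul, hV]
    _ = (q : ℝ≥0∞) * ∑ j ∈ Finset.Ico 0 (q : ℤ), volume (S j) := by rw [Finset.mul_sum]
    _ ≤ _ := by gcongr

end Pool.Agent.H53.KH
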