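import Pool.Agent.H53.KH.Stm

set_option autoImplicit false

/-! KH-SET (helper39): the compact set. -/

namespace Pool.Agent.H53.KH

open Set Metric MeasureTheory Filter Topology Pool.Agent.H53.KD
open scoped ENNReal

theorem SET_main : S_SET := by
  classical
  intro l m q n R G a T W hq hR h
  have hq' : (0 : ℝ) < q := by exact_mod_cast hq
  set K : Set (ℝ × (Fin m × Fin l → ℝ)) := ⋃ ω ∈ W, ⋃ j ∈ Finset.Icc 0 (q : ℤ),
    (Icc (0 : ℝ) 1 ∩ closedBall ((j : ℝ) / q) (1 / q)) ×ˢ cthickening (2 / q : ℝ) (Sl m q n R G a T ω j) with hK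
  have hSlb : ∀ ω j, Bornology.IsBounded (Sl m q n R G a T ω j) := by
    intro ω j
    refine (Metric.isBounded_closedBall (x := (0 : Fin m × Fin l → ℝ)) (r := R + 2)).subset ?_
    intro x hx
    rw [mem_closedBall, dist_zero_right, pi_norm_le_iff_of_nonneg (by linarith)]
    intro b
    rw [Real.norm_eq_abs]
    exact hx.1 b
  refine ⟨K, ⟨?_, ?_⟩, ?_⟩
  · refine W.finite_toSet.isCompact_biUnion fun ω _ => ?_
    refine (Finset.Icc 0 (q : ℤ)).finite_toSet.isCompact_biUnion fun j _ => ?_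
    refine IsCompact.prod ?_ ?_
    · exact isCompact_Icc.inter_right isClosed_closedBall
    · exact Metric.isCompact_of_isClosed_isBounded isClosed_cthickening (hSlb ω j).cthickening
  · intro v hv
    set u : Fin m → Fin l → ℤ := fun b i => min ⌊v (b, i) * q⌋ (q - 1) with hu
    have hu1 : ∀ b i, -(q : ℤ) ≤ u b i ∧ u b i < q := by
      intro b i
      have hvb := abs_le.1 (hv (b, i))
      constructor
      · apply le_min
        · apply Int.le_floor.2
          push_cast
          nlinarith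
        · have : (1 : ℤ) ≤ q := by exact_mod_cast hq
          linarith
      · exact lt_of_le_of_lt (min_le_right _ _) (by linarith)
    have hu2 : ∀ b : Fin m × Fin l, |v b - (u b.1 b.2 : ℝ) / q| ≤ 1 / q := by
      rintro ⟨b, i⟩
      have hvb := abs_le.1 (hv (b, i))
      have h1 := Int.floor_le (v (b, i) * q)
      have h2 := Int.lt_floor_add_one (v (b, i) * q)
      have h3 : v (b, i) * q ≤ q := by nlinarith
      have e1 : v (b, i) - (u b i : ℝ) / q = (v (b, i) * q - (u b i : ℝ)) / q := by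
        field_simp
      show |v (b, i) - (u b i : ℝ) / q| ≤ 1 / q
      rw [e1, abs_div, abs_of_pos hq']
      apply div_le_div_of_nonneg_right _ hq'.le
      have e2 : (u b i : ℝ) = min (⌊v (b, i) * q⌋ : ℝ) ((q : ℝ) - 1) := by
        simp only [hu]
        push_cast
        rfl
      rw [e2, abs_le]
      rcases min_cases (⌊v (b, i) * q⌋ : ℝ) ((q : ℝ) - 1) with ⟨h4, h5⟩ | ⟨h4, h5⟩
      · rw [h4]; constructor <;> linarith
      · rw [h4]; constructor <;> linarith
    have hu3 : ∀ b : Fin m × Fin l, |(u b.1 b.2 : ℝ) / q| ≤ 1 := by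
      intro b
      rw [abs_div, abs_of_pos hq', div_le_one hq', abs_le]
      have := hu1 b.1 b.2
      constructor
      · exact_mod_cast this.1
      · exact_mod_cast this.2.le
    obtain ⟨ω, hω, A, hA⟩ := h u hu1
    refine ⟨A, fun t ht => ?_⟩
    have hj0 : 0 ≤ ⌊t * q⌋ := Int.floor_nonneg.2 (mul_nonneg ht.1 hq'.le)
    have hj1 : ⌊t * q⌋ ≤ q := by
      have : (⌊t * q⌋ : ℝ) ≤ q := (Int.floor_le _).trans (by nlinarith [ht.2])
      exact_mod_cast this
    have hj2 : |t - (⌊t * q⌋ : ℝ) / q| ≤ 1 / q := by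
      have h1 := Int.floor_le (t * q)
      have h2 := Int.lt_floor_add_one (t * q)
      have e1 : t - (⌊t * q⌋ : ℝ) / q = (t * q - (⌊t * q⌋ : ℝ)) / q := by field_simp
      rw [e1, abs_div, abs_of_pos hq']
      apply div_le_div_of_nonneg_right _ hq'.le
      rw [abs_le]; constructor <;> linarith
    simp only [hK, mem_iUnion]
    refine ⟨ω, hω, ⌊t * q⌋, Finset.mem_Icc.2 ⟨hj0, hj1⟩, ⟨ht, ?_⟩, ?_⟩
    · rw [mem_closedBall, Real.dist_eq]; exact hj2
    · refine mem_cthickening_of_dist_le _ _ _ _ (hA ⌊t * q⌋ hj0 hj1) ?_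
      rw [dist_pi_le_iff (by positivity)]
      intro b
      rw [Real.dist_eq]
      simp only [Pi.add_apply, Pi.smul_apply, smul_eq_mul]
      have e1 : A b + t * v b - (A b + (⌊t * q⌋ : ℝ) / q * ((u b.1 b.2 : ℝ) / q)) =
          t * (v b - (u b.1 b.2 : ℝ) / q) + (t - (⌊t * q⌋ : ℝ) / q) * ((u b.1 b.2 : ℝ) / q) := by ring
      rw [e1]
      refine (abs_add_le _ _).trans ?_
      rw [abs_mul, abs_mul, abs_of_nonneg ht.1]
      have h1 := hu2 b
      have h2 := hu3 b
      have h3 : t * |v b - (u b.1 b.2 : ℝ) / q| ≤ 1 * (1 / q) :=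
        mul_le_mul ht.2 h1 (abs_nonneg _) zero_le_one
      have h4 : |t - (⌊t * q⌋ : ℝ) / q| * |(u b.1 b.2 : ℝ) / q| ≤ (1 / q) * 1 :=
        mul_le_mul hj2 h2 (abs_nonneg _) (by positivity)
      have : (2 : ℝ) / q = 1 * (1 / q) + (1 / q) * 1 := by ring
      rw [this]
      exact add_le_add h3 h4
  · have hsub : thickening (1 / q : ℝ) K ⊆ ⋃ ω ∈ W, ⋃ j ∈ Finset.Icc 0 (q : ℤ),
        ball ((j : ℝ) / q) (2 / q) ×ˢ thickening (4 / q : ℝ) (Sl m q n R G a T ω j) := by
      intro p hp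
      rw [mem_thickening_iff] at hp
      obtain ⟨p', hp', hpp⟩ := hp
      simp only [hK, mem_iUnion] at hp' ⊢
      obtain ⟨ω, hω, j, hj, ⟨⟨-, h1⟩, h2⟩⟩ := hp'
      rw [Prod.dist_eq, max_lt_iff] at hpp
      refine ⟨ω, hω, j, hj, ⟨?_, ?_⟩⟩
      · rw [mem_closedBall] at h1
        show p.1 ∈ ball _ _
        rw [mem_ball]
        calc dist p.1 ((j : ℝ) / q) ≤ dist p.1 p'.1 + dist p'.1 ((j : ℝ) / q) := dist_triangle _ _ _
          _ < 1 / q + 1 / q := add_lt_add_of_lt_of_le hpp.1 h1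
          _ = 2 / q := by ring
      · show p.2 ∈ _
        have h3 : p.2 ∈ thickening (1 / q : ℝ) (cthickening (2 / q : ℝ) (Sl m q n R G a T ω j)) :=
          mem_thickening_iff.2 ⟨p'.2, h2, hpp.2⟩
        refine thickening_mono ?_ _ (thickening_cthickening_subset (1 / q : ℝ) (by positivity) _ h3)
        rw [← add_div]
        exact div_le_div_of_nonneg_right (by norm_num) hq'.le
    refine (measure_mono hsub).trans ((measure_biUnion_finset_le _ _).trans ?_)
    refine Finset.sum_le_sum fun ω _ => (measure_biUnion_finset_le _ _).trans ?_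
    refine Finset.sum_le_sum fun j _ => ?_
    rw [Measure.volume_eq_prod, Measure.prod_prod, Real.volume_ball]
    apply le_of_eq
    congr 2
    ring

end Pool.Agent.H53.KH
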