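import Pool.Agent.H53.KD.Dim

set_option autoImplicit false

/-! # Project KH: Hausdorff dimension of Kakeya sets from one scale in high dimensions

Prove each `S_XXX` as `theorem Pool.Agent.H53.KH.XXX_main : S_XXX` in the file `Pool/Agent/H53/KH/XXX.lean`.
Distances in `ℝ × (Fin l → ℝ)` and `Fin l → ℝ` are those of the sup norm. `thickening` is open. -/

namespace Pool.Agent.H53.KH

open Set Metric MeasureTheory Filter Topology Pool.Agent.H53.KD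
open scoped ENNReal

/-- the points at the time `j / q` of the grid lines with index `g ∈ G`, `j ∈ T g` -/
def Pts {l : ℕ} (q : ℕ) (G : Finset (Fin l → ℤ)) (a : (Fin l → ℤ) → (Fin l → ℝ)) (T : (Fin l → ℤ) → Finset ℤ)
    (j : ℤ) : Set (Fin l → ℝ) :=
  {x | ∃ g ∈ G, j ∈ T g ∧ x = fun i => a g i + (j : ℝ) / q * ((g i : ℝ) / q)}

/-- many grid lines, each with many grid times, and the `4 / q`-neighbourhood of the points is small -/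
structure Data (l : ℕ) (R : ℝ) (q : ℕ) (w β : ℝ) (G : Finset (Fin l → ℤ)) (a : (Fin l → ℤ) → (Fin l → ℝ))
    (T : (Fin l → ℤ) → Finset ℤ) : Prop where
  box : ∀ g ∈ G, ∀ i, -(q : ℤ) ≤ g i ∧ g i < q
  card : w * (2 * q) ^ l ≤ (G.card : ℝ)
  bound : ∀ g ∈ G, ∀ i, |a g i| ≤ R
  time : ∀ g ∈ G, T g ⊆ Finset.Ico 0 (q : ℤ)
  shade : ∀ g ∈ G, w * q ≤ ((T g).card : ℝ)
  vol : ∑ j ∈ Finset.Ico 0 (q : ℤ), volume (thickening (4 / q : ℝ) (Pts q G a T j)) ≤ ENNReal.ofReal (q * β)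

/-- PREP (70 lines). Copy the proof of `Pool.Agent.H53.KD.cls_of_kakeya` (file `Pool/Agent/H53/KD/Euc.lean`): the
set is `⋃ q ∈ I, Φ h q ⁻¹' K`; the parts 1 and 2 of that proof show that it is `Prep`. For the dimension:
`Φ h q ⁻¹' K` is the image of `K` under the Lipschitz map `x ↦ h⁻¹ • G 0 x - (q, 0)` (shown there, `e1`), use
`LipschitzWith.dimH_image_le`, `dimH_bUnion`. -/
def S_PREP : Prop := ∀ (l : ℕ) (K : Set (E (l + 1))), IsKakeya K →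
  ∃ F : Set (ℝ × (Fin l → ℝ)), Prep (Fin l) F ∧ dimH F ≤ dimH K

/-- COV (70 lines). `hausdorffMeasure_of_dimH_lt` (or `dimH_lt...`): `μH[s] F = 0`. Hence
(`Measure.hausdorffMeasure_apply`, or `mkMetric` / `OuterMeasure.mkMetric` covers) for every `η > 0` there are sets
`t_i`, `i : ℕ`, covering `F`, with diameters at most `ρ / 8` and `∑' diam (t_i) ^ s ≤ η` (nonempty ones counted).
Replace a nonempty `t_i` by the open ball around one of its points with the radius `2 diam t_i + ε_i`,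
`ε_i > 0` so small that `ε_i ≤ ρ / 4` and `∑ (2 diam + ε_i) ^ s ≤ 1` (for `s > 0`:
`(2 d + ε) ^ s ≤ (4 d) ^ s + (2 ε) ^ s`), take `η = 4 ^ (-s) / 2` and `(2 ε_i) ^ s = 2 ^ (-i-2)` or smaller.
Then take a finite subcover by compactness (`IsCompact.elim_finite_subcover`). -/
def S_COV : Prop := ∀ (l : ℕ) (F : Set (ℝ × (Fin l → ℝ))) (s : ℝ), IsCompact F → 0 < s →
  dimH F < ENNReal.ofReal s → ∀ ρ : ℝ, 0 < ρ → ∃ (n : ℕ) (c : Fin n → ℝ × (Fin l → ℝ)) (r : Fin n → ℝ),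
    (∀ j, 0 < r j ∧ r j ≤ ρ) ∧ F ⊆ ⋃ j, ball (c j) (r j) ∧ ∑ j, (r j) ^ s ≤ 1

/-- the balls of the class `i` -/
def U {l n : ℕ} (c : Fin n → ℝ × (Fin l → ℝ)) (r : Fin n → ℝ) (ρ : ℝ) (i : ℕ) : Set (ℝ × (Fin l → ℝ)) :=
  {p | ∃ j, ρ ^ (2 ^ (i + 1)) < r j ∧ r j ≤ ρ ^ (2 ^ i) ∧ p ∈ ball (c j) (r j)}

/-- CLSA (50 lines). Every `r j` is in exactly one of the intervals `(ρ^(2^(i+1)), ρ^(2^i)]` (they cover `(0, ρ]`, as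
`ρ^(2^i) → 0`). So the sets `{t ∈ [0,1] | (t, a + t v) ∈ U c r ρ i}` cover `[0, 1]`, and if all their volumes were
`< 1/((i+1)(i+2))` then the sum of the volumes would be `< 1` (`∑' 1/((i+1)(i+2)) = 1`; strictly: compare one term,
or use that `U` is empty for large `i`). -/
def S_CLSA : Prop := ∀ (l n : ℕ) (c : Fin n → ℝ × (Fin l → ℝ)) (r : Fin n → ℝ) (ρ : ℝ), 0 < ρ → ρ < 1 →
  (∀ j, 0 < r j ∧ r j ≤ ρ) → ∀ a v : Fin l → ℝ,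
    (∀ t ∈ Icc (0:ℝ) 1, (t, a + t • v) ∈ ⋃ j, ball (c j) (r j)) →
    ∃ i : ℕ, ENNReal.ofReal (1 / (((i : ℝ) + 1) * (i + 2))) ≤
      volume {t : ℝ | t ∈ Icc (0:ℝ) 1 ∧ (t, a + t • v) ∈ U c r ρ i}

/-- CLSB (40 lines). Countable subadditivity of the outer measure `volume` on `Fin l → ℝ`:
`2 ^ l = volume (cube) ≤ ∑' volume (D i)`, and `∑' 2 ^ l / ((i+1)(i+2)) = 2 ^ l`; the strict inequality for all `i`
would give `∑' volume (D i) < 2 ^ l` (`ENNReal.tsum_lt_tsum`). -/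
def S_CLSB : Prop := ∀ (l : ℕ) (D : ℕ → Set (Fin l → ℝ)), (∀ v : Fin l → ℝ, (∀ i, |v i| ≤ 1) → ∃ i, v ∈ D i) →
  ∃ i : ℕ, ENNReal.ofReal (2 ^ l / (((i : ℝ) + 1) * (i + 2))) ≤ volume (D i)

/-- CLSV (60 lines). `8 / q ≤ 8 δ < 8 r_j` for `δ = ρ^(2^(i+1))`, so the neighbourhood is contained in the union of the
balls `ball (c j) (9 r_j)`, `j` of the class `i`, with volumes `(18 r_j)^(l+1)` (`Real.volume_pi_ball`,
`ball_prod_same`), and `r_j^(l+1) = r_j^s r_j^(l+1-s) ≤ r_j^s (ρ^(2^i))^(l+1-s) = r_j^s δ^((l+1-s)/2)`. -/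
def S_CLSV : Prop := ∀ (l n : ℕ) (c : Fin n → ℝ × (Fin l → ℝ)) (r : Fin n → ℝ) (ρ s : ℝ), 0 < ρ → ρ < 1 →
  (∀ j, 0 < r j ∧ r j ≤ ρ) → 0 < s → s < l + 1 → ∑ j, (r j) ^ s ≤ 1 → ∀ (i q : ℕ), 0 < q →
    1 / ρ ^ (2 ^ (i + 1)) ≤ (q : ℝ) →
    volume (thickening (8 / q : ℝ) (U c r ρ i)) ≤
      ENNReal.ofReal (18 ^ (l + 1) * (ρ ^ (2 ^ (i + 1))) ^ (((l : ℝ) + 1 - s) / 2))

/-- GRID (60 lines). `G` = the set of all `g` in the box with `-q ≤ g i < q` whose closed cell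
`{v | ∀ i, g i / q ≤ v i ≤ (g i + 1) / q}` meets `D`. The cells of the members of `G` cover `D` (for `v ∈ D` take
`g i = min ⌊v i * q⌋ (q - 1)`) and have the volume `q ^ (-l)`, so `w 2^l ≤ volume D ≤ |G| / q^l`. -/
def S_GRID : Prop := ∀ (l q : ℕ) (w : ℝ) (D : Set (Fin l → ℝ)), 0 < q → 0 ≤ w →
  (∀ v ∈ D, ∀ i, |v i| ≤ 1) → ENNReal.ofReal (w * 2 ^ l) ≤ volume D →
  ∃ G : Finset (Fin l → ℤ), (∀ g ∈ G, ∀ i, -(q : ℤ) ≤ g i ∧ g i < q) ∧ w * (2 * q) ^ l ≤ (G.card : ℝ) ∧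
    ∀ g ∈ G, ∃ v ∈ D, ∀ i, |v i - (g i : ℝ) / q| ≤ 1 / q

/-- TIME (50 lines). `T` = the set of all `j`, `0 ≤ j < q`, such that `[j/q, (j+1)/q]` contains a `t` with
`(t, a + t v) ∈ W`. These intervals cover `{t ∈ [0,1] | (t, a + t v) ∈ W}` (up to `j = q - 1` for `t = 1`), so
`w ≤ |T| / q`. For `j ∈ T` and such a `t`: `|j/q - t| ≤ 1/q` and
`|a + (j/q) (g/q) - a - t v| ≤ |j/q - t| |g/q| + t |g/q - v| ≤ 2/q < 3/q` in all coordinates. -/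
def S_TIME : Prop := ∀ (l q : ℕ) (w : ℝ) (W : Set (ℝ × (Fin l → ℝ))) (a v : Fin l → ℝ) (g : Fin l → ℤ), 0 < q →
  (∀ i, -(q : ℤ) ≤ g i ∧ g i < q) → (∀ i, |v i - (g i : ℝ) / q| ≤ 1 / q) →
  ENNReal.ofReal w ≤ volume {t : ℝ | t ∈ Icc (0:ℝ) 1 ∧ (t, a + t • v) ∈ W} →
  ∃ T : Finset ℤ, T ⊆ Finset.Ico 0 (q : ℤ) ∧ w * q ≤ (T.card : ℝ) ∧
    ∀ j ∈ T, (((j : ℝ) / q, fun i => a i + (j : ℝ) / q * ((g i : ℝ) / q)) : ℝ × (Fin l → ℝ)) ∈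
      thickening (3 / q : ℝ) W

/-- PTSV (50 lines). For `x ∈ thickening (4/q) (Pts q G a T j)` and `t ∈ [j/q, (j+1)/q)` the point `(t, x)` has a
distance `< 4/q` from `(j/q, y)` with `y ∈ Pts`, which has a distance `< 3/q` from `W`. So
`[j/q, (j+1)/q) × thickening (4/q) (Pts j) ⊆ thickening (8/q) W`, these sets are disjoint for different `j` and have
the volumes `(1/q) volume (thickening (4/q) (Pts j))`. -/
def S_PTSV : Prop := ∀ (l q : ℕ) (W : Set (ℝ × (Fin l → ℝ))) (G : Finset (Fin l → ℤ))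
  (a : (Fin l → ℤ) → (Fin l → ℝ)) (T : (Fin l → ℤ) → Finset ℤ), 0 < q →
  (∀ g ∈ G, ∀ j ∈ T g, (((j : ℝ) / q, fun i => a g i + (j : ℝ) / q * ((g i : ℝ) / q)) : ℝ × (Fin l → ℝ)) ∈
      thickening (3 / q : ℝ) W) →
  ∑ j ∈ Finset.Ico 0 (q : ℤ), volume (thickening (4 / q : ℝ) (Pts q G a T j)) ≤
    (q : ℝ≥0∞) * volume (thickening (8 / q : ℝ) W)

/-- the choices of one shear and one shift -/
noncomputable def Om1 (l q : ℕ) : Finset ((Fin l → ℤ) × ℤ) :=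
  (Fintype.piFinset fun _ : Fin l => Finset.Icc (-(2 * q : ℤ)) (2 * q)) ×ˢ Finset.Ico (-(q : ℤ)) q

/-- the choices of `m` shears and shifts -/
noncomputable def Om (l m q : ℕ) : Finset (Fin m → (Fin l → ℤ) × ℤ) := Fintype.piFinset fun _ => Om1 l q

/-- the block `u` is good at the time `j` for the choice `ω` -/
def Gd {l : ℕ} (G : Finset (Fin l → ℤ)) (T : (Fin l → ℤ) → Finset ℤ) (u : Fin l → ℤ) (j : ℤ)
    (ω : (Fin l → ℤ) × ℤ) : Prop := u - ω.1 ∈ G ∧ j + ω.2 ∈ T (u - ω.1)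

/-- ONE (50 lines). The map `ω ↦ (u - ω.1, j + ω.2)` is injective, and every pair `(g, t)` with `g ∈ G`, `t ∈ T g` is
`(u - z, j + τ)` for `z = u - g ∈ [-2q, 2q]^l`, `τ = t - j ∈ [-q, q)`. So the number of good `ω` is
`∑_{g ∈ G} |T g| ≥ w (2q)^l w q`, and `|Om1| = (4q+1)^l 2q ≤ (6q)^l 2q`. -/
def S_ONE : Prop := ∀ (l q : ℕ) (w : ℝ) (G : Finset (Fin l → ℤ)) (T : (Fin l → ℤ) → Finset ℤ), 0 < q → 0 ≤ w →
  (∀ g ∈ G, ∀ i, -(q : ℤ) ≤ g i ∧ g i < q) → w * (2 * q) ^ l ≤ (G.card : ℝ) →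
  (∀ g ∈ G, T g ⊆ Finset.Ico 0 (q : ℤ)) → (∀ g ∈ G, w * q ≤ ((T g).card : ℝ)) →
  ∀ u : Fin l → ℤ, (∀ i, -(q : ℤ) ≤ u i ∧ u i < q) → ∀ j : ℤ, 0 ≤ j → j ≤ q →
    w ^ 2 / (2 * 3 ^ l) * ((Om1 l q).card : ℝ) ≤ (({ω | ω ∈ Om1 l q ∧ Gd G T u j ω} : Set _).ncard : ℝ)

/-- CHER (60 lines). Exponential moments: `∑_ω ∏_b f b (ω b) = ∏_b ∑_{x ∈ A} f b x` (`Finset.prod_univ_sum`) with
`f b x = 1/2` if `x` is good for `b`, else `1`; each factor is at most `|A| (1 - p/2) ≤ |A| exp(-p/2)`. If fewer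
than `p m / 4` of the `b` are good for `ω` then the product is at least `2^(-pm/4) ≥ exp(-pm/4)`
(`log 2 < 1`). So the number of such `ω` is at most `exp(pm/4) exp(-pm/2) |A|^m`. -/
def S_CHER : Prop := ∀ (α : Type) (A : Finset α) (m : ℕ) (e : Fin m → α → Prop) (p : ℝ), 0 ≤ p → p ≤ 1 →
  (∀ b, p * (A.card : ℝ) ≤ (({x | x ∈ A ∧ e b x} : Set α).ncard : ℝ)) →
  (({ω | ω ∈ Fintype.piFinset (fun _ : Fin m => A) ∧ (({b | e b (ω b)} : Set (Fin m)).ncard : ℝ) < p * m / 4} :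
      Set (Fin m → α)).ncard : ℝ) ≤ Real.exp (-(p * m / 4)) * (A.card : ℝ) ^ m

/-- GRD (50 lines), greedy covering. Induction on `M`: if `U` is empty take `W = ∅`. Otherwise double counting gives an
`ω ∈ Om` with `R ω u` for at least half of the `u ∈ U`; the remaining ones are fewer than `2 ^ (M - 1)`. -/
def S_GRD : Prop := ∀ (α β : Type) (O : Finset α) (V : Finset β) (R : α → β → Prop),
  (∀ u ∈ V, (O.card : ℝ) ≤ 2 * (({ω | ω ∈ O ∧ R ω u} : Set α).ncard : ℝ)) → O.Nonempty → ∀ M : ℕ, V.card < 2 ^ M →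
    ∃ W : Finset α, W ⊆ O ∧ W.card ≤ M ∧ ∀ u ∈ V, ∃ ω ∈ W, R ω u

/-- BLK (40 lines). The volume on `Fin m × Fin l → ℝ` is the product over the blocks: e.g. `Measure.pi_eq` for the
map `curry` (`MeasurableEquiv.curry`), or check if Mathlib has `volume_measurePreserving_curry`-like lemmas; or
induction / `Measure.pi` uniqueness on boxes. -/
def S_BLK : Prop := ∀ (m l : ℕ) (B : Fin m → Set (Fin l → ℝ)), (∀ b, MeasurableSet (B b)) →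
  volume {x : Fin m × Fin l → ℝ | ∀ b, (fun i => x (b, i)) ∈ B b} = ∏ b, volume (B b)

/-- THR (60 lines), uses `S_BLK`. A point of the set lies, for a subset `S` of size `n` of
`{b | x_b - s_b ∈ B b}`, in `{x | ∀ b, x_b ∈ (if b ∈ S then s_b + B b else Icc (-c) c)}`; the volume is invariant
under translations, `volume (Icc (-c) c) = ofReal (2 c) ^ l`. Union bound over `S ∈ powersetCard n univ`. -/
def S_THR : Prop := S_BLK → ∀ (m l n : ℕ) (c : ℝ) (s : Fin m → Fin l → ℝ) (B : Fin m → Set (Fin l → ℝ)), 0 < c →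
  (∀ b, IsOpen (B b)) →
  volume {x : Fin m × Fin l → ℝ | (∀ b, |x b| ≤ c) ∧
      n ≤ ({b | (fun i => x (b, i) - s b i) ∈ B b} : Set (Fin m)).ncard} ≤
    ∑ S ∈ Finset.powersetCard n (Finset.univ : Finset (Fin m)),
      (∏ b ∈ S, volume (B b)) * (ENNReal.ofReal (2 * c) ^ l) ^ (m - n)

/-- AVG (70 lines). For fixed `S` with `|S| = n`: `∑_ω ∏_{b ∈ S} v (j + (ω b).2) = ∏_b ∑_{x ∈ Om1} (v (j + x.2) or 1)
≤ (|Om1| β)^n |Om1|^(m-n)`, as `∑_{τ ∈ Ico (-q) q} v (j + τ) ≤ ∑_{t ∈ Ico 0 q} v t ≤ q β ≤ (2 q) β` (`v` vanishes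
outside of `Ico 0 q`; `Finset.prod_univ_sum`); there are at most `2 ^ m` sets `S`. -/
def S_AVG : Prop := ∀ (l m q n : ℕ) (β : ℝ) (v : ℤ → ℝ≥0∞), 0 < q → 0 ≤ β →
  (∀ t : ℤ, t < 0 ∨ (q : ℤ) ≤ t → v t = 0) → ∑ t ∈ Finset.Ico 0 (q : ℤ), v t ≤ ENNReal.ofReal (q * β) →
  ∀ j : ℤ, 0 ≤ j → j ≤ q →
    ∑ ω ∈ Om l m q, ∑ S ∈ Finset.powersetCard n (Finset.univ : Finset (Fin m)), ∏ b ∈ S, v (j + (ω b).2) ≤
      ((Om l m q).card : ℝ≥0∞) * 2 ^ m * ENNReal.ofReal β ^ n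

/-- the slice at the time `j / q` -/
def Sl {l : ℕ} (m q n : ℕ) (R : ℝ) (G : Finset (Fin l → ℤ)) (a : (Fin l → ℤ) → (Fin l → ℝ))
    (T : (Fin l → ℤ) → Finset ℤ) (ω : Fin m → (Fin l → ℤ) × ℤ) (j : ℤ) : Set (Fin m × Fin l → ℝ) :=
  {x | (∀ b, |x b| ≤ R + 2) ∧
    n ≤ ({b | (fun i => x (b, i) - ((j + (ω b).2 : ℤ) : ℝ) / q * (((ω b).1 i : ℝ) / q)) ∈
      Pts q G a T (j + (ω b).2)} : Set (Fin m)).ncard}

/-- GOOD (50 lines), uses ONE and CHER. For every `u` and every `j ∈ [0, q]` the number of `ω ∈ Om` for which fewer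
than `p m / 4` blocks are good, `p = w^2 / (2 · 3^l)`, is at most `exp(-pm/4) |Om|`; union over the `q + 1` times
`j`. -/
def S_GOOD : Prop := S_ONE → S_CHER → ∀ (l m q : ℕ) (w : ℝ) (G : Finset (Fin l → ℤ))
  (T : (Fin l → ℤ) → Finset ℤ), 0 < q → 0 ≤ w → w ≤ 1 →
  (∀ g ∈ G, ∀ i, -(q : ℤ) ≤ g i ∧ g i < q) → w * (2 * q) ^ l ≤ (G.card : ℝ) →
  (∀ g ∈ G, T g ⊆ Finset.Ico 0 (q : ℤ)) → (∀ g ∈ G, w * q ≤ ((T g).card : ℝ)) →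
  4 * ((q : ℝ) + 1) * Real.exp (-(w ^ 2 / (2 * 3 ^ l) * m / 4)) ≤ 1 →
  ∀ u : Fin m → Fin l → ℤ, (∀ b i, -(q : ℤ) ≤ u b i ∧ u b i < q) →
    3 / 4 * ((Om l m q).card : ℝ) ≤
      (({ω | ω ∈ Om l m q ∧ ∀ j : ℤ, 0 ≤ j → j ≤ q →
        w ^ 2 / (2 * 3 ^ l) * m / 4 ≤ (({b | Gd G T (u b) j (ω b)} : Set (Fin m)).ncard : ℝ)} : Set _).ncard : ℝ)

/-- VOL (80 lines), uses THR, AVG. `thickening (4/q) (Sl ...)` is contained in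
`{x | (∀ b, |x b| ≤ R + 6) ∧ n ≤ ncard {b | x_b - s_b ∈ thickening (4/q) (Pts (j + τ_b))}}` (`4/q ≤ 4`, the `s_b` do
not depend on `x`). Now THR, AVG with `v t = volume (thickening (4/q) (Pts q G a T t))` (`Pts` is empty for
`t ∉ Ico 0 q` by `Data.time`), sum over the `q + 1` times, `(4/q) (q+1) ≤ 8`, and Markov's inequality: the `ω` with a
larger volume than four times the average are at most a quarter of `Om`. -/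
def S_VOL : Prop := S_BLK → S_THR → S_AVG → ∀ (l m q n : ℕ) (R w β : ℝ) (G : Finset (Fin l → ℤ))
  (a : (Fin l → ℤ) → (Fin l → ℝ)) (T : (Fin l → ℤ) → Finset ℤ), 0 < q → 1 ≤ R → 0 ≤ β → n ≤ m →
  Data l R q w β G a T →
    3 / 4 * ((Om l m q).card : ℝ) ≤
      (({ω | ω ∈ Om l m q ∧ ∑ j ∈ Finset.Icc 0 (q : ℤ),
        ENNReal.ofReal (4 / q) * volume (thickening (4 / q : ℝ) (Sl m q n R G a T ω j)) ≤
          ENNReal.ofReal (32 * 2 ^ m * (2 * R + 12) ^ (l * m) * β ^ n)} : Set _).ncard : ℝ)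

/-- LINE (70 lines). `A (b, i) = a g i + (τ_b / q) (u b i / q)` if `g = u b - z_b ∈ G` (`ω b = (z_b, τ_b)`), else `0`.
If the block `b` is good at the time `j` then
`A_b + (j/q) (u_b/q) - ((j+τ_b)/q) (z_b/q) = a g + ((j+τ_b)/q) (g/q) ∈ Pts (j + τ_b)`. Bounds: `|A| ≤ R + 1`. -/
def S_LINE : Prop := ∀ (l m q n : ℕ) (R : ℝ) (G : Finset (Fin l → ℤ)) (a : (Fin l → ℤ) → (Fin l → ℝ))
  (T : (Fin l → ℤ) → Finset ℤ), 0 < q → 1 ≤ R → (∀ g ∈ G, ∀ i, |a g i| ≤ R) →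
  ∀ (ω : Fin m → (Fin l → ℤ) × ℤ) (u : Fin m → Fin l → ℤ), ω ∈ Om l m q →
    (∀ b i, -(q : ℤ) ≤ u b i ∧ u b i < q) →
    (∀ j : ℤ, 0 ≤ j → j ≤ q → n ≤ ({b | Gd G T (u b) j (ω b)} : Set (Fin m)).ncard) →
    ∃ A : Fin m × Fin l → ℝ, ∀ j : ℤ, 0 ≤ j → j ≤ q →
      (fun b => A b + (j : ℝ) / q * ((u b.1 b.2 : ℝ) / q)) ∈ Sl m q n R G a T ω j

/-- SET (90 lines). `K = ⋃_{ω ∈ W} ⋃_{j ∈ [0,q]} {t ∈ [0,1] : |t - j/q| ≤ 1/q} × cthickening (2/q) (Sl ω j)`: a finite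
union of compact sets (the `Sl` are bounded). For a slope `v` take `u b i = min ⌊v (b,i) q⌋ (q-1)`, so
`|v - u/q| ≤ 1/q`, and the line `A` of `u` and an `ω ∈ W`; for `t ∈ [0,1]`, `j = ⌊t q⌋`:
`|A + t v - A - (j/q)(u/q)| ≤ |v - u/q| + |t - j/q| ≤ 2/q`. The `1/q`-neighbourhood of `K` is contained in the union
of `{t : |t - j/q| < 2/q} × thickening (4/q) (Sl ω j)`. -/
def S_SET : Prop := ∀ (l m q n : ℕ) (R : ℝ) (G : Finset (Fin l → ℤ)) (a : (Fin l → ℤ) → (Fin l → ℝ))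
  (T : (Fin l → ℤ) → Finset ℤ) (W : Finset (Fin m → (Fin l → ℤ) × ℤ)), 0 < q → 1 ≤ R →
  (∀ u : Fin m → Fin l → ℤ, (∀ b i, -(q : ℤ) ≤ u b i ∧ u b i < q) → ∃ ω ∈ W, ∃ A : Fin m × Fin l → ℝ,
    ∀ j : ℤ, 0 ≤ j → j ≤ q → (fun b => A b + (j : ℝ) / q * ((u b.1 b.2 : ℝ) / q)) ∈ Sl m q n R G a T ω j) →
  ∃ K : Set (ℝ × (Fin m × Fin l → ℝ)), Prep (Fin m × Fin l) K ∧
    volume (thickening (1 / q : ℝ) K) ≤
      ∑ ω ∈ W, ∑ j ∈ Finset.Icc 0 (q : ℤ),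
        ENNReal.ofReal (4 / q) * volume (thickening (4 / q : ℝ) (Sl m q n R G a T ω j))

/-- NUMA (50 lines). `p x = X 2^(i+1)/(2·3^l (i+1)^2 (i+2)^2) ≥ c X`; `p^(-2) ≤ C' (i+2)^8` and
`log x = (i+1) log 2 + log X ≥ (i+2) (log 2)/2` and `≥ log X`, so `(log x)^9 ≥ log X ((i+2) (log 2)/2)^8`. -/
def S_NUMA : Prop := ∀ (l : ℕ) (C : ℝ), 1 ≤ C → ∃ X₀ : ℝ, 1 ≤ X₀ ∧ ∀ X : ℝ, X₀ ≤ X → ∀ i : ℕ,
  C ≤ 2 ^ (i + 1) * X ∧ 0 ≤ Real.log (2 ^ (i + 1) * X) ∧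
  C ≤ (1 / (((i : ℝ) + 1) * (i + 2))) ^ 2 / (2 * 3 ^ l) * (2 ^ (i + 1) * X) ∧
  C ≤ ((1 / (((i : ℝ) + 1) * (i + 2))) ^ 2 / (2 * 3 ^ l)) ^ 2 * Real.log (2 ^ (i + 1) * X) ^ 9

/-- NUM (130 lines, real analysis only), uses NUMA with a large `C` depending on `l`, `γ`, `R`, `N₀`. Write `X = log (1/ρ)`, `x = 2^(i+1) X = log (1/δ)`, `δ = ρ^(2^(i+1))`,
`w = 1/((i+1)(i+2))`, `p = w^2/(2·3^l)`, `q = ⌈1/δ⌉`, `m = ⌈16 (x+2)/p⌉`, `N = m l + 1`, `n = ⌈p m/4⌉`,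
`β = 18^(l+1) δ^(γ/2)`, `M = 2 q l m + 1`. Then `q ≤ 2 e^x`, `4 (q+1) e^(-pm/4) ≤ 1`, `n ≤ m`, `e^(-N) ≤ 1/q` (`N ≥ m ≥ 16 x + 32`), `β ≤ 1` for large
`X`, and the logarithm of the left side of the last inequality is at most
`C₁ m + 3 x - (p m/4) (γ x/2 - (l+1) log 18)` with `C₁` depending on `l`, `R` only
(`log (M + 1) + log N ≤ 2 x + 4 m + ..`), and this is at most `-(γ/32) p m x` if `X` is large, uniformly in `i`, since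
`p x ≥ c X 2^(i+1)/((i+1)^2 (i+2)^2) ≥ c' X` and `m ≥ 16 x / p ≥ 16 x`.
Finally `N ≤ 2 l m`, `m ≤ 32 x/p` for large `X`, so `N^2 ≤ 128 l^2 m x/p` and `N^2/(log N)^9 ≤ (γ/32) p m x` (strictly less after halving) follows from
`C p^(-2) ≤ (log x)^9 ≤ (log N)^9` (NUMA, `N ≥ m ≥ 16 x`). -/
def S_NUM : Prop := S_NUMA → ∀ (l : ℕ) (γ R : ℝ), 1 ≤ l → 0 < γ → 1 ≤ R → ∀ N₀ : ℕ, ∃ ρ : ℝ, 0 < ρ ∧ ρ < 1 ∧
  ∀ i : ℕ, ∃ q m n M : ℕ, 0 < q ∧ 1 / ρ ^ (2 ^ (i + 1)) ≤ (q : ℝ) ∧ N₀ ≤ m * l + 1 ∧ n ≤ m ∧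
    4 * ((q : ℝ) + 1) * Real.exp (-((1 / (((i : ℝ) + 1) * (i + 2))) ^ 2 / (2 * 3 ^ l) * m / 4)) ≤ 1 ∧
    (∀ c : ℕ, (1 / (((i : ℝ) + 1) * (i + 2))) ^ 2 / (2 * 3 ^ l) * m / 4 ≤ (c : ℝ) → n ≤ c) ∧
    (2 * q) ^ (l * m) < 2 ^ M ∧
    Real.exp (-((m * l + 1 : ℕ) : ℝ)) ≤ 1 / q ∧
    ((m * l + 1 : ℕ) : ℝ) * (M * (32 * 2 ^ m * (2 * R + 12) ^ (l * m) *
      (18 ^ (l + 1) * (ρ ^ (2 ^ (i + 1))) ^ (γ / 2)) ^ n)) <
      Real.exp (-(((m * l + 1 : ℕ) : ℝ) ^ 2 / Real.log ((m * l + 1 : ℕ) : ℝ) ^ 9))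

end Pool.Agent.H53.KH
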