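import Pool.Agent.H53.KH.Stm

set_option autoImplicit false

/-! KH-THR (helper39): volume of the threshold set. -/

namespace Pool.Agent.H53.KH

open Set Metric MeasureTheory Filter Topology Pool.Agent.H53.KD
open scoped ENNReal

theorem THR_main : S_THR := by
  classical
  intro hblk m l n c s B hc hB
  -- the blocks
  set BS : Finset (Fin m) → Fin m → Set (Fin l → ℝ) := fun S b =>
    if b ∈ S then (fun y : Fin l → ℝ => y - s b) ⁻¹' (B b) else Icc (fun _ => -c) (fun _ => c) with hBS
  have hmeas : ∀ S b, MeasurableSet (BS S b) := by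
    intro S b
    simp only [hBS]
    split_ifs with h
    · exact ((hB b).preimage (continuous_id.sub continuous_const)).measurableSet
    · exact measurableSet_Icc
  have hvol : ∀ S b, volume (BS S b) = if b ∈ S then volume (B b) else ENNReal.ofReal (2 * c) ^ l := by
    intro S b
    simp only [hBS]
    split_ifs with h
    · exact (measurePreserving_sub_right volume (s b)).measure_preimage (hB b).measurableSet.nullMeasurableSet
    · rw [Real.volume_Icc_pi]
      simp only [sub_neg_eq_add, Finset.prod_const, Finset.card_univ, Fintype.card_fin]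
      rw [two_mul]
  have hsub : {x : Fin m × Fin l → ℝ | (∀ b, |x b| ≤ c) ∧
      n ≤ ({b | (fun i => x (b, i) - s b i) ∈ B b} : Set (Fin m)).ncard} ⊆
      ⋃ S ∈ Finset.powersetCard n (Finset.univ : Finset (Fin m)),
        {x : Fin m × Fin l → ℝ | ∀ b, (fun i => x (b, i)) ∈ BS S b} := by
    rintro x ⟨hx1, hx2⟩
    rw [Set.ncard_eq_toFinset_card'] at hx2
    obtain ⟨S, hS1, hS2⟩ := Finset.exists_subset_card_eq hx2
    simp only [mem_iUnion]
    refine ⟨S, Finset.mem_powersetCard.2 ⟨Finset.subset_univ _, hS2⟩, ?_⟩
    intro b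
    simp only [hBS]
    split_ifs with h
    · have := hS1 h
      rw [Set.mem_toFinset] at this
      exact this
    · exact ⟨fun i => (abs_le.1 (hx1 (b, i))).1, fun i => (abs_le.1 (hx1 (b, i))).2⟩
  refine (measure_mono hsub).trans ((measure_biUnion_finset_le _ _).trans ?_)
  refine Finset.sum_le_sum fun S hS => ?_
  rw [Finset.mem_powersetCard] at hS
  rw [hblk m l (BS S) (hmeas S)]
  apply le_of_eq
  rw [Finset.prod_congr rfl (fun b _ => hvol S b), Finset.prod_ite, Finset.prod_const]
  congr 1
  · apply Finset.prod_congr _ (fun _ _ => rfl)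
    ext b; simp
  · congr 1
    have h1 : (Finset.univ.filter fun b => b ∉ S) = Sᶜ := by
      ext b; simp
    rw [h1, Finset.card_compl, Fintype.card_fin, hS.2]

end Pool.Agent.H53.KH
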