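import Pool.Agent.H53.KH.Stm

set_option autoImplicit false

/-! # KH-TIME: grid times -/

namespace Pool.Agent.H53.KH

open Set Metric MeasureTheory Filter Topology Pool.Agent.H53.KD
open scoped ENNReal

theorem TIME_main : S_TIME := by
  classical
  intro l q w W a v g hq hg hv hw
  have hq0 : (0:ℝ) < q := by exact_mod_cast hq
  set T : Finset ℤ := (Finset.Ico 0 (q : ℤ)).filter
    (fun j => ∃ t : ℝ, (j:ℝ) / q ≤ t ∧ t ≤ ((j:ℝ) + 1) / q ∧ (t ∈ Icc (0:ℝ) 1 ∧ (t, a + t • v) ∈ W)) with hT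
  refine ⟨T, Finset.filter_subset _ _, ?_, ?_⟩
  · have hcov : {t : ℝ | t ∈ Icc (0:ℝ) 1 ∧ (t, a + t • v) ∈ W} ⊆
        ⋃ j ∈ T, Icc ((j:ℝ) / q) (((j:ℝ) + 1) / q) := by
      intro t ht
      have ht0 : 0 ≤ t := ht.1.1
      have ht1 : t ≤ 1 := ht.1.2
      have h1 : (0:ℝ) ≤ t * q := by positivity
      have key : ∃ j : ℤ, 0 ≤ j ∧ j < q ∧ (j:ℝ) ≤ t * q ∧ t * q ≤ (j:ℝ) + 1 := by
        by_cases h : t * q < q
        · refine ⟨⌊t * q⌋, Int.floor_nonneg.mpr h1, ?_, Int.floor_le _, (Int.lt_floor_add_one _).le⟩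
          exact Int.floor_lt.mpr (by exact_mod_cast h)
        · have h2 : t * q ≤ q := by nlinarith
          refine ⟨(q:ℤ) - 1, by omega, by omega, ?_, ?_⟩
          · push_cast; linarith
          · push_cast; linarith
      obtain ⟨j, hj0, hjq, hj1, hj2⟩ := key
      have e1 : (j:ℝ) / q ≤ t := (div_le_iff₀ hq0).mpr hj1
      have e2 : t ≤ ((j:ℝ) + 1) / q := (le_div_iff₀ hq0).mpr hj2
      refine mem_iUnion₂.mpr ⟨j, ?_, ⟨e1, e2⟩⟩
      exact Finset.mem_filter.mpr ⟨Finset.mem_Ico.mpr ⟨hj0, hjq⟩, t, e1, e2, ht⟩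
    have hvol : volume {t : ℝ | t ∈ Icc (0:ℝ) 1 ∧ (t, a + t • v) ∈ W} ≤ ENNReal.ofReal ((T.card : ℝ) / q) := by
      calc volume {t : ℝ | t ∈ Icc (0:ℝ) 1 ∧ (t, a + t • v) ∈ W}
          ≤ volume (⋃ j ∈ T, Icc ((j:ℝ) / q) (((j:ℝ) + 1) / q)) := measure_mono hcov
        _ ≤ ∑ j ∈ T, volume (Icc ((j:ℝ) / q) (((j:ℝ) + 1) / q)) := measure_biUnion_finset_le _ _
        _ = ∑ j ∈ T, ENNReal.ofReal (1 / q) := by
            refine Finset.sum_congr rfl fun j _ => ?_
            rw [Real.volume_Icc]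
            congr 1
            ring
        _ = ENNReal.ofReal ((T.card : ℝ) / q) := by
            rw [Finset.sum_const, nsmul_eq_mul, ← ENNReal.ofReal_natCast, ← ENNReal.ofReal_mul (by positivity)]
            congr 1
            ring
    have h3 := (ENNReal.ofReal_le_ofReal_iff (by positivity)).mp (hw.trans hvol)
    exact (le_div_iff₀ hq0).mp h3
  · intro j hj
    obtain ⟨_, t, h1, h2, ht, hW⟩ := Finset.mem_filter.mp hj
    rw [mem_thickening_iff]
    refine ⟨(t, a + t • v), hW, ?_⟩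
    have hd : |(j:ℝ) / q - t| ≤ 1 / q := by
      rw [abs_le]
      have : ((j:ℝ) + 1) / q = (j:ℝ) / q + 1 / q := by ring
      have h1q : (0:ℝ) < 1 / q := by positivity
      constructor <;> linarith
    have h3q : (2:ℝ) / q < 3 / q := by
      apply div_lt_div_of_pos_right _ hq0; norm_num
    have h1q : (1:ℝ) / q ≤ 2 / q := by
      apply div_le_div_of_nonneg_right _ hq0.le; norm_num
    refine lt_of_le_of_lt ?_ h3q
    rw [Prod.dist_eq]
    refine max_le ?_ ?_
    · change dist ((j:ℝ) / q) t ≤ 2 / q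
      rw [Real.dist_eq]
      exact hd.trans h1q
    · rw [dist_pi_le_iff (by positivity)]
      intro i
      have hgi : |(g i : ℝ) / q| ≤ 1 := by
        rw [abs_le]
        have c1 : (-(q:ℝ)) ≤ (g i : ℝ) := by exact_mod_cast (hg i).1
        have c2 : (g i : ℝ) < (q:ℝ) := by exact_mod_cast (hg i).2
        constructor
        · rw [le_div_iff₀ hq0]; linarith
        · rw [div_le_iff₀ hq0]; linarith
      change dist (a i + (j : ℝ) / q * ((g i : ℝ) / q)) (a i + t * v i) ≤ 2 / q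
      rw [Real.dist_eq]
      have e : a i + (j : ℝ) / q * ((g i : ℝ) / q) - (a i + t * v i) =
          ((j:ℝ) / q - t) * ((g i : ℝ) / q) + (-t) * (v i - (g i : ℝ) / q) := by ring
      rw [e]
      refine (abs_add_le _ _).trans ?_
      rw [abs_mul, abs_mul]
      have h5 : |(j:ℝ) / q - t| * |(g i : ℝ) / q| ≤ 1 / q * 1 :=
        mul_le_mul hd hgi (abs_nonneg _) (by positivity)
      have h6 : |(-t)| * |v i - (g i : ℝ) / q| ≤ 1 * (1 / q) := by
        refine mul_le_mul ?_ (hv i) (abs_nonneg _) (by norm_num)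
        rw [abs_neg, abs_of_nonneg ht.1]; exact ht.2
      have e2 : (2:ℝ) / q = 1 / q * 1 + 1 * (1 / q) := by ring
      rw [e2]
      exact add_le_add h5 h6

end Pool.Agent.H53.KH
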