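import Pool.Agent.H53.KH.Stm

/-! # KH-VOL: most choices have small volume -/

set_option autoImplicit false

namespace Pool.Agent.H53.KH

open Set Metric MeasureTheory Filter Topology Pool.Agent.H53.KD
open scoped ENNReal

namespace VOL

lemma markov {α : Type} (O : Finset α) (Z : α → ℝ≥0∞) (t : ℝ) (ht : 0 ≤ t)
    (h : ∑ ω ∈ O, Z ω ≤ (O.card : ℝ≥0∞) * ENNReal.ofReal t) :
    3 / 4 * (O.card : ℝ) ≤ (({ω | ω ∈ O ∧ Z ω ≤ ENNReal.ofReal (4 * t)} : Set α).ncard : ℝ) := by
  classical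
  have h1 : ({ω | ω ∈ O ∧ Z ω ≤ ENNReal.ofReal (4 * t)} : Set α) =
      ((O.filter fun ω => Z ω ≤ ENNReal.ofReal (4 * t) : Finset α) : Set α) := by
    ext ω
    simp
  rw [h1, Set.ncard_coe_finset]
  have h2 : (O.filter fun ω => Z ω ≤ ENNReal.ofReal (4 * t)).card +
      (O.filter fun ω => ¬ Z ω ≤ ENNReal.ofReal (4 * t)).card = O.card :=
    Finset.card_filter_add_card_filter_not _
  set Bd := O.filter fun ω => ¬ Z ω ≤ ENNReal.ofReal (4 * t) with hBd
  have h3 : 4 * (Bd.card : ℝ) ≤ O.card := by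
    rcases ht.eq_or_lt with h0 | h0
    · subst h0
      rw [ENNReal.ofReal_zero, mul_zero] at h
      have h4 : Bd = ∅ := by
        rw [hBd, Finset.filter_eq_empty_iff]
        intro ω hω
        have h5 := (Finset.sum_eq_zero_iff.1 (le_antisymm h bot_le)) ω hω
        rw [h5]
        simp
      rw [h4]
      simp
    · have h4 : (Bd.card : ℝ≥0∞) * ENNReal.ofReal (4 * t) ≤ (O.card : ℝ≥0∞) * ENNReal.ofReal t := by
        refine le_trans ?_ ((Finset.sum_le_sum_of_subset (f := Z)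
          (Finset.filter_subset (fun ω => ¬ Z ω ≤ ENNReal.ofReal (4 * t)) O)).trans h)
        rw [← nsmul_eq_mul]
        refine Finset.card_nsmul_le_sum _ _ _ fun ω hω => ?_
        rw [Finset.mem_filter, not_le] at hω
        exact hω.2.le
      rw [← ENNReal.ofReal_natCast, ← ENNReal.ofReal_natCast, ← ENNReal.ofReal_mul (by positivity),
        ← ENNReal.ofReal_mul (by positivity), ENNReal.ofReal_le_ofReal_iff (by positivity)] at h4
      nlinarith
  have h4 : ((O.filter fun ω => Z ω ≤ ENNReal.ofReal (4 * t)).card : ℝ) + Bd.card = O.card := by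
    exact_mod_cast h2
  linarith

end VOL

theorem VOL_main : S_VOL := by
  intro hBLK hTHR hAVG l m q n R w β G a T hq hR hβ hnm hD
  have hq' : (0 : ℝ) < q := by exact_mod_cast hq
  have hq1 : (1 : ℝ) ≤ q := by exact_mod_cast hq
  set v : ℤ → ℝ≥0∞ := fun t => volume (thickening (4 / q : ℝ) (Pts q G a T t)) with hv
  have hv0 : ∀ t : ℤ, t < 0 ∨ (q : ℤ) ≤ t → v t = 0 := by
    intro t ht
    have h1 : Pts q G a T t = ∅ := by
      rw [Set.eq_empty_iff_forall_notMem]
      rintro x ⟨g, hg, hj, -⟩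
      have h2 := hD.time g hg hj
      rw [Finset.mem_Ico] at h2
      omega
    rw [hv]
    simp only [h1, thickening_empty, measure_empty]
  have hA := hAVG l m q n β v hq hβ hv0 hD.vol
  have hc : ∀ (ω : Fin m → (Fin l → ℤ) × ℤ) (j : ℤ),
      volume (thickening (4 / q : ℝ) (Sl m q n R G a T ω j)) ≤
      (∑ S ∈ Finset.powersetCard n (Finset.univ : Finset (Fin m)), ∏ b ∈ S, v (j + (ω b).2)) *
        (ENNReal.ofReal (2 * (R + 6)) ^ l) ^ (m - n) := by
    intro ω j
    have h1 := hTHR hBLK m l n (R + 6)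
      (fun b i => ((j + (ω b).2 : ℤ) : ℝ) / q * (((ω b).1 i : ℝ) / q))
      (fun b => thickening (4 / q : ℝ) (Pts q G a T (j + (ω b).2))) (by linarith)
      (fun b => isOpen_thickening)
    rw [← Finset.sum_mul] at h1
    refine (measure_mono ?_).trans h1
    intro x hx
    rw [mem_thickening_iff] at hx
    obtain ⟨y, hy, hxy⟩ := hx
    have h4 : (4 : ℝ) / q ≤ 4 := div_le_self (by norm_num) hq1
    refine ⟨fun b => ?_, ?_⟩
    · have h5 := dist_le_pi_dist x y b
      rw [Real.dist_eq] at h5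
      have h6 := hy.1 b
      have h7 := abs_add_le (x b - y b) (y b)
      rw [sub_add_cancel] at h7
      linarith
    · refine hy.2.trans (Set.ncard_le_ncard (fun b hb => ?_) (Set.toFinite _))
      rw [Set.mem_ofPred_eq, mem_thickening_iff]
      refine ⟨_, hb, ?_⟩
      rw [dist_pi_lt_iff (by positivity)]
      intro i
      rw [Real.dist_eq, sub_sub_sub_cancel_right]
      have h5 := dist_le_pi_dist x y (b, i)
      rw [Real.dist_eq] at h5
      linarith
  have hK : (ENNReal.ofReal (2 * (R + 6)) ^ l) ^ (m - n) ≤ ENNReal.ofReal ((2 * R + 12) ^ (l * m)) := by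
    rw [← pow_mul, ← ENNReal.ofReal_pow (by linarith), show 2 * (R + 6) = 2 * R + 12 by ring]
    exact ENNReal.ofReal_le_ofReal
      (pow_le_pow_right₀ (by linarith) (Nat.mul_le_mul_left l (Nat.sub_le m n)))
  have hR0 : 0 ≤ 2 * R + 12 := by linarith
  have key := VOL.markov (Om l m q) (fun ω => ∑ j ∈ Finset.Icc 0 (q : ℤ),
    ENNReal.ofReal (4 / q) * volume (thickening (4 / q : ℝ) (Sl m q n R G a T ω j)))
    (8 * 2 ^ m * (2 * R + 12) ^ (l * m) * β ^ n) (by positivity) ?_
  · rw [show 4 * (8 * 2 ^ m * (2 * R + 12) ^ (l * m) * β ^ n) =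
      32 * 2 ^ m * (2 * R + 12) ^ (l * m) * β ^ n by ring] at key
    exact key
  have h8 : ((Finset.Icc (0 : ℤ) q).card : ℝ≥0∞) * ENNReal.ofReal (4 / q) ≤ ENNReal.ofReal 8 := by
    rw [← ENNReal.ofReal_natCast, ← ENNReal.ofReal_mul (by positivity)]
    refine ENNReal.ofReal_le_ofReal ?_
    have h9 : (Finset.Icc (0 : ℤ) q).card = q + 1 := by
      rw [Int.card_Icc]
      omega
    rw [h9, mul_div_assoc', div_le_iff₀ hq']
    push_cast
    linarith
  calc ∑ ω ∈ Om l m q, ∑ j ∈ Finset.Icc 0 (q : ℤ),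
        ENNReal.ofReal (4 / q) * volume (thickening (4 / q : ℝ) (Sl m q n R G a T ω j))
      = ∑ j ∈ Finset.Icc 0 (q : ℤ), ∑ ω ∈ Om l m q,
        ENNReal.ofReal (4 / q) * volume (thickening (4 / q : ℝ) (Sl m q n R G a T ω j)) :=
        Finset.sum_comm
    _ ≤ ∑ j ∈ Finset.Icc 0 (q : ℤ), ENNReal.ofReal (4 / q) *
        ((((Om l m q).card : ℝ≥0∞) * 2 ^ m * ENNReal.ofReal β ^ n) *
          ENNReal.ofReal ((2 * R + 12) ^ (l * m))) := by
        refine Finset.sum_le_sum fun j hj => ?_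
        rw [Finset.mem_Icc] at hj
        rw [← Finset.mul_sum]
        gcongr
        refine (Finset.sum_le_sum fun ω _ => hc ω j).trans ?_
        rw [← Finset.sum_mul]
        exact mul_le_mul' (hA j hj.1 hj.2) hK
    _ = (((Finset.Icc (0 : ℤ) q).card : ℝ≥0∞) * ENNReal.ofReal (4 / q)) *
        ((((Om l m q).card : ℝ≥0∞) * 2 ^ m * ENNReal.ofReal β ^ n) *
          ENNReal.ofReal ((2 * R + 12) ^ (l * m))) := by
        rw [Finset.sum_const, nsmul_eq_mul]
        exact (mul_assoc _ _ _).symm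
    _ ≤ ENNReal.ofReal 8 * ((((Om l m q).card : ℝ≥0∞) * 2 ^ m * ENNReal.ofReal β ^ n) *
          ENNReal.ofReal ((2 * R + 12) ^ (l * m))) := by gcongr
    _ = ((Om l m q).card : ℝ≥0∞) *
        ENNReal.ofReal (8 * 2 ^ m * (2 * R + 12) ^ (l * m) * β ^ n) := by
        rw [ENNReal.ofReal_mul (by positivity), ENNReal.ofReal_mul (by positivity),
          ENNReal.ofReal_mul (by positivity), ENNReal.ofReal_pow hβ,
          ENNReal.ofReal_pow (by norm_num : (0 : ℝ) ≤ 2),
          show ENNReal.ofReal 2 = 2 by norm_num]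
        ring

end Pool.Agent.H53.KH
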